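import Mathlib

/-! # Counting does not depend on the instances -/

open Finset

namespace H589DT

theorem cardFt {X : Type*} (i j : Fintype X) : @Fintype.card X i = @Fintype.card X j := by
  rw [Subsingleton.elim i j]

theorem cardFU {X : Type*} (i j : Fintype X) (p q : X → Prop) (d : DecidablePred p)
    (d' : DecidablePred q) (h : ∀ x, p x ↔ q x) :
    (@Finset.filter X p d (@Finset.univ X i)).card =
      (@Finset.filter X q d' (@Finset.univ X j)).card := by
  have h1 := Subsingleton.elim i j
  subst h1
  have h2 : p = q := funext fun x => propext (h x)
  subst h2
  have h3 := Subsingleton.elim d d'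
  subst h3
  rfl

theorem cardF {X : Type*} (s : Finset X) (p q : X → Prop) (d : DecidablePred p)
    (d' : DecidablePred q) (h : ∀ x, p x ↔ q x) :
    (@Finset.filter X p d s).card = (@Finset.filter X q d' s).card := by
  have h2 : p = q := funext fun x => propext (h x)
  subst h2
  have h3 := Subsingleton.elim d d'
  subst h3
  rfl

end H589DT
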