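import Pool.Agent.H589R3.DT.Game
import Pool.Agent.H589R3.DT.Sub

/-! # Assembly for d-to-1 games (helper589) -/

open scoped Classical
open Finset

namespace H589DT

open H630VC (Prog marked)

/-- averaging over the random strings -/
theorem avg {Ω X Y : Type} [Fintype Ω] [Fintype X] [Fintype Y] [Nonempty Ω] [Nonempty X]
    [Nonempty Y] (a : Ω → X → Prop) (b : Ω → Y → Prop) (bad : Finset Y)
    (h1 : ∀ x, 3 * Fintype.card Ω ≤ 4 * (univ.filter fun r => a r x).card)
    (h2 : ∀ y, y ∉ bad → 3 * Fintype.card Ω ≤ 4 * (univ.filter fun r => b r y).card)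
    (h3 : 8 * bad.card ≤ Fintype.card Y)
    (h4 : ∀ r, 4 * (univ.filter fun x => a r x).card ≤ Fintype.card X ∨
      8 * (univ.filter fun y => b r y).card ≤ Fintype.card Y) : False := by
  set O1 : Finset Ω := univ.filter fun r => 4 * (univ.filter fun x => a r x).card ≤ Fintype.card X
    with hO1
  set O2 : Finset Ω := univ.filter fun r => ¬ 4 * (univ.filter fun x => a r x).card ≤
    Fintype.card X with hO2
  have hO : O1.card + O2.card = Fintype.card Ω := by
    rw [hO1, hO2, card_filter_add_card_filter_not, card_univ]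
  have hXpos : 0 < Fintype.card X := Fintype.card_pos
  have hYpos : 0 < Fintype.card Y := Fintype.card_pos
  have hΩpos : 0 < Fintype.card Ω := Fintype.card_pos
  -- first double counting
  have c1 : ∑ x : X, (univ.filter fun r => a r x).card = ∑ r : Ω, (univ.filter fun x => a r x).card := by
    simp only [card_filter]
    exact sum_comm
  have s1 : 3 * Fintype.card Ω * Fintype.card X ≤
      4 * ∑ r : Ω, (univ.filter fun x => a r x).card := by
    rw [← c1, mul_sum]
    calc 3 * Fintype.card Ω * Fintype.card X = ∑ _x : X, 3 * Fintype.card Ω := by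
          rw [sum_const, card_univ, smul_eq_mul]; ring
      _ ≤ _ := sum_le_sum fun x _ => h1 x
  have s2 : 4 * ∑ r : Ω, (univ.filter fun x => a r x).card ≤
      O1.card * Fintype.card X + 4 * (O2.card * Fintype.card X) := by
    have e : ∑ r : Ω, (univ.filter fun x => a r x).card =
        ∑ r ∈ O1, (univ.filter fun x => a r x).card +
        ∑ r ∈ O2, (univ.filter fun x => a r x).card := by
      rw [hO1, hO2, sum_filter_add_sum_filter_not]
    rw [e, mul_add]
    apply add_le_add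
    · rw [mul_sum]
      calc _ ≤ ∑ _r ∈ O1, Fintype.card X := sum_le_sum fun r hr => (mem_filter.1 hr).2
        _ = _ := by rw [sum_const, smul_eq_mul]
    · apply Nat.mul_le_mul_left
      calc _ ≤ ∑ _r ∈ O2, Fintype.card X := sum_le_sum fun r _ => card_le_univ _
        _ = _ := by rw [sum_const, smul_eq_mul]
  have t1 : 3 * Fintype.card Ω ≤ O1.card + 4 * O2.card := by
    have : 3 * Fintype.card Ω * Fintype.card X ≤ (O1.card + 4 * O2.card) * Fintype.card X := by
      calc _ ≤ _ := s1.trans s2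
        _ = _ := by ring
    exact Nat.le_of_mul_le_mul_right this hXpos
  -- second double counting
  set good : Finset Y := univ.filter fun y => y ∉ bad with hgood
  have hg : good.card + bad.card = Fintype.card Y := by
    have : bad = univ.filter fun y => ¬ y ∉ bad := by ext y; simp
    rw [this, hgood]
    rw [← this]
    have h := card_filter_add_card_filter_not (s := (univ : Finset Y)) (fun y => y ∉ bad)
    rw [← this] at h
    rw [h, card_univ]
  have c2 : ∑ y ∈ good, (univ.filter fun r => b r y).card =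
      ∑ r : Ω, (good.filter fun y => b r y).card := by
    simp only [card_filter]
    exact sum_comm
  have s3 : 3 * Fintype.card Ω * good.card ≤ 4 * ∑ r : Ω, (good.filter fun y => b r y).card := by
    rw [← c2, mul_sum]
    calc 3 * Fintype.card Ω * good.card = ∑ _y ∈ good, 3 * Fintype.card Ω := by
          rw [sum_const, smul_eq_mul]; ring
      _ ≤ _ := sum_le_sum fun y hy => h2 y (mem_filter.1 hy).2
  have s4 : 8 * ∑ r : Ω, (good.filter fun y => b r y).card ≤
      8 * (O1.card * good.card) + O2.card * Fintype.card Y := by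
    have e : ∑ r : Ω, (good.filter fun y => b r y).card =
        ∑ r ∈ O1, (good.filter fun y => b r y).card +
        ∑ r ∈ O2, (good.filter fun y => b r y).card := by
      rw [hO1, hO2, sum_filter_add_sum_filter_not]
    rw [e, mul_add]
    apply add_le_add
    · apply Nat.mul_le_mul_left
      calc _ ≤ ∑ _r ∈ O1, good.card := sum_le_sum fun r _ => card_filter_le _ _
        _ = _ := by rw [sum_const, smul_eq_mul]
    · rw [mul_sum]
      calc _ ≤ ∑ _r ∈ O2, Fintype.card Y := by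
            apply sum_le_sum
            intro r hr
            have h := (h4 r).resolve_left (mem_filter.1 hr).2
            refine le_trans (Nat.mul_le_mul_left _ (card_le_card ?_)) h
            intro y hy
            exact mem_filter.2 ⟨mem_univ _, (mem_filter.1 hy).2⟩
        _ = _ := by rw [sum_const, smul_eq_mul]
  -- 7 |Y| ≤ 8 |good|
  have hg7 : 7 * Fintype.card Y ≤ 8 * good.card := by omega
  have hgpos : 0 < good.card := by omega
  -- 3 Ω g ≤ 4 S, 8 S ≤ 8 O1 g + O2 Y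
  have t2 : 42 * Fintype.card Ω ≤ 56 * O1.card + 8 * O2.card := by
    have h5 : (42 * Fintype.card Ω) * good.card ≤ (56 * O1.card + 8 * O2.card) * good.card := by
      have h6 : 6 * Fintype.card Ω * good.card ≤ 8 * (O1.card * good.card) + O2.card * Fintype.card Y := by
        nlinarith [s3, s4]
      have h7 : 7 * (O2.card * Fintype.card Y) ≤ O2.card * (8 * good.card) := by
        calc 7 * (O2.card * Fintype.card Y) = O2.card * (7 * Fintype.card Y) := by ring
          _ ≤ _ := Nat.mul_le_mul_left _ hg7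
      nlinarith [h6, h7]
    exact Nat.le_of_mul_le_mul_right h5 hgpos
  omega

theorem mem_ein {U E Λ : Type} [Fintype U] [Fintype E] {G : CGraph U E Λ} {S : Finset U} {e : E} :
    e ∈ G.ein S ↔ G.src e ∈ S ∧ G.tgt e ∈ S := by
  simp [CGraph.ein]

/-- the edges of the constraint graph and `einφ` -/
theorem ein_le {n D p d : ℕ} (φ : Fin n → Fin D → Fin n) (B : Finset (Fin n))
    (s : Fin n → Fin D → ZMod p) (S : Finset (Fin n ⊕ Fin n)) :
    ((gameGraph (d := d) φ B s).ein S).card ≤ (einφ φ B S).card := by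
  apply card_le_card_of_injOn Subtype.val
  · intro e he
    have h := mem_ein.1 (mem_coe.1 he)
    exact mem_coe.2 (mem_filter.2 ⟨mem_univ _, e.2, h.2, h.1⟩)
  · exact Subtype.val_injective.injOn

theorem gameGraph_surj {n D p d : ℕ} (hd : 1 ≤ d) (φ : Fin n → Fin D → Fin n)
    (B : Finset (Fin n)) (s : Fin n → Fin D → ZMod p) :
    (gameGraph (d := d) φ B s).Surj := by
  constructor
  · intro e a
    refine ⟨(a.1 - s e.1.1 e.1.2, ⟨0, hd⟩), ?_⟩
    show a.1 - s e.1.1 e.1.2 - _ * (((⟨0, hd⟩ : Fin d) : ℕ) : ZMod p) + s e.1.1 e.1.2 = a.1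
    simp
  · intro e b
    exact ⟨(b.1 - ((e.1.2 : ℕ) : ZMod p) * (b.2 : ℕ) + s e.1.1 e.1.2, b.2), rfl⟩

theorem phi_inj {n D : ℕ} {φ : Fin n → Fin D → Fin n} {B : Finset (Fin n)}
    (h : ∀ S : Finset (Fin n ⊕ Fin n), S.Nonempty → S.card ≤ 2 → (einφ φ B S).card < S.card) :
    ∀ w i j, w ∉ B → φ w i = φ w j → i = j := by
  intro w i j hw hij
  by_contra hne
  have h1 := h {Sum.inl (φ w i), Sum.inr w} (by simp) (card_le_two)
  have h2 : ({(w, i), (w, j)} : Finset (Fin n × Fin D)) ⊆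
      einφ φ B {Sum.inl (φ w i), Sum.inr w} := by
    intro e he
    rw [mem_insert, mem_singleton] at he
    rcases he with rfl | rfl
    · exact mem_filter.2 ⟨mem_univ _, hw, by simp, by simp⟩
    · exact mem_filter.2 ⟨mem_univ _, hw, by simp, by simp [hij]⟩
  have h3 := card_le_card h2
  have h4 : ({(w, i), (w, j)} : Finset (Fin n × Fin D)).card = 2 := by
    rw [card_pair]
    intro h5
    exact hne (Prod.mk.inj h5).2
  have h5 : ({Sum.inl (φ w i), Sum.inr w} : Finset (Fin n ⊕ Fin n)).card ≤ 2 := card_le_two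
  omega


theorem cube_lt : ∀ p : ℕ, 10 ≤ p → p ^ 3 < 2 ^ p := by
  intro p hp
  induction p, hp using Nat.le_induction with
  | base => norm_num
  | succ p hp ih =>
    have h1 : (p + 1) ^ 3 ≤ 2 * p ^ 3 := by
      have : 4 * p ^ 2 ≤ p ^ 3 := by nlinarith [sq_nonneg p]
      nlinarith [sq_nonneg p]
    calc (p + 1) ^ 3 ≤ 2 * p ^ 3 := h1
      _ < 2 * 2 ^ p := by omega
      _ = 2 ^ (p + 1) := by ring

/-- choice of the prime and of the degree -/
theorem choice_p (d k : ℕ) (hd : 2 ≤ d) : ∃ p D : ℕ, p.Prime ∧ 2 ^ k ≤ p ∧ D ≤ p ∧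
    d * p ^ 2 < 2 ^ D := by
  obtain ⟨p, hp, hpp⟩ := Nat.exists_infinite_primes (2 ^ k + d + 10)
  have hk0 : 0 < 2 ^ k := by positivity
  refine ⟨p, Nat.log 2 (d * p ^ 2) + 1, hpp, by omega, ?_, Nat.lt_pow_succ_log_self (by norm_num) _⟩
  have h1 : d * p ^ 2 < 2 ^ p := by
    calc d * p ^ 2 ≤ p * p ^ 2 := Nat.mul_le_mul_right _ (by omega)
      _ = p ^ 3 := by ring
      _ < 2 ^ p := cube_lt p (by omega)
  have h2 : Nat.log 2 (d * p ^ 2) < p := by
    apply Nat.log_lt_of_lt_pow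
    · have : 0 < p := hpp.pos
      positivity
    · exact h1
  omega

/-- the number of edges -/
theorem card_EE {n D : ℕ} (B : Finset (Fin n)) :
    Fintype.card (EE D B) = (n - B.card) * D := by
  rw [Fintype.card_subtype]
  have : (univ.filter fun e : Fin n × Fin D => e.1 ∉ B) = (univ \ B) ×ˢ (univ : Finset (Fin D)) := by
    ext ⟨w, i⟩
    simp
  rw [this, card_product, card_sdiff_of_subset (subset_univ _), card_univ, card_univ,
    Fintype.card_fin, Fintype.card_fin]

/-- a polynomial is eventually smaller than the exponential -/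
theorem pow_le_two_pow : ∃ L0 : ℕ, ∀ L : ℕ, L0 ≤ L → 16 * L ^ 28 ≤ 2 ^ L := by
  have h := tendsto_pow_const_div_const_pow_of_one_lt 28 (r := (2 : ℝ)) (by norm_num)
  have h1 := (h.eventually (gt_mem_nhds (show (0 : ℝ) < 1 / 16 by norm_num)))
  obtain ⟨L0, hL0⟩ := Filter.eventually_atTop.1 h1
  refine ⟨L0, fun L hL => ?_⟩
  have h2 := hL0 L hL
  rw [div_lt_div_iff₀ (by positivity) (by norm_num)] at h2
  have h3 : ((16 * L ^ 28 : ℕ) : ℝ) < ((2 ^ L : ℕ) : ℝ) := by
    push_cast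
    linarith
  exact (Nat.cast_lt.1 h3).le


/-- the lower bound for randomised circuits on a host, abstract form -/
theorem generic (hHO : S_HO) (hNC : S_NC) {U E Λ A : Type} [Fintype U] [Fintype E] [Fintype Λ]
    [Fintype A] [Nonempty A] (G : CGraph U E Λ) (L M Q : ℕ) (F : Local U Λ (2 * L))
    (hF : ∀ S ρ, F.C S ρ → G.SatOn S ρ) (hL : 2 ≤ L) (hM : 1 ≤ M) (hQ : 1 ≤ Q)
    (h1 : 64 * L * Q ≤ Fintype.card A)
    (h2 : 8 * (Fintype.card U * Fintype.card A * Fintype.card Λ ^ 2 * M ^ 2) ≤ Q ^ 2)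
    (h3 : 2 ^ L * (Fintype.card U * Fintype.card A * Fintype.card Λ + 1) ^ (2 * L) * 8 ≤ 2 ^ M)
    {I : Type} (inst : Finset (E × A × A) → I) (inp : Set (I → ℝ)) (hi : HostInputs inst inp)
    (Ω : Type) [Fintype Ω] [Nonempty Ω] (l : Ω → List (I → ℝ)) (hl : ∀ ω, Prog inp (l ω))
    (f : Ω → I → ℝ) (hf : ∀ ω, f ω ∈ l ω)
    (hno : ∀ x : U → A, 3 * Fintype.card Ω ≤ 4 * (univ.filter fun ω => 1 ≤ f ω (inst (hx G x))).card)
    (hyes : ∀ T : Finset ((U × A) × Λ), NoConflict T →
      3 * Fintype.card Ω ≤ 4 * (univ.filter fun ω => f ω (inst (hT G T)) < 1).card) :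
    ∃ ω, 2 ^ L ≤ (l ω).length := by
  by_contra hcon
  push Not at hcon
  have : NeZero Q := ⟨by omega⟩
  refine avg (Ω := Ω) (X := U → A) (Y := Smp (U × A) Λ M Q)
    (fun ω x => 1 ≤ f ω (inst (hx G x)))
    (fun ω y => f ω (inst (hT G (marked y))) < 1)
    (univ.filter fun y => ¬ NoConflict (marked y)) hno ?_ ?_ ?_
  · intro y hy
    apply hyes
    by_contra h0
    exact hy (mem_filter.2 ⟨mem_univ _, h0⟩)
  · have g1 : (univ.filter fun ω : Smp (U × A) Λ M Q => ¬ NoConflict (marked ω)).card * Q ^ 2 ≤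
        Fintype.card U * Fintype.card A * Fintype.card Λ ^ 2 * M ^ 2 *
          Fintype.card (Smp (U × A) Λ M Q) := by
      have g0 := hNC (U × A) Λ M Q hQ
      rw [Fintype.card_prod] at g0
      exact le_of_eq_of_le (congrArg (· * Q ^ 2) (cardFU _ _ _ _ _ _ fun _ => Iff.rfl))
        (g0.trans (le_of_eq (congrArg (Fintype.card U * Fintype.card A * Fintype.card Λ ^ 2 *
          M ^ 2 * ·) (cardFt _ _))))
    generalize Fintype.card (Smp (U × A) Λ M Q) = S at g1 ⊢
    generalize (univ.filter fun ω : Smp (U × A) Λ M Q => ¬ NoConflict (marked ω)).card = bad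
      at g1 ⊢
    have g2 : 8 * bad * Q ^ 2 ≤ S * Q ^ 2 := by
      calc 8 * bad * Q ^ 2 = 8 * (bad * Q ^ 2) := by ring
        _ ≤ 8 * (Fintype.card U * Fintype.card A * Fintype.card Λ ^ 2 * M ^ 2 * S) :=
            Nat.mul_le_mul_left _ g1
        _ = (8 * (Fintype.card U * Fintype.card A * Fintype.card Λ ^ 2 * M ^ 2)) * S := by ring
        _ ≤ Q ^ 2 * S := Nat.mul_le_mul_right _ h2
        _ = _ := by ring
    exact Nat.le_of_mul_le_mul_right g2 (by positivity)
  · intro ω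
    have hlen := hcon ω
    rcases hHO U E Λ A G L M Q F hF (by omega) hM hQ h1 I inst inp hi (l ω) (hl ω) (f ω) (hf ω) 1
      with g1 | g1
    · left
      generalize Fintype.card (U → A) = cX at g1 ⊢
      generalize (univ.filter fun x : U → A => 1 ≤ f ω (inst (hx G x))).card = c1 at g1 ⊢
      generalize (l ω).length = s at g1 hlen
      have g2 : 28 * s + 4 * 8 ^ L ≤ 7 * 8 ^ L := by
        have e1 : (8 : ℕ) ^ L = 2 ^ L * (2 ^ L * 2 ^ L) := by
          rw [← mul_pow, ← mul_pow]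
          norm_num
        have e2 : 4 ≤ 2 ^ L := by
          calc 4 = 2 ^ 2 := by norm_num
            _ ≤ 2 ^ L := Nat.pow_le_pow_right (by norm_num) hL
        have e3 : 16 * 2 ^ L ≤ 8 ^ L := by
          rw [e1]
          calc 16 * 2 ^ L = 2 ^ L * (4 * 4) := by ring
            _ ≤ 2 ^ L * (2 ^ L * 2 ^ L) := Nat.mul_le_mul_left _ (Nat.mul_le_mul e2 e2)
        omega
      have g3 : 7 * 8 ^ L * (4 * c1) ≤ 7 * 8 ^ L * cX := by
        calc 7 * 8 ^ L * (4 * c1) = 4 * (7 * 8 ^ L * c1) := by ring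
          _ ≤ 4 * ((7 * s + 8 ^ L) * cX) := Nat.mul_le_mul_left _ g1
          _ = (28 * s + 4 * 8 ^ L) * cX := by ring
          _ ≤ 7 * 8 ^ L * cX := Nat.mul_le_mul_right _ g2
      exact Nat.le_of_mul_le_mul_left g3 (by positivity)
    · right
      generalize Fintype.card (Smp (U × A) Λ M Q) = S at g1 ⊢
      generalize (univ.filter fun y : Smp (U × A) Λ M Q => f ω (inst (hT G (marked y))) < 1).card
        = c2 at g1 ⊢
      generalize (l ω).length = s at g1 hlen
      generalize (Fintype.card U * Fintype.card A * Fintype.card Λ + 1) ^ (2 * L) = W at g1 h3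
      have g2 : s * W * 8 ≤ 2 ^ M :=
        le_trans (Nat.mul_le_mul_right _ (Nat.mul_le_mul_right _ hlen.le)) h3
      have g4 : 8 * c2 * 2 ^ M ≤ S * 2 ^ M := by
        calc 8 * c2 * 2 ^ M = 8 * (c2 * 2 ^ M) := by ring
          _ ≤ 8 * (s * (W * S)) := Nat.mul_le_mul_left _ g1
          _ = (s * W * 8) * S := by ring
          _ ≤ 2 ^ M * S := Nat.mul_le_mul_right _ g2
          _ = _ := by ring
      exact Nat.le_of_mul_le_mul_right g4 (by positivity)

/-- the third numerical condition -/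
theorem num3 (L q n m M : ℕ) (hL : 1 ≤ L) (hq : 1 ≤ q) (hqL : 1024 * q ^ 2 ≤ L)
    (hn : n = L ^ 3) (hm : m = 64 * L ^ 10) (hM : M = L ^ 2) (hL0 : 16 * L ^ 28 ≤ 2 ^ L) :
    2 ^ L * (2 * n * m * q + 1) ^ (2 * L) * 8 ≤ 2 ^ M := by
  have h2 : 2 * n * m * q + 1 ≤ L ^ 14 := by
    have e1 : 2 * n * m * q = 128 * q * L ^ 13 := by rw [hn, hm]; ring
    have e2 : 1 ≤ q * L ^ 13 := Nat.mul_pos hq (by positivity)
    have e3 : 129 * q ≤ L := by
      have : q ≤ q ^ 2 := Nat.le_self_pow (by norm_num) q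
      omega
    calc 2 * n * m * q + 1 = 128 * (q * L ^ 13) + 1 := by rw [e1]; ring
      _ ≤ 129 * (q * L ^ 13) := by omega
      _ = 129 * q * L ^ 13 := by ring
      _ ≤ L * L ^ 13 := Nat.mul_le_mul_right _ e3
      _ = L ^ 14 := by ring
  have e8 : (8 : ℕ) ≤ 8 ^ L := Nat.le_self_pow (by omega) 8
  calc 2 ^ L * (2 * n * m * q + 1) ^ (2 * L) * 8
      ≤ 2 ^ L * (L ^ 14) ^ (2 * L) * 8 ^ L :=
        Nat.mul_le_mul (Nat.mul_le_mul_left _ (Nat.pow_le_pow_left h2 _)) e8
    _ = (16 * L ^ 28) ^ L := by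
        have a1 : (16 : ℕ) ^ L = 2 ^ L * 8 ^ L := by rw [← mul_pow]; norm_num
        have a2 : (L ^ 14) ^ (2 * L) = (L ^ 28) ^ L := by rw [← pow_mul, ← pow_mul]; ring_nf
        rw [mul_pow, a1, a2]
        ring
    _ ≤ (2 ^ L) ^ L := Nat.pow_le_pow_left hL0 L
    _ = 2 ^ M := by rw [hM, ← pow_mul, pow_two]

/-- the conditions on the size parameter -/
theorem main_L (hEX : S_EX) (hSH : S_SH) (hMX : S_MX) (hLO : S_LO) (hHO : S_HO) (hNC : S_NC)
    (d : ℕ) (hd : 2 ≤ d) (ε : ℝ) (hε : 0 < ε) :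
    ∃ R L1 : ℕ, 1 ≤ R ∧ ∀ L : ℕ, L1 ≤ L → ∀ N : ℕ, 64 * L ^ 13 + 1 ≤ N →
      ∀ (Ω : Type) [Fintype Ω] [Nonempty Ω] (l : Ω → List (DGame (Fin N) (Fin N) d R → ℝ)),
      (∀ ω, Prog (dInputs (Fin N) (Fin N) d R) (l ω)) → DDecides ε l →
      ∃ ω, 2 ^ L ≤ (l ω).length := by
  obtain ⟨p, D, hp, hkp, hDp, hD⟩ := choice_p d (Nat.ceil (8 / ε)) hd
  set k := Nat.ceil (8 / ε) with hk
  have hp1 : 1 ≤ p := hp.one_lt.le
  have : NeZero p := ⟨hp.pos.ne'⟩
  have : NeZero d := ⟨by omega⟩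
  set r := 2 * (d * p) + 4 with hr
  set h := 3 * r with hh
  have hD1 : 1 ≤ D := by
    by_contra h0
    have : D = 0 := by omega
    rw [this, pow_zero] at hD
    have : 1 ≤ d * p ^ 2 := Nat.mul_pos (by omega) (pow_pos hp.pos 2)
    omega
  obtain ⟨n0, hn0⟩ := hEX D (2 * h) r (by omega)
  obtain ⟨L0, hL0⟩ := pow_le_two_pow
  refine ⟨p, n0 + L0 + 64 * (h + 1) ^ 2 + 1024 * (d * p) ^ 2 + Nat.ceil (4 / ε) + 2, hp1, ?_⟩
  intro L hL N hN Ω _ _ l hl hdec
  have hL2 : 2 ≤ L := by omega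
  -- the graph
  obtain ⟨n, hn⟩ : ∃ n, n = L ^ 3 := ⟨_, rfl⟩
  obtain ⟨M, hM⟩ : ∃ M, M = L ^ 2 := ⟨_, rfl⟩
  obtain ⟨Q, hQ⟩ : ∃ Q, Q = L ^ 9 := ⟨_, rfl⟩
  obtain ⟨m, hm⟩ : ∃ m, m = 64 * L ^ 10 := ⟨_, rfl⟩
  have hLn : L ≤ n := by
    rw [hn]
    calc L = L ^ 1 := (pow_one L).symm
      _ ≤ L ^ 3 := Nat.pow_le_pow_right (by omega) (by norm_num)
  obtain ⟨φ, B, hB, hsp, hgi⟩ := hn0 n (by omega)
  have hφ := phi_inj (fun S hS hS2 => hgi S hS (hS2.trans (by omega)))
  -- the number of edges and `K`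
  have hEE := card_EE (D := D) B
  have hE2 : n * D ≤ 2 * Fintype.card (EE D B) := by
    rw [hEE]
    calc n * D ≤ (2 * (n - B.card)) * D := Nat.mul_le_mul_right _ (by omega)
      _ = _ := by ring
  set EC := Fintype.card (EE D B) with hEC
  set K := Nat.ceil (ε * EC / 2) with hK
  have hECr : (2 : ℝ) / ε ≤ EC := by
    have h1 : (4 / ε : ℝ) ≤ L := (Nat.le_ceil _).trans (Nat.cast_le.2 (by omega))
    have h2 : n ≤ 2 * EC := (Nat.le_mul_of_pos_right n hD1).trans hE2
    have h3 : (L : ℝ) ≤ 2 * EC := by exact_mod_cast hLn.trans h2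
    have h4 : (4 / ε : ℝ) = 2 * (2 / ε) := by ring
    linarith
  have hKlt : (K : ℝ) < ε * ((EC : ℝ) + 1) := by
    have h1 : (K : ℝ) < ε * EC / 2 + 1 := Nat.ceil_lt_add_one (by positivity)
    have h2 : 2 ≤ EC * ε := (div_le_iff₀ hε).1 hECr
    nlinarith
  have hpK : (d * p ^ 2) ^ n * 2 ^ (D * n) < p ^ K := by
    have h1 : 2 * (D * n) ≤ k * K := by
      have h2 : (8 / ε : ℝ) ≤ k := Nat.le_ceil _
      have h3 : ε * EC / 2 ≤ (K : ℝ) := Nat.le_ceil _
      have h4 : (4 * EC : ℝ) ≤ k * K := by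
        calc (4 * EC : ℝ) = (8 / ε) * (ε * EC / 2) := by field_simp; ring
          _ ≤ k * K := mul_le_mul h2 h3 (by positivity) (by positivity)
      have h5 : (4 * EC : ℕ) ≤ k * K := by exact_mod_cast h4
      calc 2 * (D * n) = 2 * (n * D) := by ring
        _ ≤ 2 * (2 * EC) := Nat.mul_le_mul_left _ hE2
        _ = 4 * EC := by ring
        _ ≤ _ := h5
    have hn1 : n ≠ 0 := by omega
    calc (d * p ^ 2) ^ n * 2 ^ (D * n) < (2 ^ D) ^ n * 2 ^ (D * n) := by
          apply Nat.mul_lt_mul_of_pos_right _ (by positivity)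
          exact Nat.pow_lt_pow_left hD hn1
      _ = 2 ^ (2 * (D * n)) := by rw [← pow_mul, two_mul, pow_add]
      _ ≤ 2 ^ (k * K) := Nat.pow_le_pow_right (by norm_num) h1
      _ = (2 ^ k) ^ K := by rw [pow_mul]
      _ ≤ p ^ K := Nat.pow_le_pow_left hkp K
  obtain ⟨s, hs⟩ := hSH n D p d K hp1 φ B hpK
  -- local consistency
  set G := gameGraph (d := d) φ B s with hG
  have hGgirth : G.Girth r := fun S hS hSr => lt_of_le_of_lt (ein_le φ B s S) (hgi S hS hSr)
  have hGsparse : G.Sparse (2 * h) (8 * (h + 1) * L) := by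
    intro S hS
    refine (ein_le φ B s S).trans (hsp S ?_)
    calc S.card ^ 2 ≤ (8 * (h + 1) * L) ^ 2 := Nat.pow_le_pow_left hS 2
      _ = (64 * (h + 1) ^ 2) * L ^ 2 := by ring
      _ ≤ L * L ^ 2 := Nat.mul_le_mul_right _ (by omega)
      _ = n := by rw [hn]; ring
  obtain ⟨F, hF⟩ := hLO _ _ _ G r h (8 * (h + 1) * L) (2 * L) (by omega) le_rfl
    (gameGraph_surj (by omega) φ B s) (hMX n D p d hp hDp hd φ B s) hGgirth hGsparse
    (by ring_nf; exact le_rfl)
  -- parameters of the approximation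
  set q := d * p with hq
  have hmpos : 0 < m := by rw [hm]; positivity
  have : NeZero m := ⟨hmpos.ne'⟩
  have hcardV : Fintype.card (Option (Fin n × Fin m)) ≤ Fintype.card (Fin N) := by
    rw [Fintype.card_option, Fintype.card_prod, Fintype.card_fin, Fintype.card_fin,
      Fintype.card_fin]
    calc n * m + 1 = 64 * L ^ 13 + 1 := by rw [hn, hm]; ring
      _ ≤ N := hN
  obtain ⟨ιV⟩ := Function.Embedding.nonempty_of_card_le hcardV
  obtain ⟨f, hf, hI⟩ := hdec
  have hcardΛ : Fintype.card (ZMod p × Fin d) = q := by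
    rw [Fintype.card_prod, ZMod.card, Fintype.card_fin, mul_comm]
  have hcardU : Fintype.card (Fin n ⊕ Fin n) = 2 * n := by
    rw [Fintype.card_sum, Fintype.card_fin]; ring
  have hQ1 : 1 ≤ Q := by rw [hQ]; exact Nat.one_le_pow _ _ (by omega)
  have hM1 : 1 ≤ M := by rw [hM]; exact Nat.one_le_pow _ _ (by omega)
  have hq1 : 1 ≤ q := Nat.mul_pos (by omega) hp.pos
  have hqL : 1024 * q ^ 2 ≤ L := by omega
  refine generic hHO hNC G L M Q F hF hL2 hM1 hQ1 ?_ ?_ ?_ (hostInst φ B s ιV ιV d)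
    (dInputs (Fin N) (Fin N) d p) (hostInputs hφ) Ω l hl f hf ?_ ?_
  · rw [Fintype.card_fin, hm, hQ]
    apply le_of_eq
    ring
  · rw [hcardU, Fintype.card_fin, hcardΛ]
    calc 8 * (2 * n * m * q ^ 2 * M ^ 2) = (1024 * q ^ 2) * L ^ 17 := by rw [hn, hm, hM]; ring
      _ ≤ L * L ^ 17 := Nat.mul_le_mul_right _ hqL
      _ = Q ^ 2 := by rw [hQ]; ring
  · rw [hcardU, Fintype.card_fin, hcardΛ]
    exact num3 L q n m M (by omega) hq1 hqL hn hm hM (hL0 L (by omega))
  · intro x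
    exact (hI _).1 (host_no hφ ε K hKlt hs x)
  · intro T hT0
    exact (hI _).2 (host_yes hφ T hT0)

end H589DT
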