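import Pool.Agent.H589R3.DT.Props
import Pool.Agent.H630VC.Rounds
import Pool.Agent.H589R3.DT.Sub

/-! # A closed level function has few critical sets of each size -/

open scoped Classical
open Finset

namespace H589DT

open H630VC (Prog marked)

theorem t_CC : S_CC := by
  intro P Λ _ _ l C M Q hl hQ lam hc j hj
  unfold ClosedLev at hc
  by_contra hcon
  push Not at hcon
  set K : ℕ := 4 * l * Q with hK
  have hK1 : 1 ≤ K := by
    rw [hK]
    have : 0 < 4 * l * Q := by positivity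
    exact this
  set M0 : Finset (Finset P) := univ.filter fun α : Finset P => CritSet C lam α ∧ α.card = j
    with hM0
  let F : Finset P → Finset (Finset P) := fun Z => M0.filter fun α => Z ⊆ α
  obtain ⟨Z, -, hmax⟩ := Finset.exists_max_image (univ : Finset (Finset P))
    (fun Z => (F Z).card * K ^ Z.card) ⟨∅, mem_univ _⟩
  have hF0 : F ∅ = M0 := Finset.filter_true_of_mem fun r _ => empty_subset _
  set G : Finset (Finset P) := F Z with hG
  have hbig : K ^ j < G.card * K ^ Z.card := by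
    have h := hmax ∅ (mem_univ _)
    simp only [hF0, card_empty, pow_zero, mul_one] at h
    exact hcon.trans_le h
  have hmemG : ∀ α ∈ G, CritSet C lam α ∧ α.card = j ∧ Z ⊆ α := by
    intro r hr
    have h1 := Finset.mem_filter.1 hr
    have h2 := Finset.mem_filter.1 h1.1
    exact ⟨h2.2.1, h2.2.2, h1.2⟩
  have hne : G.Nonempty := by
    rw [Finset.nonempty_iff_ne_empty]
    intro h
    rw [h, card_empty, zero_mul] at hbig
    omega
  obtain ⟨r1, hr1⟩ := hne
  have hZj : Z.card ≤ j := by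
    have h := hmemG r1 hr1
    rw [← h.2.1]
    exact card_le_card h.2.2
  have hG2 : 1 < G.card := by
    by_contra h
    push Not at h
    have h1 : G.card * K ^ Z.card ≤ 1 * K ^ j :=
      Nat.mul_le_mul h (Nat.pow_le_pow_right hK1 hZj)
    omega
  have hZlt : Z.card < j := by
    refine lt_of_le_of_ne hZj fun hZ => ?_
    have huniq : ∀ r ∈ G, Z = r := by
      intro r hr
      have h := hmemG r hr
      exact Finset.eq_of_subset_of_card_le h.2.2 (by rw [h.2.1, hZ])
    obtain ⟨a, ha, b, hb, hab⟩ := Finset.one_lt_card.1 hG2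
    exact hab ((huniq a ha).symm.trans (huniq b hb))
  have hθ : ∀ α ∈ G, ∃ θ : ℝ, Lev C lam α θ ∧ ∀ α', α' ⊂ α → ¬ Lev C lam α' θ :=
    fun α hα => (hmemG α hα).1
  choose! θ hθ1 hθ2 using hθ
  obtain ⟨α0, hα0, hmin⟩ := Finset.exists_min_image G θ ⟨r1, hr1⟩
  have hlev : ∀ α ∈ G, Lev C lam α (θ α0) := fun α hα β hβ =>
    (hmin α hα).trans (hθ1 α hα β hβ)
  have hZα0 : Z ⊂ α0 := by
    refine (Finset.ssubset_iff_subset_ne).2 ⟨(hmemG α0 hα0).2.2, ?_⟩
    rintro rfl
    have := (hmemG _ hα0).2.1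
    omega
  have hnot := hθ2 α0 hα0 Z hZα0
  unfold Lev at hnot
  push Not at hnot
  obtain ⟨β0, hβ0, hβ0lt⟩ := hnot
  have hext : ∀ α ∈ G, ∃ β', β0.1 ⊆ β' ∧ C.Cons β' ∧ pos β' = α := by
    intro α hα
    have h := hmemG α hα
    exact C.ext β0.1 α β0.2 (by rw [hβ0]; exact h.2.2) (by rw [h.2.1]; exact hj)
  choose! βf hb1 hb2 hb3 using hext
  have hcardβ : ∀ α ∈ G, (βf α).card = j := by
    intro α hα
    rw [C.card_pos _ (hb2 α hα), hb3 α hα, (hmemG α hα).2.1]
  have hcard0 : β0.1.card = Z.card := by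
    rw [C.card_pos _ β0.2, hβ0]
  have hcardS : ∀ α ∈ G, (βf α \ β0.1).card = j - Z.card := by
    intro α hα
    rw [card_sdiff_of_subset (hb1 α hα), hcardβ α hα, hcard0]
  have hinj : ∀ β, C.Cons β → Set.InjOn Prod.fst (β : Set (P × Λ)) := by
    intro β hβ
    have := C.card_pos β hβ
    exact Finset.card_image_iff.1 this.symm
  -- the spread hypothesis
  have hspread : ∀ Y : Finset (P × Λ),
      (G.filter fun α => Y ⊆ βf α \ β0.1).card * (4 * l * Q) ^ Y.card ≤ G.card := by
    intro Y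
    set H := G.filter fun α => Y ⊆ βf α \ β0.1 with hH
    rcases H.eq_empty_or_nonempty with h0 | ⟨α2, hα2⟩
    · rw [h0, card_empty, zero_mul]
      exact Nat.zero_le _
    obtain ⟨hα2G, hYα2⟩ := Finset.mem_filter.1 hα2
    have hYβ : Y ⊆ βf α2 := fun q hq => (mem_sdiff.1 (hYα2 hq)).1
    have hconsY : C.Cons Y := C.mono Y (βf α2) hYβ (hb2 α2 hα2G)
    have hposY : (pos Y).card = Y.card := (C.card_pos Y hconsY).symm
    have hdisj : Disjoint Z (pos Y) := by
      rw [Finset.disjoint_left]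
      intro p hpZ hpY
      obtain ⟨q, hq, rfl⟩ := mem_image.1 hpY
      rw [← hβ0] at hpZ
      obtain ⟨q', hq', hqq⟩ := mem_image.1 hpZ
      have h1 : q' = q := hinj _ (hb2 α2 hα2G) (mem_coe.2 (hb1 α2 hα2G hq'))
        (mem_coe.2 (hYβ hq)) hqq
      subst h1
      exact (mem_sdiff.1 (hYα2 hq)).2 hq'
    have hZY : (Z ∪ pos Y).card = Z.card + Y.card := by
      rw [card_union_of_disjoint hdisj, hposY]
    have h1 : H ⊆ F (Z ∪ pos Y) := by
      intro α hα
      obtain ⟨h2, h3⟩ := Finset.mem_filter.1 hα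
      obtain ⟨h4, h5⟩ := Finset.mem_filter.1 h2
      refine Finset.mem_filter.2 ⟨h4, union_subset h5 ?_⟩
      intro p hp
      obtain ⟨q, hq, rfl⟩ := mem_image.1 hp
      rw [← hb3 α h2]
      exact mem_image_of_mem _ (mem_sdiff.1 (h3 hq)).1
    have h2 := hmax (Z ∪ pos Y) (mem_univ _)
    simp only [hZY, pow_add] at h2
    have h4 : (H.card * K ^ Y.card) * K ^ Z.card ≤ G.card * K ^ Z.card := by
      calc _ = H.card * (K ^ Z.card * K ^ Y.card) := by ring
        _ ≤ (F (Z ∪ pos Y)).card * (K ^ Z.card * K ^ Y.card) :=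
          Nat.mul_le_mul_right _ (card_le_card h1)
        _ ≤ _ := h2
    exact Nat.le_of_mul_le_mul_right h4 (by positivity)
  have hrounds := H630VC.all_rounds G (fun α => βf α \ β0.1) (j - Z.card) l M Q hl hQ (by omega)
    ⟨r1, hr1⟩ hcardS (fun Y => by
      have h := hspread Y
      exact le_of_eq_of_le (congrArg (· * (4 * l * Q) ^ Y.card)
        (cardF _ _ _ _ _ fun _ => Iff.rfl)) h)
  have hr2 : (univ.filter fun ω : Smp P Λ M Q => ∀ α ∈ G, ¬ βf α \ β0.1 ⊆ marked ω).card * 2 ^ M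
      ≤ Fintype.card (Smp P Λ M Q) := by
    exact le_of_eq_of_le (congrArg (· * 2 ^ M) (cardFU _ _ _ _ _ _ fun _ => Iff.rfl))
      (hrounds.trans (le_of_eq (cardFt _ _)))
  have hle : θ α0 ≤ lam β0 := by
    refine hc β0 (θ α0) ?_
    refine le_trans (Nat.mul_le_mul_right _ (card_le_card ?_)) hr2
    intro ω hω
    rw [mem_filter] at hω ⊢
    refine ⟨mem_univ _, fun α hα hS => hω.2 ⟨⟨βf α, hb2 α hα⟩, ?_, hlev α hα _ (hb3 α hα)⟩⟩
    intro q hq
    by_cases h : q ∈ β0.1
    · exact mem_union_left _ h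
    · exact mem_union_right _ (hS (mem_sdiff.2 ⟨hq, h⟩))
  linarith

end H589DT
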