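import Pool.Agent.H589R3.DT.Props

/-! # Task CL (helper1): every small set is contained in a small closed set -/

open scoped Classical
open Finset

namespace H589DT

theorem t_CL : S_CL := by
  intro U E Λ _ _ G h w hh hsp S hS
  -- maximise the potential
  obtain ⟨X, hX, hmax⟩ := Finset.exists_max_image
    ((univ : Finset (Finset U)).filter fun X => S ⊆ X ∧ X.card ≤ w)
    (fun X => (h : ℤ) * ((G.ein X).card : ℤ) - ((h : ℤ) + 1) * (X.card : ℤ))
    ⟨S, by
      simp only [mem_filter, mem_univ, true_and]
      refine ⟨Subset.rfl, ?_⟩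
      nlinarith⟩
  simp only [mem_filter, mem_univ, true_and] at hX hmax
  refine ⟨X, hX.1, ?_, ?_⟩
  · have h1 := hmax S ⟨Subset.rfl, by nlinarith⟩
    have h2 := hsp X hX.2
    have h3 : 2 * h * (X.card / (2 * h)) ≤ X.card := Nat.mul_div_le _ _
    have h4 : 2 * h * (G.ein X).card ≤ 2 * h * X.card + X.card := by nlinarith
    have h5 : (0 : ℤ) ≤ (h : ℤ) * ((G.ein S).card : ℤ) := by positivity
    zify at h4 ⊢
    nlinarith
  · intro Z hdis hZ
    have h1 := hmax (X ∪ Z) ⟨hX.1.trans subset_union_left, by
      rw [card_union_of_disjoint hdis]; exact hZ⟩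
    rw [card_union_of_disjoint hdis] at h1
    push_cast at h1
    have h2 : h * (G.ein (X ∪ Z)).card ≤ h * (G.ein X).card + (h + 1) * Z.card := by
      zify
      nlinarith
    have h3 : (G.ein X).card ≤ (G.ein (X ∪ Z)).card := by
      apply card_le_card
      intro e he
      simp only [CGraph.ein, mem_filter, mem_univ, true_and, mem_union] at he ⊢
      exact ⟨Or.inl he.1, Or.inl he.2⟩
    have h4 : (G.ein (X ∪ Z)).card - (G.ein X).card - Z.card ≤ Z.card / h := by
      rw [Nat.le_div_iff_mul_le (by omega)]
      zify at h2 h3 ⊢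
      by_cases h5 : Z.card ≤ (G.ein (X ∪ Z)).card - (G.ein X).card
      · rw [Nat.cast_sub h5, Nat.cast_sub (by exact_mod_cast h3)]
        nlinarith
      · have h6 : (G.ein (X ∪ Z)).card - (G.ein X).card - Z.card = 0 := by omega
        rw [h6]
        simp
    omega

end H589DT
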