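import Pool.Agent.H589R3.DT.Props

open scoped Classical
open Finset

namespace H589DT

private theorem co_mem_pos {P Λ : Type} (β : Finset (P × Λ)) (p : P) :
    p ∈ pos β ↔ ∃ q ∈ β, q.1 = p := by
  unfold pos; exact mem_image

private theorem co_card_pos {P Λ : Type} (β : Finset (P × Λ))
    (h : ∀ x ∈ β, ∀ y ∈ β, x.1 = y.1 → x = y) : β.card = (pos β).card := by
  unfold pos
  exact (Finset.card_image_of_injOn (fun x hx y hy hxy => h x hx y hy hxy)).symm

theorem t_CO : S_CO := by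
  intro U Λ A l F
  refine ⟨{ Cons := fun β => β.card ≤ l ∧ ∃ ρ, F.C (β.image fun q => q.1.1) ρ ∧
              ∀ q ∈ β, q.2 = ρ q.1.1
            card_pos := ?_
            card_le := fun β h => h.1
            empty := ?_
            mono := ?_
            ext := ?_ }, fun β h => h.2⟩
  · rintro β ⟨-, ρ, -, h⟩
    refine co_card_pos β ?_
    intro x hx y hy hxy'
    refine Prod.ext hxy' ?_
    rw [h x hx, h y hy, hxy']
  · obtain ⟨ρ, hρ⟩ := F.empty
    exact ⟨by simp, ρ, by simpa using hρ, by simp⟩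
  · rintro β β' hs ⟨hc, ρ, hρ, h⟩
    exact ⟨(card_le_card hs).trans hc, ρ, F.mono _ _ _ (image_subset_image hs) hρ,
      fun q hq => h q (hs hq)⟩
  · rintro β α ⟨hc, ρ, hρ, h⟩ hα hl
    have hsub : (β.image fun q => q.1.1) ⊆ α.image Prod.fst := by
      intro u hu
      obtain ⟨q, hq, rfl⟩ := mem_image.1 hu
      exact mem_image_of_mem _ (hα ((co_mem_pos β _).2 ⟨q, hq, rfl⟩))
    obtain ⟨ρ', h1, h2⟩ := F.ext _ _ ρ hsub (card_image_le.trans hl) hρ
    have hdom : ((α.image fun p => (p, ρ' p.1)).image fun q => q.1.1) = α.image Prod.fst := by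
      rw [image_image]; rfl
    refine ⟨α.image fun p => (p, ρ' p.1), ?_, ⟨card_image_le.trans hl, ρ', ?_, ?_⟩, ?_⟩
    · intro q hq
      refine mem_image.2 ⟨q.1, hα ((co_mem_pos β _).2 ⟨q, hq, rfl⟩), ?_⟩
      refine Prod.ext rfl ?_
      show ρ' q.1.1 = q.2
      rw [h1 q.1.1 (mem_image_of_mem (fun q : (U × A) × Λ => q.1.1) hq), ← h q hq]
    · rw [hdom]; exact h2
    · intro q hq
      obtain ⟨p, hp, rfl⟩ := mem_image.1 hq
      rfl
    · ext p
      rw [co_mem_pos]
      constructor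
      · rintro ⟨q, hq, rfl⟩
        obtain ⟨p', hp', rfl⟩ := mem_image.1 hq
        exact hp'
      · intro hp
        exact ⟨(p, ρ' p.1), mem_image.2 ⟨p, hp, rfl⟩, rfl⟩
end H589DT
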