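import Pool.Agent.H589R3.DT.Props

/-! # Tasks CT, TR (helper1): the number of consistent sets, transversals through a set -/

open scoped Classical
open Finset

namespace H589DT

theorem t_CT : S_CT := by
  intro P Λ _ _ l C
  have h : Fintype.card C.T ≤ Fintype.card (Fin l → Option (P × Λ)) := by
    refine Fintype.card_le_of_injective (fun β i => β.1.toList[(i : ℕ)]?) ?_
    intro β β' hbb
    apply Subtype.ext
    have key : ∀ β : C.T, ∀ q, q ∈ β.1 ↔ ∃ i : Fin l, β.1.toList[(i : ℕ)]? = some q := by
      intro β q
      rw [← Finset.mem_toList, List.mem_iff_getElem?]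
      constructor
      · rintro ⟨i, hi⟩
        have h1 : i < β.1.toList.length := (List.getElem?_eq_some_iff.1 hi).1
        rw [Finset.length_toList] at h1
        exact ⟨⟨i, h1.trans_le (C.card_le β.1 β.2)⟩, hi⟩
      · rintro ⟨i, hi⟩
        exact ⟨i, hi⟩
    ext q
    rw [key β q, key β' q]
    have h1 : ∀ i : Fin l, β.1.toList[(i : ℕ)]? = β'.1.toList[(i : ℕ)]? := fun i =>
      congrFun hbb i
    simp only [h1]
  refine h.trans (le_of_eq ?_)
  rw [Fintype.card_fun, Fintype.card_option, Fintype.card_prod, Fintype.card_fin]

theorem t_TR : S_TR := by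
  intro U A _ _ α
  rcases (univ.filter fun x : U → A => α ⊆ univ.image fun u => (u, x u)).eq_empty_or_nonempty
    with h0 | ⟨x0, hx0⟩
  · rw [h0, card_empty, zero_mul]
    exact Nat.zero_le _
  simp only [mem_filter, mem_univ, true_and] at hx0
  have hval : ∀ x : U → A, α ⊆ (univ.image fun u => (u, x u)) → ∀ q ∈ α, x q.1 = q.2 := by
    intro x hx q hq
    have := hx hq
    simp only [mem_image, mem_univ, true_and] at this
    obtain ⟨u, hu⟩ := this
    rw [← hu]
  obtain ⟨S, hS⟩ : ∃ S : Finset U, S = α.image Prod.fst := ⟨_, rfl⟩
  have hcard : α.card = S.card := by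
    rw [hS]
    refine (card_image_of_injOn ?_).symm
    intro q hq q' hq' h
    have h1 := hval x0 hx0 q hq
    have h2 := hval x0 hx0 q' hq'
    exact Prod.ext h (by rw [← h1, ← h2, h])
  have hle : (univ.filter fun x : U → A => α ⊆ univ.image fun u => (u, x u)).card ≤
      (Fintype.piFinset fun u => if u ∈ S then {x0 u} else (univ : Finset A)).card := by
    apply card_le_card
    intro x hx
    simp only [mem_filter, mem_univ, true_and] at hx
    rw [Fintype.mem_piFinset]
    intro u
    by_cases hu : u ∈ S
    · rw [if_pos hu, mem_singleton]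
      rw [hS, mem_image] at hu
      obtain ⟨q, hq, rfl⟩ := hu
      rw [hval x hx q hq, hval x0 hx0 q hq]
    · rw [if_neg hu]
      exact mem_univ _
  have hpi : (Fintype.piFinset fun u => if u ∈ S then {x0 u} else (univ : Finset A)).card =
      Fintype.card A ^ (univ \ S).card := by
    rw [Fintype.card_piFinset]
    have h1 : ∀ u, (if u ∈ S then {x0 u} else (univ : Finset A)).card =
        if u ∈ S then 1 else Fintype.card A := by
      intro u
      split_ifs
      · exact card_singleton _
      · rfl
    simp only [h1]
    rw [Finset.prod_ite, Finset.prod_const_one, one_mul, Finset.prod_const]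
    congr 2
    ext u
    simp
  rw [hpi] at hle
  calc _ ≤ Fintype.card A ^ (univ \ S).card * Fintype.card A ^ α.card :=
        Nat.mul_le_mul_right _ hle
    _ = Fintype.card A ^ ((univ \ S).card + S.card) := by rw [hcard, pow_add]
    _ = Fintype.card (U → A) := by
        rw [card_sdiff_add_card_eq_card (subset_univ S), Fintype.card_fun, card_univ]

end H589DT
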