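import Mathlib
import Pool.Agent.H630VC.Model
import Pool.Agent.H630VC.Defs

/-!
# Local consistency and circuits of monotone real gates for d-to-1 games: definitions

Part 1: constraint graphs.  Part 2: the approximation method.  Part 3: the games.
-/

open scoped Classical
open Finset

namespace H589DT

/-! ## Part 1: constraint graphs -/

/-- a constraint graph: the edge `e` joins `src e` and `tgt e`; the constraint on `e` is a relation
between the labels of the two ends (parallel edges are allowed) -/
structure CGraph (U E Λ : Type) where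
  /-- first end -/
  src : E → U
  /-- second end -/
  tgt : E → U
  /-- no loops -/
  ne : ∀ e, src e ≠ tgt e
  /-- the constraint -/
  rel : E → Λ → Λ → Prop

namespace CGraph

variable {U E Λ : Type} [Fintype U] [Fintype E]

/-- the edges inside a set of vertices -/
noncomputable def ein (G : CGraph U E Λ) (S : Finset U) : Finset E :=
  univ.filter fun e => G.src e ∈ S ∧ G.tgt e ∈ S

/-- the edge `e` has the end `u` -/
def Inc (G : CGraph U E Λ) (e : E) (u : U) : Prop := G.src e = u ∨ G.tgt e = u

/-- the edge `e` joins `u` and `v` -/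
def Joins (G : CGraph U E Λ) (e : E) (u v : U) : Prop :=
  (G.src e = u ∧ G.tgt e = v) ∨ (G.src e = v ∧ G.tgt e = u)

/-- the labelling satisfies the constraint `e` -/
def SatE (G : CGraph U E Λ) (ρ : U → Λ) (e : E) : Prop := G.rel e (ρ (G.src e)) (ρ (G.tgt e))

/-- the labelling satisfies all constraints inside `S` -/
def SatOn (G : CGraph U E Λ) (S : Finset U) (ρ : U → Λ) : Prop := ∀ e ∈ G.ein S, G.SatE ρ e

/-- every label of one end of an edge is compatible with some label of the other end -/
def Surj (G : CGraph U E Λ) : Prop := (∀ e a, ∃ b, G.rel e a b) ∧ ∀ e b, ∃ a, G.rel e a b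

/-- the labels of the ends of a nonbacktracking walk with `r` inner vertices are independent -/
def Mixing (G : CGraph U E Λ) (r : ℕ) : Prop :=
  ∀ (u : ℕ → U) (e : ℕ → E), (∀ k ≤ r, G.Joins (e k) (u k) (u (k + 1))) →
    (∀ k < r, e k ≠ e (k + 1)) → ∀ a b : Λ, ∃ c : ℕ → Λ, c 0 = a ∧ c (r + 1) = b ∧
      ∀ k ≤ r, (G.src (e k) = u k → G.rel (e k) (c k) (c (k + 1))) ∧
        (G.src (e k) = u (k + 1) → G.rel (e k) (c (k + 1)) (c k))

/-- sets of at most `g` vertices span forests -/
def Girth (G : CGraph U E Λ) (g : ℕ) : Prop :=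
  ∀ S : Finset U, S.Nonempty → S.card ≤ g → (G.ein S).card < S.card

/-- sets of at most `w` vertices span few edges -/
def Sparse (G : CGraph U E Λ) (h w : ℕ) : Prop :=
  ∀ S : Finset U, S.card ≤ w → (G.ein S).card ≤ S.card + S.card / h

/-- closed sets: adding few vertices adds few edges -/
def ClosedSet (G : CGraph U E Λ) (h w : ℕ) (X : Finset U) : Prop :=
  ∀ Z : Finset U, Disjoint X Z → X.card + Z.card ≤ w →
    (G.ein (X ∪ Z)).card ≤ (G.ein X).card + (Z.card + Z.card / h)

end CGraph

/-- a system of locally consistent labellings of the sets of at most `l` vertices -/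
structure Local (U Λ : Type) (l : ℕ) where
  /-- `C S ρ`: the restriction of `ρ` to `S` is consistent -/
  C : Finset U → (U → Λ) → Prop
  empty : ∃ ρ, C ∅ ρ
  mono : ∀ S T ρ, S ⊆ T → C T ρ → C S ρ
  ext : ∀ S T ρ, S ⊆ T → T.card ≤ l → C S ρ → ∃ ρ', (∀ u ∈ S, ρ' u = ρ u) ∧ C T ρ'

/-! ## Part 2: the approximation method -/

/-- the positions of a set of labelled positions -/
noncomputable def pos {P Λ : Type} (β : Finset (P × Λ)) : Finset P := β.image Prod.fst

/-- a system of consistent labellings of the sets of at most `l` positions -/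
structure ConsSystem (P Λ : Type) (l : ℕ) where
  /-- consistent sets of labelled positions -/
  Cons : Finset (P × Λ) → Prop
  card_pos : ∀ β, Cons β → β.card = (pos β).card
  card_le : ∀ β, Cons β → β.card ≤ l
  empty : Cons ∅
  mono : ∀ β β', β ⊆ β' → Cons β' → Cons β
  ext : ∀ β (α : Finset P), Cons β → pos β ⊆ α → α.card ≤ l → ∃ β', β ⊆ β' ∧ Cons β' ∧ pos β' = α

/-- the type of the consistent sets -/
abbrev ConsSystem.T {P Λ : Type} {l : ℕ} (C : ConsSystem P Λ l) : Type :=
  {β : Finset (P × Λ) // C.Cons β}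

section

variable {P Λ : Type} [Fintype P] [Fintype Λ] {l : ℕ}

noncomputable instance (C : ConsSystem P Λ l) : Fintype C.T := Subtype.fintype _

/-- the samples of the negative tests: in each of `M` rounds each labelled position is marked with
probability `1/Q` -/
abbrev Smp (P Λ : Type) (M Q : ℕ) : Type := H630VC.Om (P × Λ) M Q

/-- closed level functions -/
def ClosedLev (C : ConsSystem P Λ l) (M Q : ℕ) (lam : C.T → ℝ) : Prop :=
  ∀ (β0 : C.T) (θ : ℝ),
    (univ.filter fun ω : Smp P Λ M Q => ¬ ∃ β : C.T, β.1 ⊆ β0.1 ∪ H630VC.marked ω ∧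
      θ ≤ lam β).card * 2 ^ M ≤ Fintype.card (Smp P Λ M Q) → θ ≤ lam β0

/-- all consistent labellings of `α` have level at least `θ` -/
def Lev (C : ConsSystem P Λ l) (lam : C.T → ℝ) (α : Finset P) (θ : ℝ) : Prop :=
  ∀ β : C.T, pos β.1 = α → θ ≤ lam β

/-- critical sets of positions: some level is reached at `α` but at no proper subset -/
def CritSet (C : ConsSystem P Λ l) (lam : C.T → ℝ) (α : Finset P) : Prop :=
  ∃ θ : ℝ, Lev C lam α θ ∧ ∀ α', α' ⊂ α → ¬ Lev C lam α' θ

/-- the raw approximation property of a function with values `fp` on the positive tests and `fn` on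
the negative tests -/
def Raw (C : ConsSystem P Λ l) {X : Type} (M Q k : ℕ) (tr : X → Finset P)
    (badP : Finset X) (badN : Finset (Smp P Λ M Q)) (lam : C.T → ℝ) (fp : X → ℝ)
    (fn : Smp P Λ M Q → ℝ) : Prop :=
  (∀ x, x ∉ badP → ∃ α ⊆ tr x, α.card ≤ k ∧ Lev C lam α (fp x)) ∧
    ∀ ω, ω ∉ badN → ∀ β : C.T, β.1 ⊆ H630VC.marked ω → lam β ≤ fn ω

/-- the approximation property -/
def Approx (C : ConsSystem P Λ l) {X : Type} (M Q k : ℕ) (tr : X → Finset P)
    (badP : Finset X) (badN : Finset (Smp P Λ M Q)) (fp : X → ℝ) (fn : Smp P Λ M Q → ℝ) : Prop :=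
  ∃ lam : C.T → ℝ, ClosedLev C M Q lam ∧ Raw C M Q k tr badP badN lam fp fn

end

/-! ### Hosts -/

section

variable {U E Λ A : Type} [Fintype U] [Fintype E] [Fintype Λ] [Fintype A]

/-- the host constraints of the positive test `x`: a copy of the constraint graph -/
noncomputable def hx (G : CGraph U E Λ) (x : U → A) : Finset (E × A × A) :=
  univ.filter fun c => c.2.1 = x (G.src c.1) ∧ c.2.2 = x (G.tgt c.1)

/-- the host constraints satisfied by some labels of `T` -/
noncomputable def hT (G : CGraph U E Λ) (T : Finset ((U × A) × Λ)) : Finset (E × A × A) :=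
  univ.filter fun c => ∃ σ τ, ((G.src c.1, c.2.1), σ) ∈ T ∧ ((G.tgt c.1, c.2.2), τ) ∈ T ∧
    G.rel c.1 σ τ

/-- no position has two labels in `T` -/
def NoConflict {P Λ : Type} (T : Finset (P × Λ)) : Prop :=
  ∀ p σ τ, (p, σ) ∈ T → (p, τ) ∈ T → σ = τ

/-- the functions on instances that the circuits may use as inputs, seen through the embedding
`inst` of the sets of host constraints: on host instances they are constant or they tell whether
one given constraint is present -/
def HostInputs {I : Type} (inst : Finset (E × A × A) → I) (inp : Set (I → ℝ)) : Prop :=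
  ∀ g ∈ inp, (∃ c : ℝ, ∀ H, g (inst H) = c) ∨
    ∃ c : E × A × A, ∀ H, g (inst H) = if c ∈ H then 1 else 0

end

/-! ## Part 3: games -/

/-- the constraint graph on the vertices `Fin n ⊕ Fin n` given by `φ` and the shifts `s`: the
right vertex `w` has the edges `(w, i)`, `i < D`, unless `w ∈ B`; the edge `(w, i)` ends in the left
vertex `φ w i` and its constraint is `b.1 - i * b.2 + s w i = a.1` -/
def gameGraph {n D p d : ℕ} (φ : Fin n → Fin D → Fin n) (B : Finset (Fin n))
    (s : Fin n → Fin D → ZMod p) :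
    CGraph (Fin n ⊕ Fin n) {e : Fin n × Fin D // e.1 ∉ B} (ZMod p × Fin d) where
  src e := Sum.inl (φ e.1.1 e.1.2)
  tgt e := Sum.inr e.1.1
  ne e := Sum.inl_ne_inr
  rel e a b := b.1 - (e.1.2 : ℕ) * (b.2 : ℕ) + s e.1.1 e.1.2 = a.1

/-- the number of edges `(w, i)`, `w ∉ B`, with `inr w` and `inl (φ w i)` in `S` -/
noncomputable def einφ {n D : ℕ} (φ : Fin n → Fin D → Fin n) (B : Finset (Fin n))
    (S : Finset (Fin n ⊕ Fin n)) : Finset (Fin n × Fin D) :=
  univ.filter fun e => e.1 ∉ B ∧ Sum.inr e.1 ∈ S ∧ Sum.inl (φ e.1 e.2) ∈ S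

end H589DT
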