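import Pool.Agent.H589R3.DT.Props

/-! # EX: sparse bipartite graphs with right degree `D` (first moment method) -/

open scoped Classical
open Finset

namespace H589DT

namespace EXaux

/-- the maps with at least `k` edges in `S` -/
noncomputable def Ev (D n : ℕ) (S : Finset (Fin n ⊕ Fin n)) (k : ℕ) :
    Finset (Fin n → Fin D → Fin n) :=
  univ.filter fun φ => k ≤ (einφ φ ∅ S).card

lemma card_phi {n D : ℕ} (V : Finset (Fin n)) (T : Finset (Fin n × Fin D)) :
    (univ.filter fun φ : Fin n → Fin D → Fin n => ∀ e ∈ T, φ e.1 e.2 ∈ V).card * n ^ T.card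
      = V.card ^ T.card * (n ^ D) ^ n := by
  have h1 : (univ.filter fun φ : Fin n → Fin D → Fin n => ∀ e ∈ T, φ e.1 e.2 ∈ V) =
      Fintype.piFinset fun w => Fintype.piFinset fun i =>
        (if (w, i) ∈ T then V else univ : Finset (Fin n)) := by
    ext φ
    simp only [mem_filter, mem_univ, true_and, Fintype.mem_piFinset]
    constructor
    · intro h w i
      by_cases hT : (w, i) ∈ T
      · simpa [hT] using h (w, i) hT
      · simp [hT]
    · intro h e he
      have := h e.1 e.2
      simpa [he] using this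
  rw [h1, Fintype.card_piFinset]
  simp_rw [Fintype.card_piFinset]
  rw [← Fintype.prod_prod_type'
    (f := fun w i => (if (w, i) ∈ T then V else univ : Finset (Fin n)).card)]
  have h2 : ∀ x : Fin n × Fin D, (if (x.1, x.2) ∈ T then V else univ : Finset (Fin n)).card =
      if x ∈ T then V.card else n := by
    intro x
    by_cases hx : x ∈ T
    · simp [hx]
    · simp [hx]
  rw [Finset.prod_congr rfl fun x _ => h2 x, Finset.prod_ite, Finset.prod_const,
    Finset.prod_const, Finset.filter_mem_eq_inter, Finset.univ_inter]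
  have h3 : (univ.filter fun x : Fin n × Fin D => x ∉ T).card + T.card = n * D := by
    have := Finset.card_filter_add_card_filter_not (s := (univ : Finset (Fin n × Fin D)))
      (fun x => x ∉ T)
    simp only [not_not, Finset.filter_mem_eq_inter, Finset.univ_inter, Finset.card_univ,
      Fintype.card_prod, Fintype.card_fin] at this
    exact this
  rw [mul_assoc, ← pow_add, h3, ← pow_mul, mul_comm n D]

lemma card_Ev {n D : ℕ} (S : Finset (Fin n ⊕ Fin n)) (k : ℕ) :
    (Ev D n S k).card * n ^ k ≤ 2 ^ (D * S.card) * S.card ^ k * (n ^ D) ^ n := by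
  set R : Finset (Fin n × Fin D) := S.toRight ×ˢ univ with hR
  have hsub : Ev D n S k ⊆ (R.powersetCard k).biUnion fun T =>
      univ.filter fun φ : Fin n → Fin D → Fin n => ∀ e ∈ T, φ e.1 e.2 ∈ S.toLeft := by
    intro φ hφ
    simp only [Ev, mem_filter, mem_univ, true_and] at hφ
    obtain ⟨T, hT, hTk⟩ := Finset.exists_subset_card_eq hφ
    simp only [mem_biUnion, mem_powersetCard, mem_filter, mem_univ, true_and]
    refine ⟨T, ⟨?_, hTk⟩, ?_⟩
    · intro e he
      have := hT he
      simp only [einφ, mem_filter, mem_univ, true_and] at this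
      simp only [hR, mem_product, mem_univ, and_true, Finset.mem_toRight]
      exact this.2.1
    · intro e he
      have := hT he
      simp only [einφ, mem_filter, mem_univ, true_and] at this
      rw [Finset.mem_toLeft]
      exact this.2.2
  calc (Ev D n S k).card * n ^ k
      ≤ (∑ T ∈ R.powersetCard k, (univ.filter fun φ : Fin n → Fin D → Fin n =>
          ∀ e ∈ T, φ e.1 e.2 ∈ S.toLeft).card) * n ^ k :=
        Nat.mul_le_mul_right _ ((Finset.card_le_card hsub).trans Finset.card_biUnion_le)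
    _ = ∑ T ∈ R.powersetCard k, S.toLeft.card ^ k * (n ^ D) ^ n := by
        rw [Finset.sum_mul]
        refine Finset.sum_congr rfl fun T hT => ?_
        rw [mem_powersetCard] at hT
        have := card_phi (D := D) S.toLeft T
        rw [hT.2] at this
        exact this
    _ = (R.powersetCard k).card * (S.toLeft.card ^ k * (n ^ D) ^ n) := by
        rw [Finset.sum_const, smul_eq_mul]
    _ ≤ 2 ^ (D * S.card) * (S.card ^ k * (n ^ D) ^ n) := by
        refine Nat.mul_le_mul ?_ (Nat.mul_le_mul_right _ (Nat.pow_le_pow_left ?_ k))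
        · calc (R.powersetCard k).card ≤ R.powerset.card :=
                Finset.card_le_card fun T hT => by
                  rw [mem_powersetCard] at hT
                  exact mem_powerset.2 hT.1
            _ = 2 ^ R.card := Finset.card_powerset R
            _ ≤ 2 ^ (D * S.card) := by
                refine Nat.pow_le_pow_right (by norm_num) ?_
                rw [hR, Finset.card_product, Finset.card_univ, Fintype.card_fin, mul_comm]
                exact Nat.mul_le_mul_left _ Finset.card_toRight_le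
        · exact Finset.card_toLeft_le
    _ = 2 ^ (D * S.card) * S.card ^ k * (n ^ D) ^ n := by ring

lemma choose_pow (n s : ℕ) : (2 * n).choose s * s ^ s ≤ (6 * n) ^ s := by
  have h1 : ((2 * n).choose s : ℝ) ≤ (2 * n : ℕ) ^ s / s.factorial := Nat.choose_le_pow_div s (2 * n)
  have h2 : (s : ℝ) ^ s / s.factorial ≤ Real.exp s := Real.pow_div_factorial_le_exp s (by positivity) s
  have h3 : Real.exp s ≤ 3 ^ s := by
    have : Real.exp s = Real.exp 1 ^ s := by rw [← Real.exp_nat_mul, mul_one]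
    rw [this]
    exact pow_le_pow_left₀ (Real.exp_pos 1).le (Real.exp_one_lt_d9.le.trans (by norm_num)) s
  have h4 : (((2 * n).choose s * s ^ s : ℕ) : ℝ) ≤ (((6 * n) ^ s : ℕ) : ℝ) := by
    push_cast
    calc ((2 * n).choose s : ℝ) * (s : ℝ) ^ s ≤ ((2 * n : ℕ) ^ s / s.factorial) * (s : ℝ) ^ s :=
          mul_le_mul_of_nonneg_right h1 (by positivity)
      _ = ((2 * n : ℕ) : ℝ) ^ s * ((s : ℝ) ^ s / s.factorial) := by ring
      _ ≤ ((2 * n : ℕ) : ℝ) ^ s * 3 ^ s := by
          refine mul_le_mul_of_nonneg_left (h2.trans h3) (by positivity)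
      _ = (6 * n) ^ s := by
          rw [← mul_pow]
          push_cast
          ring
  exact_mod_cast h4

lemma card_Ev' {n D : ℕ} (hn : 1 ≤ n) (s j : ℕ) :
    (∑ S ∈ (univ : Finset (Fin n ⊕ Fin n)).powersetCard s, (Ev D n S (s + j)).card) * n ^ j ≤
      (6 * 2 ^ D) ^ s * s ^ j * (n ^ D) ^ n := by
  have hpos : 0 < n ^ s := by positivity
  refine Nat.le_of_mul_le_mul_right ?_ hpos
  calc (∑ S ∈ (univ : Finset (Fin n ⊕ Fin n)).powersetCard s, (Ev D n S (s + j)).card) * n ^ j
        * n ^ s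
      = ∑ S ∈ (univ : Finset (Fin n ⊕ Fin n)).powersetCard s,
          (Ev D n S (s + j)).card * n ^ (s + j) := by
        rw [Finset.sum_mul, Finset.sum_mul]
        refine Finset.sum_congr rfl fun S _ => ?_
        rw [pow_add]; ring
    _ ≤ ∑ S ∈ (univ : Finset (Fin n ⊕ Fin n)).powersetCard s,
          2 ^ (D * s) * s ^ (s + j) * (n ^ D) ^ n := by
        refine Finset.sum_le_sum fun S hS => ?_
        have := card_Ev (D := D) S (s + j)
        rw [(mem_powersetCard.1 hS).2] at this
        exact this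
    _ = ((2 * n).choose s * s ^ s) * (2 ^ (D * s) * s ^ j * (n ^ D) ^ n) := by
        rw [Finset.sum_const, smul_eq_mul, Finset.card_powersetCard, Finset.card_univ,
          Fintype.card_sum, Fintype.card_fin, ← two_mul, pow_add]
        ring
    _ ≤ (6 * n) ^ s * (2 ^ (D * s) * s ^ j * (n ^ D) ^ n) :=
        Nat.mul_le_mul_right _ (choose_pow n s)
    _ = (6 * 2 ^ D) ^ s * s ^ j * (n ^ D) ^ n * n ^ s := by
        rw [mul_pow, mul_pow, ← pow_mul]; ring

/-- the sum for the sizes `s` with `s ^ 2 ≤ n` -/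
lemma bad1 {n D h : ℕ} (hh : 1 ≤ h) (hn : (8 * (6 * 2 ^ D)) ^ (2 * h) ≤ n) (s : ℕ) (hs : 1 ≤ s)
    (hsn : s ^ 2 ≤ n) :
    (∑ S ∈ (univ : Finset (Fin n ⊕ Fin n)).powersetCard s,
      (Ev D n S (s + (s / h + 1))).card) * 8 ^ s ≤ (n ^ D) ^ n := by
  set C : ℕ := 6 * 2 ^ D with hC
  have hC1 : 1 ≤ C := by
    have : 1 ≤ 2 ^ D := Nat.one_le_two_pow
    omega
  have hn1 : 1 ≤ n := le_trans (Nat.one_le_pow _ _ (by omega)) hn
  set A := ∑ S ∈ (univ : Finset (Fin n ⊕ Fin n)).powersetCard s,
      (Ev D n S (s + (s / h + 1))).card with hA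
  have key := card_Ev' (D := D) hn1 s (s / h + 1)
  rw [← hA, ← hC] at key
  have h1 : (8 * C) ^ h * s ≤ n := by
    have : ((8 * C) ^ h * s) ^ 2 ≤ n ^ 2 := by
      calc ((8 * C) ^ h * s) ^ 2 = (8 * C) ^ (2 * h) * s ^ 2 := by
            rw [mul_pow, ← pow_mul, mul_comm h 2]
        _ ≤ n * n := Nat.mul_le_mul hn hsn
        _ = n ^ 2 := by ring
    exact (Nat.pow_le_pow_iff_left (by norm_num)).1 this
  have h2 : (8 * C) ^ s ≤ ((8 * C) ^ h) ^ (s / h + 1) := by
    rw [← pow_mul]
    refine Nat.pow_le_pow_right (by omega) ?_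
    exact (Nat.lt_mul_div_succ s (by omega)).le
  have h3 : A * ((8 * C) ^ s * s ^ (s / h + 1)) ≤ C ^ s * s ^ (s / h + 1) * (n ^ D) ^ n := by
    calc A * ((8 * C) ^ s * s ^ (s / h + 1))
        ≤ A * (((8 * C) ^ h) ^ (s / h + 1) * s ^ (s / h + 1)) :=
          Nat.mul_le_mul_left _ (Nat.mul_le_mul_right _ h2)
      _ = A * ((8 * C) ^ h * s) ^ (s / h + 1) := by rw [mul_pow ((8 * C) ^ h) s]
      _ ≤ A * n ^ (s / h + 1) := Nat.mul_le_mul_left _ (Nat.pow_le_pow_left h1 _)
      _ ≤ _ := key
  have h4 : 0 < C ^ s * s ^ (s / h + 1) := by positivity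
  refine Nat.le_of_mul_le_mul_left (c := C ^ s * s ^ (s / h + 1)) ?_ h4
  calc C ^ s * s ^ (s / h + 1) * (A * 8 ^ s) = A * ((8 * C) ^ s * s ^ (s / h + 1)) := by
        rw [mul_pow 8 C s]; ring
    _ ≤ _ := h3

lemma geo (N m : ℕ) (f : ℕ → ℕ) (I : Finset ℕ) (hI : I ⊆ Finset.Icc 1 m)
    (hf : ∀ s ∈ I, f s * 8 ^ s ≤ N) : 7 * ∑ s ∈ I, f s ≤ N := by
  have hstep : ∀ m : ℕ, 7 * ∑ s ∈ Finset.Icc 1 m, ((1 : ℝ) / 8) ^ s = 1 - (1 / 8) ^ m := by
    intro m
    induction m with
    | zero => simp
    | succ m ih =>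
      rw [Finset.sum_Icc_succ_top (by omega), mul_add, ih, pow_succ]
      ring
  have h1 : (7 * ∑ s ∈ I, (f s : ℝ)) ≤ N := by
    calc (7 * ∑ s ∈ I, (f s : ℝ)) ≤ 7 * ∑ s ∈ I, (N : ℝ) * (1 / 8) ^ s := by
          refine mul_le_mul_of_nonneg_left (Finset.sum_le_sum fun s hs => ?_) (by norm_num)
          have := hf s hs
          have h' : (f s : ℝ) * 8 ^ s ≤ N := by exact_mod_cast this
          rw [one_div, inv_pow, ← div_eq_mul_inv, le_div_iff₀ (by positivity)]
          exact h'
      _ ≤ 7 * ∑ s ∈ Finset.Icc 1 m, (N : ℝ) * (1 / 8) ^ s := by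
          refine mul_le_mul_of_nonneg_left
            (Finset.sum_le_sum_of_subset_of_nonneg hI fun _ _ _ => by positivity) (by norm_num)
      _ = N * (7 * ∑ s ∈ Finset.Icc 1 m, ((1 : ℝ) / 8) ^ s) := by
          rw [← Finset.mul_sum]; ring
      _ = N * (1 - (1 / 8) ^ m) := by rw [hstep]
      _ ≤ N * 1 := by
          refine mul_le_mul_of_nonneg_left ?_ (Nat.cast_nonneg N)
          have : (0 : ℝ) ≤ (1 / 8) ^ m := by positivity
          linarith
      _ = N := mul_one _
  exact_mod_cast h1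

/-- the number of small dense sets -/
noncomputable def X {D n : ℕ} (g : ℕ) (φ : Fin n → Fin D → Fin n) : ℕ :=
  ∑ s ∈ Finset.Icc 1 g, ∑ S ∈ (univ : Finset (Fin n ⊕ Fin n)).powersetCard s,
    if s ≤ (einφ φ ∅ S).card then 1 else 0

lemma sum_X {D n g : ℕ} (hn : 1 ≤ n) :
    ∑ φ : Fin n → Fin D → Fin n, X g φ ≤ g * (6 * 2 ^ D) ^ g * (n ^ D) ^ n := by
  have hC1 : 1 ≤ 6 * 2 ^ D := by
    have : 1 ≤ 2 ^ D := Nat.one_le_two_pow
    omega
  calc ∑ φ : Fin n → Fin D → Fin n, X g φ
      = ∑ s ∈ Finset.Icc 1 g, ∑ S ∈ (univ : Finset (Fin n ⊕ Fin n)).powersetCard s,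
          (Ev D n S s).card := by
        unfold X
        rw [Finset.sum_comm]
        refine Finset.sum_congr rfl fun s _ => ?_
        rw [Finset.sum_comm]
        refine Finset.sum_congr rfl fun S _ => ?_
        rw [Ev, Finset.card_filter]
    _ ≤ ∑ s ∈ Finset.Icc 1 g, (6 * 2 ^ D) ^ g * (n ^ D) ^ n := by
        refine Finset.sum_le_sum fun s hs => ?_
        have := card_Ev' (D := D) hn s 0
        simp only [add_zero, pow_zero, mul_one] at this
        refine this.trans (Nat.mul_le_mul_right _ (Nat.pow_le_pow_right hC1 ?_))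
        exact (Finset.mem_Icc.1 hs).2
    _ = g * (6 * 2 ^ D) ^ g * (n ^ D) ^ n := by
        rw [Finset.sum_const, smul_eq_mul, Nat.card_Icc]
        simp [mul_assoc]

/-- the right vertices in small dense sets -/
noncomputable def BB {D n : ℕ} (g : ℕ) (φ : Fin n → Fin D → Fin n) : Finset (Fin n) :=
  univ.filter fun w => ∃ S : Finset (Fin n ⊕ Fin n), Sum.inr w ∈ S ∧ S.card ≤ g ∧
    S.card ≤ (einφ φ ∅ S).card

lemma card_BB {D n g : ℕ} (φ : Fin n → Fin D → Fin n) : (BB g φ).card ≤ g * X g φ := by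
  have hsub : BB g φ ⊆ (Finset.Icc 1 g).biUnion fun s =>
      ((univ : Finset (Fin n ⊕ Fin n)).powersetCard s).biUnion fun S =>
        if s ≤ (einφ φ ∅ S).card then S.toRight else ∅ := by
    intro w hw
    simp only [BB, mem_filter, mem_univ, true_and] at hw
    obtain ⟨S, h1, h2, h3⟩ := hw
    rw [mem_biUnion]
    refine ⟨S.card, Finset.mem_Icc.2 ⟨Finset.card_pos.2 ⟨_, h1⟩, h2⟩, ?_⟩
    rw [mem_biUnion]
    refine ⟨S, mem_powersetCard.2 ⟨subset_univ _, rfl⟩, ?_⟩
    rw [if_pos h3]
    exact Finset.mem_toRight.2 h1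
  refine (Finset.card_le_card hsub).trans (Finset.card_biUnion_le.trans ?_)
  unfold X
  rw [Finset.mul_sum]
  refine Finset.sum_le_sum fun s hs => Finset.card_biUnion_le.trans ?_
  rw [Finset.mul_sum]
  refine Finset.sum_le_sum fun S hS => ?_
  split_ifs
  · rw [mul_one]
    refine Finset.card_toRight_le.trans ?_
    rw [(mem_powersetCard.1 hS).2]
    exact (Finset.mem_Icc.1 hs).2
  · simp

end EXaux

open EXaux

theorem t_EX : S_EX := by
  intro D h g hh
  refine ⟨max ((8 * (6 * 2 ^ D)) ^ (2 * h)) (8 * (g * (g * (6 * 2 ^ D) ^ g))), fun n hn => ?_⟩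
  have hn0 : (8 * (6 * 2 ^ D)) ^ (2 * h) ≤ n := (le_max_left _ _).trans hn
  have hn2 : 8 * (g * (g * (6 * 2 ^ D) ^ g)) ≤ n := (le_max_right _ _).trans hn
  have hn1 : 1 ≤ n := by
    refine le_trans (Nat.one_le_pow _ _ ?_) hn0
    have : 1 ≤ 2 ^ D := Nat.one_le_two_pow
    omega
  set K : ℕ := g * (6 * 2 ^ D) ^ g with hK
  have hNpos : 0 < (n ^ D) ^ n := by positivity
  -- the first bad set
  set Bad1 : Finset (Fin n → Fin D → Fin n) := univ.filter fun φ =>
    ∃ S : Finset (Fin n ⊕ Fin n), 1 ≤ S.card ∧ S.card ^ 2 ≤ n ∧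
      S.card + (S.card / h + 1) ≤ (einφ φ ∅ S).card with hBad1
  have hb1 : 7 * Bad1.card ≤ (n ^ D) ^ n := by
    have hsub : Bad1 ⊆ ((Finset.Icc 1 n).filter fun s => s ^ 2 ≤ n).biUnion fun s =>
        ((univ : Finset (Fin n ⊕ Fin n)).powersetCard s).biUnion fun S =>
          Ev D n S (s + (s / h + 1)) := by
      intro φ hφ
      simp only [hBad1, mem_filter, mem_univ, true_and] at hφ
      obtain ⟨S, h1, h2, h3⟩ := hφ
      rw [mem_biUnion]
      refine ⟨S.card, ?_, ?_⟩
      · rw [mem_filter, Finset.mem_Icc]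
        refine ⟨⟨h1, ?_⟩, h2⟩
        calc S.card ≤ S.card ^ 2 := Nat.le_self_pow (by norm_num) _
          _ ≤ n := h2
      · rw [mem_biUnion]
        refine ⟨S, mem_powersetCard.2 ⟨subset_univ _, rfl⟩, ?_⟩
        simp only [Ev, mem_filter, mem_univ, true_and]
        exact h3
    calc 7 * Bad1.card ≤ 7 * ∑ s ∈ (Finset.Icc 1 n).filter (fun s => s ^ 2 ≤ n),
          ∑ S ∈ (univ : Finset (Fin n ⊕ Fin n)).powersetCard s,
            (Ev D n S (s + (s / h + 1))).card := by
          refine Nat.mul_le_mul_left _ ((Finset.card_le_card hsub).trans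
            (Finset.card_biUnion_le.trans ?_))
          exact Finset.sum_le_sum fun s _ => Finset.card_biUnion_le
      _ ≤ (n ^ D) ^ n := by
          refine geo _ n _ _ (Finset.filter_subset _ _) fun s hs => ?_
          rw [mem_filter, Finset.mem_Icc] at hs
          exact bad1 hh hn0 s hs.1.1 hs.2
  -- the second bad set
  set Bad2 : Finset (Fin n → Fin D → Fin n) := univ.filter fun φ => 4 * K + 1 ≤ X g φ with hBad2
  have hb2 : 4 * Bad2.card ≤ (n ^ D) ^ n := by
    have h1 : Bad2.card * (4 * K + 1) ≤ K * (n ^ D) ^ n := by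
      calc Bad2.card * (4 * K + 1) = ∑ φ ∈ Bad2, (4 * K + 1) := by
            rw [Finset.sum_const, smul_eq_mul]
        _ ≤ ∑ φ ∈ Bad2, X g φ := by
            refine Finset.sum_le_sum fun φ hφ => ?_
            simp only [hBad2, mem_filter, mem_univ, true_and] at hφ
            exact hφ
        _ ≤ ∑ φ : Fin n → Fin D → Fin n, X g φ :=
            Finset.sum_le_sum_of_subset (subset_univ _)
        _ ≤ K * (n ^ D) ^ n := sum_X hn1
    rcases Nat.eq_zero_or_pos K with h0 | h0
    · rw [h0] at h1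
      simp only [mul_zero, zero_add, mul_one, zero_mul, Nat.le_zero] at h1
      rw [h1]
      omega
    · refine Nat.le_of_mul_le_mul_left (c := K) ?_ h0
      calc K * (4 * Bad2.card) = Bad2.card * (4 * K) := by ring
        _ ≤ Bad2.card * (4 * K + 1) := Nat.mul_le_mul_left _ (by omega)
        _ ≤ _ := h1
  obtain ⟨φ, hφ1, hφ2⟩ : ∃ φ, φ ∉ Bad1 ∧ φ ∉ Bad2 := by
    by_contra hcon
    push Not at hcon
    have h1 : (univ : Finset (Fin n → Fin D → Fin n)) ⊆ Bad1 ∪ Bad2 := by
      intro φ _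
      rw [mem_union]
      by_cases h' : φ ∈ Bad1
      · exact Or.inl h'
      · exact Or.inr (hcon φ h')
    have h2 := (Finset.card_le_card h1).trans (Finset.card_union_le _ _)
    rw [Finset.card_univ, Fintype.card_fun, Fintype.card_fun, Fintype.card_fin,
      Fintype.card_fin] at h2
    omega
  have hX : X g φ ≤ 4 * K := by
    simp only [hBad2, mem_filter, mem_univ, true_and] at hφ2
    omega
  refine ⟨φ, BB g φ, ?_, ?_, ?_⟩
  · have h1 := card_BB (g := g) φ
    calc 2 * (BB g φ).card ≤ 2 * (g * (4 * K)) :=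
          Nat.mul_le_mul_left _ (h1.trans (Nat.mul_le_mul_left _ hX))
      _ = 8 * (g * K) := by ring
      _ ≤ n := hn2
  · intro S hS
    have hle : (einφ φ (BB g φ) S).card ≤ (einφ φ ∅ S).card := by
      refine Finset.card_le_card fun e he => ?_
      simp only [einφ, mem_filter, mem_univ, true_and] at he ⊢
      exact ⟨by simp, he.2⟩
    rcases Nat.eq_zero_or_pos S.card with h0 | h0
    · rw [Finset.card_eq_zero] at h0
      subst h0
      simp [einφ]
    · refine hle.trans ?_
      by_contra hcon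
      push Not at hcon
      apply hφ1
      simp only [hBad1, mem_filter, mem_univ, true_and]
      exact ⟨S, h0, hS, by omega⟩
  · intro S hS hSg
    by_contra hcon
    push Not at hcon
    have hSpos : 0 < S.card := Finset.card_pos.2 hS
    set S' : Finset (Fin n ⊕ Fin n) := S.filter fun u => ∀ w, u = Sum.inr w → w ∉ BB g φ
      with hS'
    have h1 : einφ φ (BB g φ) S ⊆ einφ φ ∅ S' := by
      intro e he
      simp only [einφ, mem_filter, mem_univ, true_and, hS'] at he ⊢
      refine ⟨by simp, ⟨he.2.1, ?_⟩, he.2.2, ?_⟩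
      · intro w hw
        rw [← Sum.inr_injective hw]
        exact he.1
      · intro w hw
        exact absurd hw (by simp)
    have h2 : S'.card ≤ (einφ φ ∅ S').card :=
      (Finset.card_le_card (Finset.filter_subset _ _)).trans (hcon.trans (Finset.card_le_card h1))
    have h3 : (einφ φ (BB g φ) S).Nonempty := Finset.card_pos.1 (lt_of_lt_of_le hSpos hcon)
    obtain ⟨e, he⟩ := h3
    have he' := h1 he
    simp only [einφ, mem_filter, mem_univ, true_and] at he he'
    apply he.1
    simp only [BB, mem_filter, mem_univ, true_and]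
    exact ⟨S', he'.2.1, (Finset.card_le_card (Finset.filter_subset _ _)).trans hSg, h2⟩

end H589DT
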