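import Pool.Agent.H589R3.DT.ST

/-! # The final dichotomy -/

open scoped Classical
open Finset

namespace H589DT

open H630VC (Prog marked)

theorem t_FI (hCC : S_CC) : S_FI := by
  intro P Λ X _ _ _ L C M Q A tr hL hQ hA htr badP badN fp fn happ θ
  obtain ⟨lam, hc, hraw⟩ := happ
  by_cases h : Lev C lam ∅ θ
  · right
    intro ω hω
    have h1 := h ⟨∅, C.empty⟩ (by simp [pos])
    exact h1.trans (hraw.2 ω hω ⟨∅, C.empty⟩ (empty_subset _))
  · left
    have hsub : (univ.filter fun x => θ ≤ fp x) ⊆ badP ∪ (Finset.Ico 1 (L + 1)).biUnion fun j =>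
        univ.filter fun x => ∃ α, α ⊆ tr x ∧ CritSet C lam α ∧ α.card = j := by
      intro x hx
      have hx' := (mem_filter.1 hx).2
      rw [mem_union]
      by_cases hb : x ∈ badP
      · exact Or.inl hb
      · right
        obtain ⟨α, g1, g2, g3⟩ := hraw.1 x hb
        have g4 : Lev C lam α θ := fun β hβ => hx'.trans (g3 β hβ)
        obtain ⟨α', g5, g6, g7⟩ := exists_crit g4
        have g8 : α'.card ≠ 0 := by
          intro h0
          rw [card_eq_zero] at h0
          rw [h0] at g6
          exact h g6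
        have g9 := card_le_card g5
        exact mem_biUnion.2 ⟨α'.card, mem_Ico.2 ⟨by omega, by omega⟩,
          mem_filter.2 ⟨mem_univ _, α', g5.trans g1, g7, rfl⟩⟩
    have hkey : ∀ j ∈ Finset.Ico 1 (L + 1),
        (univ.filter fun x => ∃ α, α ⊆ tr x ∧ CritSet C lam α ∧ α.card = j).card
          ≤ Fintype.card X / 8 ^ j := by
      intro j hj
      rw [mem_Ico] at hj
      have := card_crit_tr hCC C M Q A tr hL hQ hA htr lam hc j (by omega)
      rw [Nat.le_div_iff_mul_le (by positivity)]
      exact this
    have h1 : (univ.filter fun x => θ ≤ fp x).card ≤ badP.card + Fintype.card X / 7 := by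
      calc _ ≤ badP.card + ((Finset.Ico 1 (L + 1)).biUnion fun j =>
            univ.filter fun x => ∃ α, α ⊆ tr x ∧ CritSet C lam α ∧ α.card = j).card :=
            (card_le_card hsub).trans (card_union_le _ _)
        _ ≤ badP.card + ∑ j ∈ Finset.Ico 1 (L + 1), Fintype.card X / 8 ^ j :=
            Nat.add_le_add_left (card_biUnion_le.trans (Finset.sum_le_sum hkey)) _
        _ ≤ badP.card + Fintype.card X / (8 - 1) :=
            Nat.add_le_add_left (Nat.geom_sum_Ico_le (by norm_num) _ _) _
    have h2 : 7 * (Fintype.card X / 7) ≤ Fintype.card X := Nat.mul_div_le _ _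
    omega

end H589DT
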