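import Mathlib
import Pool.Agent.H630VC.Model

/-!
# d-to-1 games and circuits that decide the gap problem: the definitions
-/

open scoped Classical
open Finset

namespace H589DT

/-- a d-to-1 game (d-to-1 Label Cover instance) with left labels `Fin R` and right labels
`Fin (d * R)`: a bipartite graph with left vertices `V` and right vertices `W`, and for each pair
`v`, `w` a map `map v w` from right labels to left labels, which matters only if `v` and `w` are
adjacent; on edges no left label has more than `d` preimages -/
structure DGame (V W : Type) (d R : ℕ) where
  /-- adjacency -/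
  adj : V → W → Prop
  /-- the constraint on the edge: the label of `v` is the image of the label of `w` -/
  map : V → W → Fin (d * R) → Fin R
  /-- d-to-1 -/
  fib : ∀ v w, adj v w → ∀ a, (univ.filter fun b => map v w b = a).card ≤ d

/-- the inputs of the circuits: for each `v`, `w` and map `q` the bit that tells that `v`, `w` are
adjacent with the constraint `q`, and real constants -/
def dInputs (V W : Type) (d R : ℕ) : Set (DGame V W d R → ℝ) :=
  {f | (∃ (v : V) (w : W) (q : Fin (d * R) → Fin R),
      f = fun I => if I.adj v w ∧ I.map v w = q then 1 else 0) ∨ ∃ c : ℝ, f = fun _ => c}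

variable {V W : Type} [Fintype V] [Fintype W] {d R : ℕ}

/-- YES instances, value one: there is at least one edge, and some labelling satisfies all edges -/
def DYes (I : DGame V W d R) : Prop :=
  (∃ v w, I.adj v w) ∧
    ∃ (A : V → Fin R) (B : W → Fin (d * R)), ∀ v w, I.adj v w → I.map v w (B w) = A v

/-- NO instances, value less than `ε`: every labelling satisfies less than a fraction `ε` of the
edges -/
def DNo (ε : ℝ) (I : DGame V W d R) : Prop :=
  ∀ (A : V → Fin R) (B : W → Fin (d * R)),
    ((univ.filter fun e : V × W => I.adj e.1 e.2 ∧ I.map e.1 e.2 (B e.2) = A e.1).card : ℝ) <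
      ε * (univ.filter fun e : V × W => I.adj e.1 e.2).card

/-- a randomised circuit, that is a finite family `l` of circuits indexed by the random strings in
`Ω`, tells value one from value less than `ε`: its output is at least one on NO instances and less
than one on YES instances, in both cases for at least three quarters of the random strings -/
def DDecides {Ω : Type} [Fintype Ω] (ε : ℝ) (l : Ω → List (DGame V W d R → ℝ)) : Prop :=
  ∃ f : Ω → DGame V W d R → ℝ, (∀ r, f r ∈ l r) ∧ ∀ I : DGame V W d R,
    (DNo ε I → 3 * Fintype.card Ω ≤ 4 * (univ.filter fun r => 1 ≤ f r I).card) ∧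
    (DYes I → 3 * Fintype.card Ω ≤ 4 * (univ.filter fun r => f r I < 1).card)

end H589DT
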