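import Pool.Agent.H589R3.DT.Props
import Pool.Agent.H589R3.DT.GameDefs

/-! # The host game (helper589) -/

open scoped Classical
open Finset

namespace H589DT

open H630VC (Prog marked)

theorem mem_hx {U E Λ A : Type} [Fintype U] [Fintype E] [Fintype Λ] [Fintype A]
    {G : CGraph U E Λ} {x : U → A} {c : E × A × A} :
    c ∈ hx G x ↔ c.2.1 = x (G.src c.1) ∧ c.2.2 = x (G.tgt c.1) := by
  simp [hx]

theorem mem_hT {U E Λ A : Type} [Fintype U] [Fintype E] [Fintype Λ] [Fintype A]
    {G : CGraph U E Λ} {T : Finset ((U × A) × Λ)} {c : E × A × A} :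
    c ∈ hT G T ↔ ∃ σ τ, ((G.src c.1, c.2.1), σ) ∈ T ∧ ((G.tgt c.1, c.2.2), τ) ∈ T ∧
      G.rel c.1 σ τ := by
  simp [hT]

section

variable {n D p d m N : ℕ} [NeZero p]

/-- left labels -/
noncomputable def eV (p : ℕ) [NeZero p] : ZMod p ≃ Fin p :=
  Fintype.equivFinOfCardEq (ZMod.card p)

/-- right labels -/
noncomputable def eW (p d : ℕ) [NeZero p] : (ZMod p × Fin d) ≃ Fin (d * p) :=
  Fintype.equivFinOfCardEq (by rw [Fintype.card_prod, ZMod.card, Fintype.card_fin, mul_comm])

/-- the constraint map with coefficient `i` and shift `s` -/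
noncomputable def cmap (p d : ℕ) [NeZero p] (i : ZMod p) (s : ZMod p) : Fin (d * p) → Fin p :=
  fun b => eV p (((eW p d).symm b).1 - i * ((((eW p d).symm b).2 : ℕ) : ZMod p) + s)

theorem cmap_fib (i s : ZMod p) (a : Fin p) :
    (univ.filter fun b => cmap p d i s b = a).card ≤ d := by
  have h : ((univ.filter fun b => cmap p d i s b = a).image fun b => ((eW p d).symm b).2).card
      = (univ.filter fun b => cmap p d i s b = a).card := by
    apply card_image_of_injOn
    intro b hb c hc hbc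
    have hb' : cmap p d i s b = a := (mem_filter.1 (mem_coe.1 hb)).2
    have hc' : cmap p d i s c = a := (mem_filter.1 (mem_coe.1 hc)).2
    have h1 := (eV p).injective (hb'.trans hc'.symm)
    have hbc' : ((eW p d).symm b).2 = ((eW p d).symm c).2 := hbc
    rw [hbc'] at h1
    have h2 : ((eW p d).symm b).1 = ((eW p d).symm c).1 := by
      have := add_right_cancel h1
      exact sub_left_injective this
    exact (eW p d).symm.injective (Prod.ext h2 hbc')
  rw [← h]
  exact (card_le_univ _).trans (by rw [Fintype.card_fin])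


/-- the edges of the game -/
abbrev EE {n : ℕ} (D : ℕ) (B : Finset (Fin n)) : Type := {e : Fin n × Fin D // e.1 ∉ B}

variable (φ : Fin n → Fin D → Fin n) (B : Finset (Fin n)) (s : Fin n → Fin D → ZMod p)
  (ιV ιW : Option (Fin n × Fin m) ↪ Fin N)

/-- the host constraint `c` joins the vertices `v` and `w` -/
def isEdge (c : EE D B × Fin m × Fin m) (v w : Fin N) : Prop :=
  v = ιV (some (φ c.1.1.1 c.1.1.2, c.2.1)) ∧ w = ιW (some (c.1.1.1, c.2.2))

/-- the constraint maps of the host -/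
noncomputable def hmap (d : ℕ) (v w : Fin N) : Fin (d * p) → Fin p :=
  if h : ∃ c, isEdge φ B ιV ιW c v w then
    cmap p d ((h.choose.1.1.2 : ℕ) : ZMod p) (s h.choose.1.1.1 h.choose.1.1.2)
  else cmap p d 0 0

/-- the game given by a set of host constraints -/
noncomputable def hostInst (d : ℕ) (H : Finset (EE D B × Fin m × Fin m)) :
    DGame (Fin N) (Fin N) d p where
  adj v w := (v = ιV none ∧ w = ιW none) ∨ ∃ c ∈ H, isEdge φ B ιV ιW c v w
  map v w := hmap φ B s ιV ιW d v w
  fib v w _ a := by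
    unfold hmap
    split_ifs
    · exact cmap_fib _ _ _
    · exact cmap_fib _ _ _

variable {φ B s ιV ιW}

theorem isEdge_unique (hφ : ∀ w i j, w ∉ B → φ w i = φ w j → i = j)
    {c c' : EE D B × Fin m × Fin m} {v w : Fin N} (h : isEdge φ B ιV ιW c v w)
    (h' : isEdge φ B ιV ιW c' v w) : c = c' := by
  obtain ⟨⟨⟨w1, i1⟩, hw1⟩, a1, b1⟩ := c
  obtain ⟨⟨⟨w2, i2⟩, hw2⟩, a2, b2⟩ := c'
  obtain ⟨h1, h2⟩ := h
  obtain ⟨h3, h4⟩ := h'
  have e1 := Option.some.inj (ιV.injective (h1.symm.trans h3))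
  have e2 := Option.some.inj (ιW.injective (h2.symm.trans h4))
  simp only [Prod.mk.injEq] at e1 e2
  obtain ⟨rfl, rfl⟩ := e2
  obtain ⟨e3, rfl⟩ := e1
  have e4 := hφ w1 i1 i2 hw1 e3
  subst e4
  rfl

theorem hmap_of_isEdge (hφ : ∀ w i j, w ∉ B → φ w i = φ w j → i = j)
    {c : EE D B × Fin m × Fin m} {v w : Fin N} (h : isEdge φ B ιV ιW c v w) :
    hmap φ B s ιV ιW d v w = cmap p d ((c.1.1.2 : ℕ) : ZMod p) (s c.1.1.1 c.1.1.2) := by
  unfold hmap
  have hex : ∃ c, isEdge φ B ιV ιW c v w := ⟨c, h⟩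
  rw [dif_pos hex]
  have := isEdge_unique hφ hex.choose_spec h
  rw [this]

theorem not_isEdge_none {c : EE D B × Fin m × Fin m} {w : Fin N} :
    ¬ isEdge φ B ιV ιW c (ιV none) w := by
  rintro ⟨h, -⟩
  have := ιV.injective h
  simp at this

/-- the inputs of the circuits are host inputs -/
theorem hostInputs (hφ : ∀ w i j, w ∉ B → φ w i = φ w j → i = j) :
    HostInputs (hostInst φ B s ιV ιW d) (dInputs (Fin N) (Fin N) d p) := by
  rintro g (⟨v, w, q, rfl⟩ | ⟨c, rfl⟩)
  · by_cases h0 : v = ιV none ∧ w = ιW none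
    · left
      refine ⟨if hmap φ B s ιV ιW d v w = q then 1 else 0, fun H => ?_⟩
      have : (hostInst φ B s ιV ιW d H).adj v w := Or.inl h0
      simp only [this, true_and]
      rfl
    · by_cases h1 : ∃ c, isEdge φ B ιV ιW c v w
      · obtain ⟨c, hc⟩ := h1
        by_cases hq : hmap φ B s ιV ιW d v w = q
        · right
          refine ⟨c, fun H => ?_⟩
          have e1 : ((hostInst φ B s ιV ιW d H).adj v w ∧
              (hostInst φ B s ιV ιW d H).map v w = q) ↔ c ∈ H := by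
            constructor
            · rintro ⟨h | ⟨c', hc', h'⟩, -⟩
              · exact absurd h h0
              · rw [isEdge_unique hφ hc h']
                exact hc'
            · intro h
              exact ⟨Or.inr ⟨c, h, hc⟩, hq⟩
          by_cases h : c ∈ H
          · rw [if_pos h]
            exact if_pos (e1.2 h)
          · rw [if_neg h]
            exact if_neg fun h' => h (e1.1 h')
        · left
          refine ⟨0, fun H => ?_⟩
          have e1 : ¬ ((hostInst φ B s ιV ιW d H).adj v w ∧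
              (hostInst φ B s ιV ιW d H).map v w = q) := fun h => hq h.2
          simp only [e1, if_false]
      · left
        refine ⟨0, fun H => ?_⟩
        have e1 : ¬ ((hostInst φ B s ιV ιW d H).adj v w ∧
            (hostInst φ B s ιV ιW d H).map v w = q) := by
          rintro ⟨h | ⟨c', _, h'⟩, -⟩
          · exact h0 h
          · exact h1 ⟨c', h'⟩
        simp only [e1, if_false]
  · exact Or.inl ⟨c, fun _ => rfl⟩

/-- a labelling of the positions taken from `T` -/
noncomputable def labOf {P Λ : Type} (T : Finset (P × Λ)) (c : Λ) (q : P) : Λ :=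
  if h : ∃ σ, (q, σ) ∈ T then h.choose else c

theorem labOf_eq {P Λ : Type} {T : Finset (P × Λ)} (hT : NoConflict T) {c σ : Λ} {q : P}
    (h : (q, σ) ∈ T) : labOf T c q = σ := by
  unfold labOf
  have hex : ∃ σ, (q, σ) ∈ T := ⟨σ, h⟩
  rw [dif_pos hex]
  exact hT q _ _ hex.choose_spec h

/-- host games without conflicts have value one -/
theorem host_yes [NeZero d] (hφ : ∀ w i j, w ∉ B → φ w i = φ w j → i = j)
    (T : Finset (((Fin n ⊕ Fin n) × Fin m) × (ZMod p × Fin d))) (hT0 : NoConflict T) :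
    DYes (hostInst φ B s ιV ιW d (hT (gameGraph φ B s) T)) := by
  refine ⟨⟨ιV none, ιW none, Or.inl ⟨rfl, rfl⟩⟩, ?_⟩
  -- the labels
  let gV : Option (Fin n × Fin m) → Fin p := fun o => match o with
    | none => eV p 0
    | some q => eV p (labOf T 0 (Sum.inl q.1, q.2)).1
  let gW : Option (Fin n × Fin m) → Fin (d * p) := fun o => match o with
    | none => eW p d 0
    | some q => eW p d (labOf T 0 (Sum.inr q.1, q.2))
  refine ⟨Function.extend ιV gV fun _ => eV p 0, Function.extend ιW gW fun _ => eW p d 0, ?_⟩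
  rintro v w (⟨rfl, rfl⟩ | ⟨c, hc, hcv, hcw⟩)
  · rw [ιV.injective.extend_apply, ιW.injective.extend_apply]
    show hmap φ B s ιV ιW d (ιV none) (ιW none) (eW p d 0) = eV p 0
    unfold hmap
    rw [dif_neg (by rintro ⟨c, hc⟩; exact not_isEdge_none hc)]
    simp [cmap]
  · have hm : (hostInst φ B s ιV ιW d (hT (gameGraph φ B s) T)).map v w
        = cmap p d ((c.1.1.2 : ℕ) : ZMod p) (s c.1.1.1 c.1.1.2) :=
      hmap_of_isEdge hφ ⟨hcv, hcw⟩
    rw [hm, hcv, hcw, ιV.injective.extend_apply, ιW.injective.extend_apply]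
    obtain ⟨σ, τ, h1, h2, h3⟩ := mem_hT.1 hc
    have e1 : labOf T 0 (Sum.inl (φ c.1.1.1 c.1.1.2), c.2.1) = σ := labOf_eq hT0 h1
    have e2 : labOf T 0 (Sum.inr c.1.1.1, c.2.2) = τ := labOf_eq hT0 h2
    show cmap p d _ _ (eW p d (labOf T 0 (Sum.inr c.1.1.1, c.2.2)))
      = eV p (labOf T 0 (Sum.inl (φ c.1.1.1 c.1.1.2), c.2.1)).1
    rw [e1, e2]
    unfold cmap
    rw [Equiv.symm_apply_apply]
    congr 1

/-- the edges of a copy of the game graph -/
noncomputable def edgeOf (φ : Fin n → Fin D → Fin n) (B : Finset (Fin n))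
    (ιV ιW : Option (Fin n × Fin m) ↪ Fin N) (x : Fin n ⊕ Fin n → Fin m) :
    Option (EE D B) → Fin N × Fin N
  | none => (ιV none, ιW none)
  | some e => (ιV (some (φ e.1.1 e.1.2, x (Sum.inl (φ e.1.1 e.1.2)))),
      ιW (some (e.1.1, x (Sum.inr e.1.1))))

theorem edgeOf_inj (hφ : ∀ w i j, w ∉ B → φ w i = φ w j → i = j) (x : Fin n ⊕ Fin n → Fin m) :
    Function.Injective (edgeOf φ B ιV ιW x) := by
  rintro (_ | ⟨⟨w1, i1⟩, hw1⟩) (_ | ⟨⟨w2, i2⟩, hw2⟩) h
  · rfl
  · simp only [edgeOf, Prod.mk.injEq, EmbeddingLike.apply_eq_iff_eq] at h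
    exact absurd h.1 (by simp)
  · simp only [edgeOf, Prod.mk.injEq, EmbeddingLike.apply_eq_iff_eq] at h
    exact absurd h.1 (by simp)
  · simp only [edgeOf, Prod.mk.injEq, EmbeddingLike.apply_eq_iff_eq, Option.some.injEq] at h
    obtain ⟨⟨h1, -⟩, rfl, -⟩ := h
    have := hφ w1 i1 i2 hw1 h1
    subst this
    rfl

theorem adj_iff (x : Fin n ⊕ Fin n → Fin m) (v w : Fin N) :
    (hostInst φ B s ιV ιW d (hx (gameGraph (d := d) φ B s) x)).adj v w ↔
      ∃ o, edgeOf φ B ιV ιW x o = (v, w) := by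
  constructor
  · rintro (⟨rfl, rfl⟩ | ⟨c, hc, hcv, hcw⟩)
    · exact ⟨none, rfl⟩
    · refine ⟨some c.1, ?_⟩
      have h := mem_hx.1 hc
      rw [hcv, hcw]
      simp only [edgeOf]
      rw [h.1, h.2]
      rfl
  · rintro ⟨_ | e, h⟩
    · have h1 := (Prod.mk.inj h).1
      have h2 := (Prod.mk.inj h).2
      exact Or.inl ⟨h1.symm, h2.symm⟩
    · have h1 := (Prod.mk.inj h).1
      have h2 := (Prod.mk.inj h).2
      refine Or.inr ⟨(e, x (Sum.inl (φ e.1.1 e.1.2)), x (Sum.inr e.1.1)), ?_, h1.symm, h2.symm⟩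
      exact mem_hx.2 ⟨rfl, rfl⟩

/-- copies of the game graph have small value -/
theorem host_no (hφ : ∀ w i j, w ∉ B → φ w i = φ w j → i = j) (ε : ℝ) (K : ℕ)
    (hK : (K : ℝ) < ε * ((Fintype.card (EE D B) : ℝ) + 1))
    (hs : ∀ (x : Fin n → ZMod p × Fin d) (y : Fin n → ZMod p),
      (univ.filter fun e : Fin n × Fin D => e.1 ∉ B ∧
        (x e.1).1 - ((e.2 : ℕ) : ZMod p) * (((x e.1).2 : ℕ) : ZMod p) + s e.1 e.2
          = y (φ e.1 e.2)).card < K) (x : Fin n ⊕ Fin n → Fin m) :
    DNo ε (hostInst φ B s ιV ιW d (hx (gameGraph (d := d) φ B s) x)) := by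
  intro A C
  set I := hostInst φ B s ιV ιW d (hx (gameGraph (d := d) φ B s) x) with hI
  have hE : (univ.filter fun e : Fin N × Fin N => I.adj e.1 e.2).card
      = Fintype.card (EE D B) + 1 := by
    have h1 : (univ.filter fun e : Fin N × Fin N => I.adj e.1 e.2)
        = univ.image (edgeOf φ B ιV ιW x) := by
      ext ⟨v, w⟩
      simp only [mem_filter, mem_univ, true_and, mem_image]
      exact adj_iff x v w
    rw [h1, card_image_of_injective _ (edgeOf_inj hφ x), card_univ, Fintype.card_option]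
  let xx : Fin n → ZMod p × Fin d := fun w => (eW p d).symm (C (ιW (some (w, x (Sum.inr w)))))
  let yy : Fin n → ZMod p := fun v => (eV p).symm (A (ιV (some (v, x (Sum.inl v)))))
  have hS : (univ.filter fun e : Fin N × Fin N => I.adj e.1 e.2 ∧
      I.map e.1 e.2 (C e.2) = A e.1).card ≤ K := by
    have h2 : (univ.filter fun e : Fin N × Fin N => I.adj e.1 e.2 ∧
        I.map e.1 e.2 (C e.2) = A e.1) ⊆ insert (ιV none, ιW none)
        ((univ.filter fun e : Fin n × Fin D => e.1 ∉ B ∧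
        (xx e.1).1 - ((e.2 : ℕ) : ZMod p) * (((xx e.1).2 : ℕ) : ZMod p) + s e.1 e.2
          = yy (φ e.1 e.2)).image fun e => (ιV (some (φ e.1 e.2, x (Sum.inl (φ e.1 e.2)))),
            ιW (some (e.1, x (Sum.inr e.1))))) := by
      rintro ⟨v, w⟩ hvw
      simp only [mem_filter, mem_univ, true_and] at hvw
      obtain ⟨hadj, hmap⟩ := hvw
      rw [mem_insert]
      rcases hadj with ⟨rfl, rfl⟩ | ⟨c, hc, hcv, hcw⟩
      · exact Or.inl rfl
      · right
        rw [mem_image]
        have h := mem_hx.1 hc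
        have e1 : c.2.1 = x (Sum.inl (φ c.1.1.1 c.1.1.2)) := h.1
        have e2 : c.2.2 = x (Sum.inr c.1.1.1) := h.2
        refine ⟨c.1.1, ?_, ?_⟩
        · rw [mem_filter]
          refine ⟨mem_univ _, c.1.2, ?_⟩
          have hm : I.map v w = cmap p d ((c.1.1.2 : ℕ) : ZMod p) (s c.1.1.1 c.1.1.2) :=
            hmap_of_isEdge hφ ⟨hcv, hcw⟩
          rw [hm] at hmap
          show (xx c.1.1.1).1 - _ * _ + _ = (eV p).symm (A (ιV (some (φ c.1.1.1 c.1.1.2,
            x (Sum.inl (φ c.1.1.1 c.1.1.2))))))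
          rw [← e1, ← hcv, ← hmap]
          unfold cmap
          rw [Equiv.symm_apply_apply, hcw, e2]
        · rw [← e1, ← e2, ← hcv, ← hcw]
    refine (card_le_card h2).trans ((card_insert_le _ _).trans ?_)
    have h3 := hs xx yy
    have h4 := card_image_le (s := (univ.filter fun e : Fin n × Fin D => e.1 ∉ B ∧
        (xx e.1).1 - ((e.2 : ℕ) : ZMod p) * (((xx e.1).2 : ℕ) : ZMod p) + s e.1 e.2
          = yy (φ e.1 e.2))) (f := fun e => (ιV (some (φ e.1 e.2, x (Sum.inl (φ e.1 e.2)))),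
            ιW (some (e.1, x (Sum.inr e.1)))))
    omega
  rw [hE]
  push_cast
  exact lt_of_le_of_lt (by exact_mod_cast hS) hK

end

end H589DT
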