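import Pool.Agent.H589R3.DT.Props
import Pool.Agent.H589R3.DT.Sub

/-! # HO: the lower bound for circuits that read the host constraints -/

open scoped Classical
open Finset

namespace H589DT

open H630VC (Prog marked)

section

variable {U E Λ A : Type} [Fintype U] [Fintype E] [Fintype Λ] [Fintype A]

theorem mem_pos {P Λ : Type} (β : Finset (P × Λ)) (p : P) :
    p ∈ pos β ↔ ∃ q ∈ β, q.1 = p := by
  unfold pos
  exact Finset.mem_image

/-- the level function of a constant -/
theorem raw_const {P Λ X : Type} [Fintype P] [Fintype Λ] {l : ℕ} (C : ConsSystem P Λ l)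
    (M Q k : ℕ) (tr : X → Finset P) (c : ℝ) :
    Raw C M Q k tr ∅ ∅ (fun _ => c) (fun _ => c) (fun _ => c) :=
  ⟨fun _ _ => ⟨∅, Finset.empty_subset _, by simp, fun _ _ => le_refl _⟩,
    fun _ _ _ _ => le_refl _⟩

/-- the level function of a host constraint -/
theorem raw_bit (G : CGraph U E Λ) (L M Q : ℕ) (F : Local U Λ (2 * L))
    (hF : ∀ S ρ, F.C S ρ → G.SatOn S ρ) (hL : 1 ≤ L) (C : ConsSystem (U × A) Λ (2 * L))
    (hC : ∀ β, C.Cons β → ∃ ρ, F.C (β.image fun q => q.1.1) ρ ∧ ∀ q ∈ β, q.2 = ρ q.1.1)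
    (c : E × A × A) :
    ∃ lam : C.T → ℝ, Raw C M Q (2 * L) (fun x : U → A => univ.image fun u => (u, x u)) ∅ ∅ lam
      (fun x => if c ∈ hx G x then 1 else 0)
      (fun ω => if c ∈ hT G (marked ω) then 1 else 0) := by
  refine ⟨fun β => if (G.src c.1, c.2.1) ∈ pos β.1 ∧ (G.tgt c.1, c.2.2) ∈ pos β.1 then 1 else 0,
    ?_, ?_⟩
  · intro x _
    by_cases hc : c ∈ hx G x
    · refine ⟨{(G.src c.1, c.2.1), (G.tgt c.1, c.2.2)}, ?_, ?_, ?_⟩
      · intro p hp
        simp only [hx, Finset.mem_filter, Finset.mem_univ, true_and] at hc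
        simp only [Finset.mem_insert, Finset.mem_singleton] at hp
        simp only [Finset.mem_image, Finset.mem_univ, true_and]
        rcases hp with rfl | rfl
        · exact ⟨G.src c.1, by rw [← hc.1]⟩
        · exact ⟨G.tgt c.1, by rw [← hc.2]⟩
      · exact (Finset.card_le_two).trans (by omega)
      · intro β hβ
        simp only [hc, if_true]
        rw [if_pos]
        rw [hβ]
        simp
    · refine ⟨∅, Finset.empty_subset _, by simp, ?_⟩
      intro β _
      simp only [hc, if_false]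
      split_ifs <;> norm_num
  · intro ω _ β hβ
    show (if (G.src c.1, c.2.1) ∈ pos β.1 ∧ (G.tgt c.1, c.2.2) ∈ pos β.1 then (1 : ℝ) else 0) ≤
      if c ∈ hT G (marked ω) then (1 : ℝ) else 0
    by_cases hp : (G.src c.1, c.2.1) ∈ pos β.1 ∧ (G.tgt c.1, c.2.2) ∈ pos β.1
    · have hmem : c ∈ hT G (marked ω) := by
        obtain ⟨ρ, hρ, hval⟩ := hC β.1 β.2
        have hsat := hF _ _ hρ
        obtain ⟨q1, hq1, e1⟩ := (mem_pos _ _).mp hp.1
        obtain ⟨q2, hq2, e2⟩ := (mem_pos _ _).mp hp.2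
        have hs1 : q1.1.1 = G.src c.1 := by rw [e1]
        have hs2 : q2.1.1 = G.tgt c.1 := by rw [e2]
        have hedge : c.1 ∈ G.ein (β.1.image fun q => q.1.1) := by
          unfold CGraph.ein
          simp only [Finset.mem_filter, Finset.mem_univ, true_and, Finset.mem_image]
          exact ⟨⟨q1, hq1, hs1⟩, ⟨q2, hq2, hs2⟩⟩
        have hrel := hsat c.1 hedge
        unfold CGraph.SatE at hrel
        unfold hT
        simp only [Finset.mem_filter, Finset.mem_univ, true_and]
        refine ⟨ρ (G.src c.1), ρ (G.tgt c.1), ?_, ?_, hrel⟩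
        · apply hβ
          have : q1 = ((G.src c.1, c.2.1), ρ (G.src c.1)) := by
            apply Prod.ext
            · exact e1
            · rw [hval q1 hq1, hs1]
          rw [← this]; exact hq1
        · apply hβ
          have : q2 = ((G.tgt c.1, c.2.2), ρ (G.tgt c.1)) := by
            apply Prod.ext
            · exact e2
            · rw [hval q2 hq2, hs2]
          rw [← this]; exact hq2
      rw [if_pos hp, if_pos hmem]
    · rw [if_neg hp]
      split_ifs <;> norm_num

end

theorem card_filter_inst {X : Type} [Fintype X] (p : X → Prop) (i1 i2 : DecidablePred p) :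
    (@Finset.filter X p i1 univ).card = (@Finset.filter X p i2 univ).card := by
  rw [Subsingleton.elim i1 i2]

/-- the combination of PR and FI -/
theorem comb (hPR : S_PR) (hFI : S_FI) (hCT : S_CT) (P Λ X : Type) [Fintype P] [Fintype Λ]
    [Fintype X] (L : ℕ)
    (C : ConsSystem P Λ (2 * L)) (M Q A : ℕ) (tr : X → Finset P) (hL : 1 ≤ L) (hM : 1 ≤ M)
    (hQ : 1 ≤ Q) (hA : 8 * (4 * (2 * L) * Q) ≤ A)
    (htr : ∀ α : Finset P,
      (univ.filter fun x => α ⊆ tr x).card * A ^ α.card ≤ Fintype.card X)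
    (I : Type) (posI : X → I) (negI : Smp P Λ M Q → I) (inp : Set (I → ℝ))
    (hraw : ∀ g ∈ inp, ∃ lam : C.T → ℝ,
      Raw C M Q (2 * L) tr ∅ ∅ lam (fun x => g (posI x)) (fun ω => g (negI ω)))
    (l : List (I → ℝ)) (hl : Prog inp l) (f : I → ℝ) (hf : f ∈ l) (θ : ℝ) :
    7 * 8 ^ L * (univ.filter fun x : X => θ ≤ f (posI x)).card ≤
      (7 * l.length + 8 ^ L) * Fintype.card X ∨
    (univ.filter fun ω : Smp P Λ M Q => f (negI ω) < θ).card * 2 ^ M ≤
      l.length * ((Fintype.card P * Fintype.card Λ + 1) ^ (2 * L) *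
        Fintype.card (Smp P Λ M Q)) := by
  obtain ⟨badP, badN, h1, h2, h3⟩ := hPR P Λ X L C M Q A tr hL hM hQ hA htr I
    posI negI inp hraw l hl
  rcases hFI P Λ X L C M Q A tr hL hQ hA htr badP badN _ _ (h3 f hf) θ with h | h
  · left
    generalize (univ.filter fun x : X => θ ≤ f (posI x)).card = N1 at h ⊢
    generalize Fintype.card X = N2 at h h1 ⊢
    generalize 8 ^ L = N3 at h1 ⊢
    generalize badP.card = N4 at h h1
    calc 7 * N3 * N1 = N3 * (7 * N1) := by ring
      _ ≤ N3 * (7 * N4 + N2) := Nat.mul_le_mul_left _ h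
      _ = 7 * (N4 * N3) + N3 * N2 := by ring
      _ ≤ 7 * (l.length * N2) + N3 * N2 :=
          Nat.add_le_add_right (Nat.mul_le_mul_left 7 h1) _
      _ = (7 * l.length + N3) * N2 := by ring
  · right
    have hsub : (univ.filter fun ω : Smp P Λ M Q => f (negI ω) < θ) ⊆
        badN := by
      intro ω hω
      rw [Finset.mem_filter] at hω
      by_contra hn
      exact absurd (h ω hn) (not_le.mpr hω.2)
    have hct := hCT P Λ (2 * L) C
    refine le_trans (Nat.mul_le_mul_right _ (Finset.card_le_card hsub)) (le_trans h2 ?_)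
    exact Nat.mul_le_mul_left _ (Nat.mul_le_mul_right _ hct)

/-- the same for every instance of the finiteness of the samples -/
theorem comb' (hPR : S_PR) (hFI : S_FI) (hCT : S_CT) (P Λ X : Type) [Fintype P] [Fintype Λ]
    [Fintype X] (L : ℕ)
    (C : ConsSystem P Λ (2 * L)) (M Q A : ℕ) (tr : X → Finset P) (hL : 1 ≤ L) (hM : 1 ≤ M)
    (hQ : 1 ≤ Q) (hA : 8 * (4 * (2 * L) * Q) ≤ A)
    (htr : ∀ α : Finset P,
      (univ.filter fun x => α ⊆ tr x).card * A ^ α.card ≤ Fintype.card X)
    (I : Type) (posI : X → I) (negI : Smp P Λ M Q → I) (inp : Set (I → ℝ))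
    (hraw : ∀ g ∈ inp, ∃ lam : C.T → ℝ,
      Raw C M Q (2 * L) tr ∅ ∅ lam (fun x => g (posI x)) (fun ω => g (negI ω)))
    (l : List (I → ℝ)) (hl : Prog inp l) (f : I → ℝ) (hf : f ∈ l) (θ : ℝ)
    (i2 : Fintype (Smp P Λ M Q)) :
    7 * 8 ^ L * (univ.filter fun x : X => θ ≤ f (posI x)).card ≤
      (7 * l.length + 8 ^ L) * Fintype.card X ∨
    ((@univ _ i2).filter fun ω : Smp P Λ M Q => f (negI ω) < θ).card * 2 ^ M ≤
      l.length * ((Fintype.card P * Fintype.card Λ + 1) ^ (2 * L) *
        @Fintype.card (Smp P Λ M Q) i2) := by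
  have e := comb hPR hFI hCT P Λ X L C M Q A tr hL hM hQ hA htr I posI negI inp hraw l hl f hf θ
  refine e.imp (fun e => e) (fun e => ?_)
  exact le_of_eq_of_le (congrArg (· * 2 ^ M) (cardFU _ _ _ _ _ _ fun _ => Iff.rfl))
    (e.trans (Nat.mul_le_mul_left _ (Nat.mul_le_mul_left _ (le_of_eq (cardFt _ _)))))

theorem t_HO (hCO : S_CO) (hPR : S_PR) (hFI : S_FI) (hCT : S_CT) (hTR : S_TR) : S_HO := by
  intro U E Λ A _ _ _ _ G L M Q F hF hL hM hQ hA I inst inp hinp l hl f hf θ
  obtain ⟨C, hC⟩ := hCO U Λ A (2 * L) F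
  have hA' : 8 * (4 * (2 * L) * Q) ≤ Fintype.card A :=
    le_trans (le_of_eq (by ring)) hA
  have htr := hTR U A
  have hraw : ∀ g ∈ inp, ∃ lam : C.T → ℝ,
      Raw C M Q (2 * L) (fun x : U → A => univ.image fun u => (u, x u)) ∅ ∅ lam
        (fun x => g (inst (hx G x))) (fun ω => g (inst (hT G (marked ω)))) := by
    intro g hg
    rcases hinp g hg with ⟨c, hc⟩ | ⟨c, hc⟩
    · refine ⟨fun _ => c, ?_⟩
      have e1 : (fun x : U → A => g (inst (hx G x))) = fun _ => c := funext fun x => hc _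
      have e2 : (fun ω : Smp (U × A) Λ M Q => g (inst (hT G (marked ω)))) = fun _ => c :=
        funext fun x => hc _
      rw [e1, e2]
      exact raw_const C M Q (2 * L) (fun x : U → A => univ.image fun u => (u, x u)) c
    · obtain ⟨lam, h⟩ := raw_bit G L M Q F hF hL C hC c
      refine ⟨lam, ?_⟩
      have e1 : (fun x : U → A => g (inst (hx G x))) = fun x => if c ∈ hx G x then 1 else 0 :=
        funext fun x => by rw [hc]
      have e2 : (fun ω : Smp (U × A) Λ M Q => g (inst (hT G (marked ω)))) =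
          fun ω => if c ∈ hT G (marked ω) then 1 else 0 :=
        funext fun x => by rw [hc]
      rw [e1, e2]
      exact h
  have key := comb' hPR hFI hCT (U × A) Λ (U → A) L C M Q (Fintype.card A)
    (fun x : U → A => univ.image fun u => (u, x u)) hL hM hQ hA' (fun α => by
      have h := htr α
      rwa [card_filter_inst] at h) I
    (fun x => inst (hx G x)) (fun ω => inst (hT G (marked ω))) inp hraw l hl f hf θ
  rw [Fintype.card_prod U A] at key
  exact key _

end H589DT
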