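import Pool.Agent.H589R3.DT.Props

open scoped Classical
open Finset

namespace H589DT

theorem lo_mem_ein {U E Λ : Type} [Fintype U] [Fintype E] (G : CGraph U E Λ) (S : Finset U)
    (e : E) : e ∈ G.ein S ↔ G.src e ∈ S ∧ G.tgt e ∈ S := by
  unfold CGraph.ein
  simp

theorem lo_ein_mono {U E Λ : Type} [Fintype U] [Fintype E] (G : CGraph U E Λ) {S T : Finset U}
    (h : S ⊆ T) {e : E} (he : e ∈ G.ein S) : e ∈ G.ein T := by
  rw [lo_mem_ein] at he ⊢
  exact ⟨h he.1, h he.2⟩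

theorem t_LO (hXT : S_XT) (hCL : S_CL) : S_LO := by
  intro U E Λ _ _ _ G r h w l hr hh hS hM hG hSp hw
  have hh1 : 1 ≤ h := by omega
  refine ⟨⟨fun S ρ => ∃ (X : Finset U) (τ : U → Λ), S ⊆ X ∧ X.card ≤ 2 * (h + 1) * l ∧
    G.ClosedSet h w X ∧ G.SatOn X τ ∧ ∀ u ∈ S, τ u = ρ u, ?_, ?_, ?_⟩, ?_⟩
  · -- empty
    refine ⟨fun _ => Classical.arbitrary Λ, ∅, fun _ => Classical.arbitrary Λ, le_rfl, by simp, ?_,
      ?_, fun _ _ => rfl⟩
    · intro Z _ hZ
      rw [Finset.card_empty, zero_add] at hZ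
      rw [Finset.empty_union]
      have h1 := hSp Z hZ
      have h2 : Z.card / (2 * h) ≤ Z.card / h := Nat.div_le_div_left (by omega) (by omega)
      omega
    · intro e he
      rw [lo_mem_ein] at he
      exact absurd he.1 (Finset.notMem_empty _)
  · -- mono
    rintro S T ρ hST ⟨X, τ, h1, h2, h3, h4, h5⟩
    exact ⟨X, τ, hST.trans h1, h2, h3, h4, fun u hu => h5 u (hST hu)⟩
  · -- ext
    rintro S T ρ hST hT ⟨X, τ, h1, h2, h3, h4, h5⟩
    have hTl : 2 * (h + 1) * T.card ≤ 2 * (h + 1) * l := Nat.mul_le_mul_left _ hT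
    have hw2 : 2 * (h + 1) * l + 2 * (h + 1) * l ≤ w := by
      have : 2 * (h + 1) * l + 2 * (h + 1) * l = 4 * (h + 1) * l := by ring
      omega
    obtain ⟨X', hX1, hX2, hX3⟩ := hCL U E Λ G h w hh1 hSp T (by omega)
    obtain ⟨τ', ht1, ht2⟩ := hXT U E Λ G r h hr hh hS hM hG X (X' \ X) disjoint_sdiff (by
      intro Z hZ
      apply h3 Z (Finset.disjoint_of_subset_right hZ disjoint_sdiff)
      have h6 : Z.card ≤ X'.card := Finset.card_le_card (hZ.trans Finset.sdiff_subset)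
      omega) τ h4
    refine ⟨τ', fun u hu => (ht1 u (h1 hu)).trans (h5 u hu), X', τ', hX1, by omega, hX3, ?_,
      fun _ _ => rfl⟩
    intro e he
    apply ht2 e
    apply lo_ein_mono G _ he
    intro u hu
    rw [Finset.mem_union, Finset.mem_sdiff]
    by_cases hx : u ∈ X
    · exact Or.inl hx
    · exact Or.inr ⟨hu, hx⟩
  · -- conclusion
    rintro S ρ ⟨X, τ, h1, h2, h3, h4, h5⟩ e he
    have h6 := h4 e (lo_ein_mono G h1 he)
    rw [lo_mem_ein] at he
    unfold CGraph.SatE at h6 ⊢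
    rw [h5 _ he.1, h5 _ he.2] at h6
    exact h6

end H589DT
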