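import Pool.Agent.H589R3.DT.Props

/-! # All gates of a circuit are approximated -/

open scoped Classical
open Finset

namespace H589DT

open H630VC (Prog marked)

section

variable {P Λ X : Type} [Fintype P] [Fintype Λ] [Fintype X]

/-- a closed level function is monotone -/
theorem closedLev_mono {l M Q : ℕ} {C : ConsSystem P Λ l} {lam : C.T → ℝ}
    (hc : ClosedLev C M Q lam) {β β' : C.T} (h : β.1 ⊆ β'.1) : lam β ≤ lam β' := by
  refine hc β' (lam β) ?_
  have h0 : (univ.filter fun ω : Smp P Λ M Q => ¬ ∃ β1 : C.T, β1.1 ⊆ β'.1 ∪ marked ω ∧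
      lam β ≤ lam β1) = ∅ := by
    apply filter_eq_empty_iff.2
    intro ω _ h'
    exact h' ⟨β, h.trans subset_union_left, le_rfl⟩
  rw [h0]
  simp

theorem raw_mono {l M Q k : ℕ} {C : ConsSystem P Λ l} {tr : X → Finset P}
    {badP badP' : Finset X} {badN badN' : Finset (Smp P Λ M Q)} {lam : C.T → ℝ} {fp : X → ℝ}
    {fn : Smp P Λ M Q → ℝ} (h : Raw C M Q k tr badP badN lam fp fn) (hP : badP ⊆ badP')
    (hN : badN ⊆ badN') : Raw C M Q k tr badP' badN' lam fp fn :=
  ⟨fun x hx => h.1 x fun h' => hx (hP h'), fun ω hω => h.2 ω fun h' => hω (hN h')⟩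

theorem approx_mono {l M Q k : ℕ} {C : ConsSystem P Λ l} {tr : X → Finset P}
    {badP badP' : Finset X} {badN badN' : Finset (Smp P Λ M Q)} {fp : X → ℝ}
    {fn : Smp P Λ M Q → ℝ} (h : Approx C M Q k tr badP badN fp fn) (hP : badP ⊆ badP')
    (hN : badN ⊆ badN') : Approx C M Q k tr badP' badN' fp fn := by
  obtain ⟨lam, h1, h2⟩ := h
  exact ⟨lam, h1, raw_mono h2 hP hN⟩

/-- one more gate -/
theorem pr_step (hST : S_ST) {L : ℕ} (C : ConsSystem P Λ (2 * L)) (M Q A : ℕ)
    (tr : X → Finset P) (hL : 1 ≤ L) (hM : 1 ≤ M) (hQ : 1 ≤ Q)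
    (hA : 8 * (4 * (2 * L) * Q) ≤ A)
    (htr : ∀ α : Finset P, (univ.filter fun x => α ⊆ tr x).card * A ^ α.card ≤ Fintype.card X)
    {I : Type} (posI : X → I) (negI : Smp P Λ M Q → I) (l : List (I → ℝ)) (f : I → ℝ)
    (badP : Finset X) (badN : Finset (Smp P Λ M Q))
    (h1 : badP.card * 8 ^ L ≤ l.length * Fintype.card X)
    (h2 : badN.card * 2 ^ M ≤ l.length * (Fintype.card C.T * Fintype.card (Smp P Λ M Q)))
    (h3 : ∀ f ∈ l, Approx C M Q L tr badP badN (fun x => f (posI x)) (fun ω => f (negI ω)))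
    (lam : C.T → ℝ) (hraw : Raw C M Q (2 * L) tr badP badN lam (fun x => f (posI x))
      (fun ω => f (negI ω))) :
    ∃ (badP : Finset X) (badN : Finset (Smp P Λ M Q)),
      badP.card * 8 ^ L ≤ (f :: l).length * Fintype.card X ∧
      badN.card * 2 ^ M ≤ (f :: l).length * (Fintype.card C.T * Fintype.card (Smp P Λ M Q)) ∧
      ∀ g ∈ f :: l, Approx C M Q L tr badP badN (fun x => g (posI x)) (fun ω => g (negI ω)) := by
  obtain ⟨newP, newN, g1, g2, g3⟩ := hST P Λ X L C M Q A tr hL hM hQ hA htr badP badN lam _ _ hraw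
  refine ⟨badP ∪ newP, badN ∪ newN, ?_, ?_, ?_⟩
  · calc _ ≤ (badP.card + newP.card) * 8 ^ L := Nat.mul_le_mul_right _ (card_union_le _ _)
      _ = badP.card * 8 ^ L + newP.card * 8 ^ L := by ring
      _ ≤ l.length * Fintype.card X + Fintype.card X := Nat.add_le_add h1 g1
      _ = _ := by rw [List.length_cons]; ring
  · calc _ ≤ (badN.card + newN.card) * 2 ^ M := Nat.mul_le_mul_right _ (card_union_le _ _)
      _ = badN.card * 2 ^ M + newN.card * 2 ^ M := by ring
      _ ≤ l.length * (Fintype.card C.T * Fintype.card (Smp P Λ M Q)) +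
          Fintype.card C.T * Fintype.card (Smp P Λ M Q) := Nat.add_le_add h2 g2
      _ = _ := by rw [List.length_cons]; ring
  · intro g hg
    rcases List.mem_cons.1 hg with rfl | hg
    · exact g3
    · exact approx_mono (h3 g hg) subset_union_left subset_union_left

/-- levels of unions -/
theorem lev_union {L M Q : ℕ} {C : ConsSystem P Λ (2 * L)} {lam : C.T → ℝ}
    (hc : ClosedLev C M Q lam) {α1 α : Finset P} {θ : ℝ} (h : Lev C lam α1 θ) (hα : α1 ⊆ α) :
    Lev C lam α θ := by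
  intro β hβ
  have hsub : (β.1.filter fun q => q.1 ∈ α1) ⊆ β.1 := filter_subset _ _
  have hcons := C.mono _ _ hsub β.2
  refine (h ⟨_, hcons⟩ ?_).trans (closedLev_mono hc (β := ⟨_, hcons⟩) hsub)
  ext p
  simp only [pos, mem_image, mem_filter]
  constructor
  · rintro ⟨q, ⟨_, h2⟩, rfl⟩
    exact h2
  · intro hp
    have hp' : p ∈ pos β.1 := by rw [hβ]; exact hα hp
    obtain ⟨q, hq, rfl⟩ := mem_image.1 hp'
    exact ⟨q, ⟨hq, hp⟩, rfl⟩

end

theorem t_PR (hST : S_ST) : S_PR := by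
  intro P Λ X _ _ _ L C M Q A tr hL hM hQ hA htr I posI negI inp hinp l hl
  induction hl with
  | nil => exact ⟨∅, ∅, by simp, by simp, by simp⟩
  | @input l f hp hf ih =>
    obtain ⟨badP, badN, h1, h2, h3⟩ := ih
    obtain ⟨lam, hlam⟩ := hinp f hf
    exact pr_step hST C M Q A tr hL hM hQ hA htr posI negI l f badP badN h1 h2 h3 lam
      (raw_mono hlam (empty_subset _) (empty_subset _))
  | @gate l φ f1 f2 hp hφ hf1 hf2 ih =>
    obtain ⟨badP, badN, h1, h2, h3⟩ := ih
    obtain ⟨lam1, hc1, hp1, hn1⟩ := h3 f1 hf1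
    obtain ⟨lam2, hc2, hp2, hn2⟩ := h3 f2 hf2
    refine pr_step hST C M Q A tr hL hM hQ hA htr posI negI l _ badP badN h1 h2 h3
      (fun β => φ (lam1 β) (lam2 β)) ⟨?_, ?_⟩
    · intro x hx
      obtain ⟨α1, a1, a2, a3⟩ := hp1 x hx
      obtain ⟨α2, b1, b2, b3⟩ := hp2 x hx
      refine ⟨α1 ∪ α2, union_subset a1 b1, (card_union_le _ _).trans (by omega), ?_⟩
      intro β hβ
      exact hφ _ _ _ _ (lev_union hc1 a3 subset_union_left β hβ)
        (lev_union hc2 b3 subset_union_right β hβ)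
    · intro ω hω β hβ
      exact hφ _ _ _ _ (hn1 ω hω β hβ) (hn2 ω hω β hβ)

end H589DT
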