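import Pool.Agent.H589R3.DT.Defs

/-! # The statements of the tasks (each `S_XX : Prop` is proved in the file `XX.lean`) -/

open scoped Classical
open Finset

namespace H589DT

open H630VC (Prog marked)

/-- EX: sparse bipartite graphs with right degree `D` (first moment method) -/
def S_EX : Prop := ∀ D h g : ℕ, 1 ≤ h → ∃ n0 : ℕ, ∀ n : ℕ, n0 ≤ n →
  ∃ (φ : Fin n → Fin D → Fin n) (B : Finset (Fin n)), 2 * B.card ≤ n ∧
    (∀ S : Finset (Fin n ⊕ Fin n), S.card ^ 2 ≤ n → (einφ φ B S).card ≤ S.card + S.card / h) ∧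
    ∀ S : Finset (Fin n ⊕ Fin n), S.Nonempty → S.card ≤ g → (einφ φ B S).card < S.card

/-- SH: shifts such that every labelling satisfies fewer than `K` constraints (union bound) -/
def S_SH : Prop := ∀ (n D p d K : ℕ), 1 ≤ p → ∀ (φ : Fin n → Fin D → Fin n) (B : Finset (Fin n)),
  (d * p ^ 2) ^ n * 2 ^ (D * n) < p ^ K →
  ∃ s : Fin n → Fin D → ZMod p, ∀ (x : Fin n → ZMod p × Fin d) (y : Fin n → ZMod p),
    (univ.filter fun e : Fin n × Fin D => e.1 ∉ B ∧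
      (x e.1).1 - ((e.2 : ℕ) : ZMod p) * (((x e.1).2 : ℕ) : ZMod p) + s e.1 e.2
        = y (φ e.1 e.2)).card < K

/-- MX: long nonbacktracking walks do not restrict the labels of their ends -/
def S_MX : Prop := ∀ (n D p d : ℕ), p.Prime → D ≤ p → 2 ≤ d →
  ∀ (φ : Fin n → Fin D → Fin n) (B : Finset (Fin n)) (s : Fin n → Fin D → ZMod p),
    (gameGraph (d := d) φ B s).Mixing (2 * (d * p) + 4)

/-- WD: a long walk through vertices of degree two (counting darts) -/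
def S_WD : Prop := ∀ (U E Λ : Type) [Fintype U] [Fintype E] (G : CGraph U E Λ) (r h : ℕ)
  (X Y : Finset U), 1 ≤ r → 3 * r ≤ h → Disjoint X Y → Y.Nonempty →
  (G.ein (X ∪ Y)).card ≤ (G.ein X).card + (Y.card + Y.card / h) →
  (∀ y ∈ Y, 2 ≤ ((G.ein (X ∪ Y)).filter fun e => G.Inc e y).card) →
  ∃ (u : ℕ → U) (e : ℕ → E),
    (∀ k ≤ r, e k ∈ G.ein (X ∪ Y) ∧ G.Joins (e k) (u k) (u (k + 1))) ∧
    (∀ k < r, e k ≠ e (k + 1)) ∧
    ∀ k, 1 ≤ k → k ≤ r → u k ∈ Y ∧ ∀ f ∈ G.ein (X ∪ Y), G.Inc f (u k) → f = e (k - 1) ∨ f = e k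

/-- WI: a nonbacktracking walk in a graph of large girth does not return soon -/
def S_WI : Prop := ∀ (U E Λ : Type) [Fintype U] [Fintype E] (G : CGraph U E Λ) (r : ℕ),
  G.Girth r → ∀ (u : ℕ → U) (e : ℕ → E), (∀ k ≤ r, G.Joins (e k) (u k) (u (k + 1))) →
  (∀ k < r, e k ≠ e (k + 1)) → ∀ k l, k < l → l ≤ r + 1 → l ≤ k + r → u k ≠ u l

/-- XT: the extension lemma -/
def S_XT : Prop := ∀ (U E Λ : Type) [Fintype U] [Fintype E] [Nonempty Λ] (G : CGraph U E Λ)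
  (r h : ℕ), 1 ≤ r → 3 * r ≤ h → G.Surj → G.Mixing r → G.Girth r → ∀ X Y : Finset U, Disjoint X Y →
  (∀ Z ⊆ Y, (G.ein (X ∪ Z)).card ≤ (G.ein X).card + (Z.card + Z.card / h)) →
  ∀ τ : U → Λ, G.SatOn X τ → ∃ τ' : U → Λ, (∀ u ∈ X, τ' u = τ u) ∧ G.SatOn (X ∪ Y) τ'

/-- CL: every small set is contained in a small closed set -/
def S_CL : Prop := ∀ (U E Λ : Type) [Fintype U] [Fintype E] (G : CGraph U E Λ) (h w : ℕ),
  1 ≤ h → G.Sparse (2 * h) w → ∀ S : Finset U, 2 * (h + 1) * S.card ≤ w →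
  ∃ X : Finset U, S ⊆ X ∧ X.card ≤ 2 * (h + 1) * S.card ∧ G.ClosedSet h w X

/-- LO: locally consistent labellings -/
def S_LO : Prop := ∀ (U E Λ : Type) [Fintype U] [Fintype E] [Nonempty Λ] (G : CGraph U E Λ)
  (r h w l : ℕ), 1 ≤ r → 3 * r ≤ h → G.Surj → G.Mixing r → G.Girth r → G.Sparse (2 * h) w →
  4 * (h + 1) * l ≤ w → ∃ F : Local U Λ l, ∀ S ρ, F.C S ρ → G.SatOn S ρ

/-- CO: from consistent labellings of the vertices to those of the copies of the vertices -/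
def S_CO : Prop := ∀ (U Λ A : Type) (l : ℕ) (F : Local U Λ l), ∃ C : ConsSystem (U × A) Λ l,
  ∀ β, C.Cons β → ∃ ρ, F.C (β.image fun q => q.1.1) ρ ∧ ∀ q ∈ β, q.2 = ρ q.1.1

/-- CC: a closed level function has few critical sets of each size -/
def S_CC : Prop := ∀ (P Λ : Type) [Fintype P] [Fintype Λ] (l : ℕ) (C : ConsSystem P Λ l)
  (M Q : ℕ), 1 ≤ l → 1 ≤ Q → ∀ lam : C.T → ℝ, ClosedLev C M Q lam → ∀ j ≤ l,
  (univ.filter fun α : Finset P => CritSet C lam α ∧ α.card = j).card ≤ (4 * l * Q) ^ j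

/-- ST: one step of the approximation -/
def S_ST : Prop := ∀ (P Λ X : Type) [Fintype P] [Fintype Λ] [Fintype X] (L : ℕ)
  (C : ConsSystem P Λ (2 * L)) (M Q A : ℕ) (tr : X → Finset P), 1 ≤ L → 1 ≤ M → 1 ≤ Q →
  8 * (4 * (2 * L) * Q) ≤ A →
  (∀ α : Finset P, (univ.filter fun x => α ⊆ tr x).card * A ^ α.card ≤ Fintype.card X) →
  ∀ (badP : Finset X) (badN : Finset (Smp P Λ M Q)) (lam : C.T → ℝ) (fp : X → ℝ)
    (fn : Smp P Λ M Q → ℝ), Raw C M Q (2 * L) tr badP badN lam fp fn →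
  ∃ (newP : Finset X) (newN : Finset (Smp P Λ M Q)),
    newP.card * 8 ^ L ≤ Fintype.card X ∧
    newN.card * 2 ^ M ≤ Fintype.card C.T * Fintype.card (Smp P Λ M Q) ∧
    Approx C M Q L tr (badP ∪ newP) (badN ∪ newN) fp fn

/-- PR: all gates of a circuit are approximated -/
def S_PR : Prop := ∀ (P Λ X : Type) [Fintype P] [Fintype Λ] [Fintype X] (L : ℕ)
  (C : ConsSystem P Λ (2 * L)) (M Q A : ℕ) (tr : X → Finset P), 1 ≤ L → 1 ≤ M → 1 ≤ Q →
  8 * (4 * (2 * L) * Q) ≤ A →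
  (∀ α : Finset P, (univ.filter fun x => α ⊆ tr x).card * A ^ α.card ≤ Fintype.card X) →
  ∀ (I : Type) (posI : X → I) (negI : Smp P Λ M Q → I) (inp : Set (I → ℝ)),
  (∀ g ∈ inp, ∃ lam : C.T → ℝ,
    Raw C M Q (2 * L) tr ∅ ∅ lam (fun x => g (posI x)) (fun ω => g (negI ω))) →
  ∀ l : List (I → ℝ), Prog inp l →
  ∃ (badP : Finset X) (badN : Finset (Smp P Λ M Q)),
    badP.card * 8 ^ L ≤ l.length * Fintype.card X ∧
    badN.card * 2 ^ M ≤ l.length * (Fintype.card C.T * Fintype.card (Smp P Λ M Q)) ∧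
    ∀ f ∈ l, Approx C M Q L tr badP badN (fun x => f (posI x)) (fun ω => f (negI ω))

/-- FI: an approximated function is small on most positive tests or large on most negative tests -/
def S_FI : Prop := ∀ (P Λ X : Type) [Fintype P] [Fintype Λ] [Fintype X] (L : ℕ)
  (C : ConsSystem P Λ (2 * L)) (M Q A : ℕ) (tr : X → Finset P), 1 ≤ L → 1 ≤ Q →
  8 * (4 * (2 * L) * Q) ≤ A →
  (∀ α : Finset P, (univ.filter fun x => α ⊆ tr x).card * A ^ α.card ≤ Fintype.card X) →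
  ∀ (badP : Finset X) (badN : Finset (Smp P Λ M Q)) (fp : X → ℝ)
    (fn : Smp P Λ M Q → ℝ), Approx C M Q L tr badP badN fp fn → ∀ θ : ℝ,
  7 * (univ.filter fun x => θ ≤ fp x).card ≤ 7 * badP.card + Fintype.card X ∨
    ∀ ω, ω ∉ badN → θ ≤ fn ω

/-- NC: conflicts are rare -/
def S_NC : Prop := ∀ (P Λ : Type) [Fintype P] [Fintype Λ] (M Q : ℕ), 1 ≤ Q →
  (univ.filter fun ω : Smp P Λ M Q => ¬ NoConflict (marked ω)).card * Q ^ 2 ≤
    Fintype.card P * Fintype.card Λ ^ 2 * M ^ 2 * Fintype.card (Smp P Λ M Q)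

/-- CT: the number of consistent sets -/
def S_CT : Prop := ∀ (P Λ : Type) [Fintype P] [Fintype Λ] (l : ℕ) (C : ConsSystem P Λ l),
  Fintype.card C.T ≤ (Fintype.card P * Fintype.card Λ + 1) ^ l

/-- TR: few transversals contain a given set -/
def S_TR : Prop := ∀ (U A : Type) [Fintype U] [Fintype A] (α : Finset (U × A)),
  (univ.filter fun x : U → A => α ⊆ univ.image fun u => (u, x u)).card * Fintype.card A ^ α.card ≤
    Fintype.card (U → A)

/-- HO: the lower bound for circuits that read the host constraints -/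
def S_HO : Prop := ∀ (U E Λ A : Type) [Fintype U] [Fintype E] [Fintype Λ] [Fintype A]
  (G : CGraph U E Λ) (L M Q : ℕ) (F : Local U Λ (2 * L)), (∀ S ρ, F.C S ρ → G.SatOn S ρ) →
  1 ≤ L → 1 ≤ M → 1 ≤ Q → 64 * L * Q ≤ Fintype.card A →
  ∀ (I : Type) (inst : Finset (E × A × A) → I) (inp : Set (I → ℝ)), HostInputs inst inp →
  ∀ l : List (I → ℝ), Prog inp l → ∀ f ∈ l, ∀ θ : ℝ,
  7 * 8 ^ L * (univ.filter fun x : U → A => θ ≤ f (inst (hx G x))).card ≤
      (7 * l.length + 8 ^ L) * Fintype.card (U → A) ∨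
    (univ.filter fun ω : Smp (U × A) Λ M Q => f (inst (hT G (marked ω))) < θ).card * 2 ^ M ≤
      l.length * ((Fintype.card U * Fintype.card A * Fintype.card Λ + 1) ^ (2 * L) *
        Fintype.card (Smp (U × A) Λ M Q))

end H589DT
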