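import Mathlib
import Pool.Agent.H589R3.DT.Props

/-! Task SH: random shifts give small value, by a union bound (helper226). -/

open scoped Classical
open Finset

namespace H589DT

namespace SH

theorem card_fix {E : Type} [Fintype E] {p : ℕ} [NeZero p] (T : Finset E) (f : E → ZMod p) :
    (Fintype.piFinset (fun e => if e ∈ T then ({f e} : Finset (ZMod p)) else univ)).card =
      p ^ (Fintype.card E - T.card) := by
  rw [Fintype.card_piFinset]
  have h : ∀ e, (if e ∈ T then ({f e} : Finset (ZMod p)) else univ).card =
      if e ∈ T then 1 else p := by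
    intro e
    split_ifs
    · simp
    · simp [ZMod.card]
  simp only [h]
  rw [Finset.prod_ite, Finset.prod_const_one, one_mul, Finset.prod_const]
  congr 1
  rw [Finset.filter_not, Finset.filter_mem_eq_inter, Finset.univ_inter,
    Finset.card_sdiff_of_subset (Finset.subset_univ _), Finset.card_univ]

end SH

open SH

theorem t_SH : S_SH := by
  intro n D p d K hp φ B h
  have : NeZero p := ⟨by omega⟩
  by_contra hcon
  push Not at hcon
  set f : (Fin n → ZMod p × Fin d) → (Fin n → ZMod p) → (Fin n × Fin D) → ZMod p :=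
    fun x y e => y (φ e.1 e.2) - ((x e.1).1 - ((e.2 : ℕ) : ZMod p) * (((x e.1).2 : ℕ) : ZMod p))
    with hf
  -- the cover of the set of all shifts
  set I : Finset ((Fin n → ZMod p × Fin d) × (Fin n → ZMod p) × Finset (Fin n × Fin D)) :=
    univ ×ˢ (univ ×ˢ powersetCard K univ) with hI
  set F : ((Fin n → ZMod p × Fin d) × (Fin n → ZMod p) × Finset (Fin n × Fin D)) →
      Finset ((Fin n × Fin D) → ZMod p) := fun q =>
    Fintype.piFinset (fun e => if e ∈ q.2.2 then ({f q.1 q.2.1 e} : Finset (ZMod p)) else univ)
    with hF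
  have hcov : (univ : Finset ((Fin n × Fin D) → ZMod p)) ⊆ I.biUnion F := by
    intro s _
    obtain ⟨x, y, hxy⟩ := hcon fun w i => s (w, i)
    obtain ⟨T, hT, hTc⟩ := Finset.exists_subset_card_eq hxy
    rw [Finset.mem_biUnion]
    refine ⟨(x, y, T), ?_, ?_⟩
    · rw [hI]
      simp only [Finset.mem_product, Finset.mem_univ, true_and, Finset.mem_powersetCard]
      exact ⟨Finset.subset_univ _, hTc⟩
    · rw [hF]
      simp only [Fintype.mem_piFinset]
      intro e
      split_ifs with he
      · have h1 := hT he
        rw [Finset.mem_filter] at h1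
        rw [Finset.mem_singleton, hf]
        have h2 := h1.2.2
        simp only at h2 ⊢
        rw [← h2]
        ring
      · exact Finset.mem_univ _
  have hFc : ∀ q ∈ I, (F q).card ≤ p ^ (n * D - K) := by
    intro q hq
    rw [hI] at hq
    simp only [Finset.mem_product, Finset.mem_univ, true_and, Finset.mem_powersetCard] at hq
    have h0 := card_fix q.2.2 (f q.1 q.2.1)
    rw [hq.2, Fintype.card_prod, Fintype.card_fin, Fintype.card_fin] at h0
    rw [← h0, hF]
    apply le_of_eq
    congr 1
    ext g
    simp only [Fintype.mem_piFinset]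
    refine forall_congr' fun a => ?_
    by_cases ha : a ∈ q.2.2
    · rw [if_pos ha, if_pos ha]
    · rw [if_neg ha, if_neg ha]
  have h1 : (univ : Finset ((Fin n × Fin D) → ZMod p)).card ≤ I.card * p ^ (n * D - K) :=
    (Finset.card_le_card hcov).trans (Finset.card_biUnion_le_card_mul _ _ _ hFc)
  have h2 : (univ : Finset ((Fin n × Fin D) → ZMod p)).card = p ^ (n * D) := by
    rw [Finset.card_univ, Fintype.card_fun, ZMod.card, Fintype.card_prod, Fintype.card_fin,
      Fintype.card_fin]
  have h3 : I.card ≤ (d * p ^ 2) ^ n * 2 ^ (D * n) := by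
    rw [hI, Finset.card_product, Finset.card_product, Finset.card_univ, Finset.card_univ,
      Fintype.card_fun, Fintype.card_fun, Fintype.card_prod, ZMod.card, Fintype.card_fin,
      Fintype.card_fin]
    have h4 : (powersetCard K (univ : Finset (Fin n × Fin D))).card ≤ 2 ^ (D * n) := by
      refine (Finset.card_le_card (Finset.subset_univ _)).trans (le_of_eq ?_)
      rw [Finset.card_univ, Fintype.card_finset, Fintype.card_prod, Fintype.card_fin,
        Fintype.card_fin, mul_comm]
    calc (p * d) ^ n * (p ^ n * (powersetCard K (univ : Finset (Fin n × Fin D))).card)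
        ≤ (p * d) ^ n * (p ^ n * 2 ^ (D * n)) := by gcongr
      _ = (d * p ^ 2) ^ n * 2 ^ (D * n) := by
        rw [← mul_assoc, ← mul_pow]
        congr 2
        ring
  -- `K ≤ n * D`
  have hK : K ≤ n * D := by
    obtain ⟨x, y, hxy⟩ := hcon fun _ _ => 0
    refine hxy.trans ((Finset.card_le_card (Finset.filter_subset _ _)).trans (le_of_eq ?_))
    rw [Finset.card_univ, Fintype.card_prod, Fintype.card_fin, Fintype.card_fin]
  have hpos : 0 < p ^ (n * D - K) := Nat.pow_pos (by omega)
  have h5 : p ^ (n * D) < p ^ (n * D) := by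
    calc p ^ (n * D) ≤ I.card * p ^ (n * D - K) := by rw [← h2]; exact h1
      _ ≤ ((d * p ^ 2) ^ n * 2 ^ (D * n)) * p ^ (n * D - K) := Nat.mul_le_mul_right _ h3
      _ < p ^ K * p ^ (n * D - K) := Nat.mul_lt_mul_of_pos_right h hpos
      _ = p ^ (n * D) := by rw [← pow_add]; congr 1; omega
  exact lt_irrefl _ h5

end H589DT
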