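import Pool.Agent.H589R3.DT.Props
import Pool.Agent.H630VC.Closure

/-! # One step of the approximation -/

open scoped Classical
open Finset

namespace H589DT

open H630VC (Prog marked)

theorem card_filter_dec {α : Type} (s : Finset α) (p : α → Prop) (h1 h2 : DecidablePred p) :
    (@filter α p h1 s).card = (@filter α p h2 s).card := by
  have : h1 = h2 := Subsingleton.elim _ _
  rw [this]

section

variable {P Λ X : Type} [Fintype P] [Fintype Λ] [Fintype X]

/-- few positive tests contain a critical set of given size -/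
theorem card_crit_tr (hCC : S_CC) {L : ℕ} (C : ConsSystem P Λ (2 * L)) (M Q A : ℕ)
    (tr : X → Finset P) (hL : 1 ≤ L) (hQ : 1 ≤ Q) (hA : 8 * (4 * (2 * L) * Q) ≤ A)
    (htr : ∀ α : Finset P, (univ.filter fun x => α ⊆ tr x).card * A ^ α.card ≤ Fintype.card X)
    (lam : C.T → ℝ) (hc : ClosedLev C M Q lam) (j : ℕ) (hj : j ≤ 2 * L) :
    (univ.filter fun x => ∃ α, α ⊆ tr x ∧ CritSet C lam α ∧ α.card = j).card * 8 ^ j
      ≤ Fintype.card X := by
  set K : ℕ := 4 * (2 * L) * Q with hK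
  have hKpos : 0 < K := by positivity
  have hWK : ∀ j ≤ 2 * L, (univ.filter fun α : Finset P => CritSet C lam α ∧ α.card = j).card
      ≤ K ^ j := fun j hj => hCC P Λ (2 * L) C M Q (by omega) hQ lam hc j hj
  clear_value K
  set W : Finset (Finset P) := univ.filter fun α : Finset P => CritSet C lam α ∧ α.card = j
    with hW
  have hWc : W.card ≤ K ^ j := hWK j hj
  have h1 : (univ.filter fun x => ∃ α, α ⊆ tr x ∧ CritSet C lam α ∧ α.card = j) ⊆
      W.biUnion fun α => univ.filter fun x => α ⊆ tr x := by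
    intro x hx
    obtain ⟨α, h2, h3, h4⟩ := (mem_filter.1 hx).2
    exact mem_biUnion.2 ⟨α, mem_filter.2 ⟨mem_univ _, h3, h4⟩, mem_filter.2 ⟨mem_univ _, h2⟩⟩
  have h2 : (W.biUnion fun α => univ.filter fun x => α ⊆ tr x).card * A ^ j
      ≤ K ^ j * Fintype.card X := by
    calc _ ≤ (∑ α ∈ W, (univ.filter fun x => α ⊆ tr x).card) * A ^ j :=
          Nat.mul_le_mul_right _ card_biUnion_le
      _ = ∑ α ∈ W, (univ.filter fun x => α ⊆ tr x).card * A ^ j := by rw [Finset.sum_mul]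
      _ ≤ ∑ α ∈ W, Fintype.card X := by
          refine Finset.sum_le_sum fun α hα => ?_
          have := htr α
          rwa [(mem_filter.1 hα).2.2] at this
      _ = W.card * Fintype.card X := by simp
      _ ≤ _ := Nat.mul_le_mul_right _ hWc
  have h3 : (univ.filter fun x => ∃ α, α ⊆ tr x ∧ CritSet C lam α ∧ α.card = j).card * (8 * K) ^ j
      ≤ K ^ j * Fintype.card X :=
    (Nat.mul_le_mul (card_le_card h1) (Nat.pow_le_pow_left hA j)).trans h2
  have h4 : K ^ j * ((univ.filter fun x => ∃ α, α ⊆ tr x ∧ CritSet C lam α ∧ α.card = j).card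
      * 8 ^ j) ≤ K ^ j * Fintype.card X := by
    refine le_trans (le_of_eq ?_) h3
    rw [mul_pow]; ring
  exact Nat.le_of_mul_le_mul_left h4 (by positivity)

omit [Fintype P] [Fintype Λ] [Fintype X] in
/-- a minimal subset is critical -/
theorem exists_crit {l : ℕ} {C : ConsSystem P Λ l} {lam : C.T → ℝ} {α : Finset P} {θ : ℝ}
    (h : Lev C lam α θ) : ∃ α', α' ⊆ α ∧ Lev C lam α' θ ∧ CritSet C lam α' := by
  have hne : (α.powerset.filter fun α' => Lev C lam α' θ).Nonempty :=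
    ⟨α, mem_filter.2 ⟨mem_powerset_self α, h⟩⟩
  obtain ⟨α', h1, h2⟩ := Finset.exists_min_image _ Finset.card hne
  obtain ⟨h3, h4⟩ := mem_filter.1 h1
  refine ⟨α', mem_powerset.1 h3, h4, θ, h4, fun α'' h5 h6 => ?_⟩
  have h7 := h2 α'' (mem_filter.2 ⟨mem_powerset.2 (h5.1.trans (mem_powerset.1 h3)), h6⟩)
  have h8 := card_lt_card h5
  omega

/-- the closure operator for level functions -/
theorem exists_closedLev {l : ℕ} (C : ConsSystem P Λ l) (M Q : ℕ) (hM : 1 ≤ M) (hQ : 1 ≤ Q)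
    (lam : C.T → ℝ) : ∃ lam' : C.T → ℝ, (∀ β, lam β ≤ lam' β) ∧ ClosedLev C M Q lam' ∧
      (univ.filter fun ω : Smp P Λ M Q => ∃ β : C.T, β.1 ⊆ marked ω ∧
        ∀ β' : C.T, β'.1 ⊆ marked ω → lam β' < lam' β).card * 2 ^ M
        ≤ Fintype.card C.T * Fintype.card (Smp P Λ M Q) := by
  have hpos : 0 < Fintype.card (Smp P Λ M Q) := by
    have : NeZero Q := ⟨by omega⟩
    exact Fintype.card_pos
  obtain ⟨lam', h1, h2, h3⟩ := H630VC.exists_closure (Ω := Smp P Λ M Q) (S := C.T)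
    (fun ω β0 β => β.1 ⊆ β0.1 ∪ marked ω) (fun ω β => β.1 ⊆ marked ω)
    (fun ω β0 β h h' q hq => by
      rcases mem_union.1 (h' hq) with h4 | h4
      · exact h h4
      · exact h4) (Fintype.card (Smp P Λ M Q) / 2 ^ M)
    (Nat.div_lt_self hpos (Nat.one_lt_two_pow (by omega))) lam
  refine ⟨lam', h1, ?_, ?_⟩
  · intro β0 θ hβ0
    apply h2
    rw [Nat.le_div_iff_mul_le (by positivity)]
    rw [card_filter_dec _ _ _ (fun ω => Classical.propDecidable _)] at hβ0 ⊢
    exact hβ0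
  · have h4 : (univ.filter fun ω : Smp P Λ M Q => ∃ β : C.T, β.1 ⊆ marked ω ∧
        ∀ β' : C.T, β'.1 ⊆ marked ω → lam β' < lam' β).card ≤
        Fintype.card C.T * (Fintype.card (Smp P Λ M Q) / 2 ^ M) := by
      rw [card_filter_dec _ _ _ (fun ω => Classical.propDecidable _)] at h3 ⊢
      exact h3
    calc _ ≤ (Fintype.card C.T * (Fintype.card (Smp P Λ M Q) / 2 ^ M)) * 2 ^ M :=
          Nat.mul_le_mul_right _ h4
      _ = Fintype.card C.T * (Fintype.card (Smp P Λ M Q) / 2 ^ M * 2 ^ M) := by ring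
      _ ≤ Fintype.card C.T * Fintype.card (Smp P Λ M Q) :=
          Nat.mul_le_mul_left _ (Nat.div_mul_le_self _ _)

end

theorem t_ST (hCC : S_CC) : S_ST := by
  intro P Λ X _ _ _ L C M Q A tr hL hM hQ hA htr badP badN lam fp fn hraw
  obtain ⟨lam', h1, h2, h3⟩ := exists_closedLev C M Q hM hQ lam
  refine ⟨univ.filter fun x => ∃ α, α ⊆ tr x ∧ CritSet C lam' α ∧ L < α.card ∧ α.card ≤ 2 * L,
    univ.filter fun ω : Smp P Λ M Q => ∃ β : C.T, β.1 ⊆ marked ω ∧
      ∀ β' : C.T, β'.1 ⊆ marked ω → lam β' < lam' β, ?_, h3, lam', h2, ?_, ?_⟩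
  · have hsub : (univ.filter fun x => ∃ α, α ⊆ tr x ∧ CritSet C lam' α ∧ L < α.card ∧
        α.card ≤ 2 * L) ⊆ (Finset.Ico 1 (L + 1)).biUnion fun i =>
          univ.filter fun x => ∃ α, α ⊆ tr x ∧ CritSet C lam' α ∧ α.card = L + i := by
      intro x hx
      obtain ⟨α, g1, g2, g3, g4⟩ := (mem_filter.1 hx).2
      refine mem_biUnion.2 ⟨α.card - L, mem_Ico.2 ⟨by omega, by omega⟩,
        mem_filter.2 ⟨mem_univ _, α, g1, g2, by omega⟩⟩
    have hkey : ∀ i ∈ Finset.Ico 1 (L + 1),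
        (univ.filter fun x => ∃ α, α ⊆ tr x ∧ CritSet C lam' α ∧ α.card = L + i).card * 8 ^ L
          ≤ Fintype.card X / 8 ^ i := by
      intro i hi
      rw [mem_Ico] at hi
      have := card_crit_tr hCC C M Q A tr hL hQ hA htr lam' h2 (L + i) (by omega)
      rw [Nat.le_div_iff_mul_le (by positivity), mul_assoc, ← pow_add]
      exact this
    calc _ ≤ (∑ i ∈ Finset.Ico 1 (L + 1),
          (univ.filter fun x => ∃ α, α ⊆ tr x ∧ CritSet C lam' α ∧ α.card = L + i).card) * 8 ^ L :=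
          Nat.mul_le_mul_right _ ((card_le_card hsub).trans card_biUnion_le)
      _ = ∑ i ∈ Finset.Ico 1 (L + 1),
          (univ.filter fun x => ∃ α, α ⊆ tr x ∧ CritSet C lam' α ∧ α.card = L + i).card * 8 ^ L := by
          rw [Finset.sum_mul]
      _ ≤ ∑ i ∈ Finset.Ico 1 (L + 1), Fintype.card X / 8 ^ i := Finset.sum_le_sum hkey
      _ ≤ Fintype.card X / (8 - 1) := Nat.geom_sum_Ico_le (by norm_num) _ _
      _ ≤ Fintype.card X := Nat.div_le_self _ _
  · intro x hx
    rw [mem_union, not_or, mem_filter] at hx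
    obtain ⟨α, g1, g2, g3⟩ := hraw.1 x hx.1
    have g4 : Lev C lam' α (fp x) := fun β hβ => (g3 β hβ).trans (h1 β)
    obtain ⟨α', g5, g6, g7⟩ := exists_crit g4
    refine ⟨α', g5.trans g1, ?_, g6⟩
    by_contra hcard
    exact hx.2 ⟨mem_univ _, α', g5.trans g1, g7, by omega, (card_le_card g5).trans g2⟩
  · intro ω hω β hβ
    rw [mem_union, not_or, mem_filter] at hω
    by_contra hlt
    rw [not_le] at hlt
    exact hω.2 ⟨mem_univ _, β, hβ, fun β' hβ' => (hraw.2 ω hω.1 β' hβ').trans_lt hlt⟩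

end H589DT
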