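import Pool.Agent.H589R3.DT.Props

/-! # WD: a long walk through vertices of degree two -/

set_option linter.unusedSectionVars false

open scoped Classical
open Finset

namespace H589DT

namespace WD

variable {U E Λ : Type} [Fintype U] [Fintype E]

/-- the other end of an edge -/
noncomputable def oth (G : CGraph U E Λ) (e : E) (y : U) : U :=
  if G.src e = y then G.tgt e else G.src e

theorem joins_oth (G : CGraph U E Λ) {e : E} {y : U} (h : G.Inc e y) :
    G.Joins e y (oth G e y) := by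
  unfold oth
  split_ifs with h1
  · exact Or.inl ⟨h1, rfl⟩
  · rcases h with h | h
    · exact absurd h h1
    · exact Or.inr ⟨rfl, h⟩

theorem joins_symm (G : CGraph U E Λ) {e : E} {y z : U} (h : G.Joins e y z) : G.Joins e z y := by
  rcases h with ⟨h1, h2⟩ | ⟨h1, h2⟩
  · exact Or.inr ⟨h1, h2⟩
  · exact Or.inl ⟨h1, h2⟩

theorem inc_oth (G : CGraph U E Λ) (e : E) (y : U) : G.Inc e (oth G e y) := by
  unfold oth
  split_ifs with h1
  · exact Or.inr rfl
  · exact Or.inl rfl

theorem oth_oth (G : CGraph U E Λ) {e : E} {y : U} (h : G.Inc e y) :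
    oth G e (oth G e y) = y := by
  unfold oth
  by_cases h1 : G.src e = y
  · rw [if_pos h1, if_neg (G.ne e), h1]
  · rw [if_neg h1, if_pos rfl]
    rcases h with h | h
    · exact absurd h h1
    · exact h

theorem oth_mem (G : CGraph U E Λ) {T : Finset U} {e : E} (h : e ∈ G.ein T) (y : U) :
    oth G e y ∈ T := by
  simp only [CGraph.ein, mem_filter, mem_univ, true_and] at h
  unfold oth
  split_ifs
  · exact h.2
  · exact h.1

/-- the degree -/
noncomputable def dg (G : CGraph U E Λ) (Et : Finset E) (y : U) : ℕ :=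
  (Et.filter fun e => G.Inc e y).card

/-- the other edge at a vertex -/
noncomputable def oe (G : CGraph U E Λ) (Et : Finset E) (e : E) (z : U) : E :=
  if h : ∃ f ∈ Et, G.Inc f z ∧ f ≠ e then h.choose else e

theorem oe_spec (G : CGraph U E Λ) {Et : Finset E} {e : E} {z : U} (hd : dg G Et z = 2) :
    oe G Et e z ∈ Et ∧ G.Inc (oe G Et e z) z ∧ oe G Et e z ≠ e := by
  have h : ∃ f ∈ Et, G.Inc f z ∧ f ≠ e := by
    obtain ⟨a, b, hab, hE⟩ := card_eq_two.1 hd
    have ha : a ∈ Et.filter fun e => G.Inc e z := by rw [hE]; simp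
    have hb : b ∈ Et.filter fun e => G.Inc e z := by rw [hE]; simp
    rw [mem_filter] at ha hb
    by_cases hae : a = e
    · refine ⟨b, hb.1, hb.2, ?_⟩
      rintro rfl
      exact hab hae
    · exact ⟨a, ha.1, ha.2, hae⟩
  unfold oe
  rw [dif_pos h]
  exact ⟨h.choose_spec.1, h.choose_spec.2.1, h.choose_spec.2.2⟩

theorem two_edges (G : CGraph U E Λ) {Et : Finset E} {a b f : E} {z : U} (hd : dg G Et z = 2)
    (ha : a ∈ Et) (ha' : G.Inc a z) (hb : b ∈ Et) (hb' : G.Inc b z) (hab : a ≠ b)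
    (hf : f ∈ Et) (hf' : G.Inc f z) : f = a ∨ f = b := by
  by_contra hcon
  push Not at hcon
  have hsub : ({a, b, f} : Finset E) ⊆ Et.filter fun e => G.Inc e z := by
    intro x hx
    simp only [mem_insert, mem_singleton] at hx
    rw [mem_filter]
    rcases hx with rfl | rfl | rfl
    · exact ⟨ha, ha'⟩
    · exact ⟨hb, hb'⟩
    · exact ⟨hf, hf'⟩
  have h3 : ({a, b, f} : Finset E).card = 3 :=
    card_eq_three.2 ⟨a, b, f, hab, fun h => hcon.1 h.symm, fun h => hcon.2 h.symm, rfl⟩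
  have := card_le_card hsub
  unfold dg at hd
  omega

/-- darts -/
noncomputable def Dt (G : CGraph U E Λ) (Et : Finset E) (Y : Finset U) : Finset (E × U) :=
  (Et ×ˢ Y).filter fun d => G.Inc d.1 d.2 ∧ dg G Et d.2 = 2

theorem mem_Dt (G : CGraph U E Λ) {Et : Finset E} {Y : Finset U} {d : E × U} :
    d ∈ Dt G Et Y ↔ (d.1 ∈ Et ∧ d.2 ∈ Y) ∧ G.Inc d.1 d.2 ∧ dg G Et d.2 = 2 := by
  simp [Dt, mem_product]

/-- the next dart -/
noncomputable def nx (G : CGraph U E Λ) (Et : Finset E) (d : E × U) : E × U :=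
  (oe G Et d.1 (oth G d.1 d.2), oth G d.1 d.2)

/-- darts that can be continued `k` times -/
noncomputable def Ak (G : CGraph U E Λ) (Et : Finset E) (Y : Finset U) : ℕ → Finset (E × U)
  | 0 => Dt G Et Y
  | k + 1 => (Dt G Et Y).filter fun d => nx G Et d ∈ Ak G Et Y k

theorem Ak_iter (G : CGraph U E Λ) (Et : Finset E) (Y : Finset U) (k : ℕ) :
    ∀ d ∈ Ak G Et Y k, ∀ j ≤ k, (nx G Et)^[j] d ∈ Dt G Et Y := by
  induction k with
  | zero =>
    intro d hd j hj
    obtain rfl : j = 0 := by omega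
    exact hd
  | succ k ih =>
    intro d hd j hj
    simp only [Ak, mem_filter] at hd
    rcases j with _ | j
    · exact hd.1
    · rw [Function.iterate_succ_apply]
      exact ih _ hd.2 j (by omega)

theorem nx_inj (G : CGraph U E Λ) (Et : Finset E) (Y : Finset U) :
    Set.InjOn (nx G Et) ((Dt G Et Y).filter fun d => nx G Et d ∈ Dt G Et Y) := by
  intro d hd d' hd' h
  simp only [coe_filter, Set.mem_ofPred_eq] at hd hd'
  obtain ⟨hd1, hd2⟩ := hd
  obtain ⟨hd1', hd2'⟩ := hd'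
  rw [mem_Dt] at hd1 hd1' hd2 hd2'
  have hz : oth G d.1 d.2 = oth G d'.1 d'.2 := congrArg Prod.snd h
  have hf : oe G Et d.1 (oth G d.1 d.2) = oe G Et d'.1 (oth G d'.1 d'.2) := congrArg Prod.fst h
  have hdz : dg G Et (oth G d.1 d.2) = 2 := hd2.2.2
  have hdz' : dg G Et (oth G d'.1 d'.2) = 2 := hd2'.2.2
  have s1 := oe_spec G (e := d.1) hdz
  have s2 := oe_spec G (e := d'.1) hdz'
  have h1 : d'.1 = d.1 := by
    rcases two_edges G hdz hd1.1.1 (inc_oth G d.1 d.2) s1.1 s1.2.1 s1.2.2.symm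
      (f := d'.1) hd1'.1.1 (by rw [hz]; exact inc_oth G _ _) with h | h
    · exact h
    · exact absurd (hf.symm.trans h.symm) s2.2.2
  have h2 : d.2 = d'.2 := by
    rw [← oth_oth G hd1.2.1, ← oth_oth G hd1'.2.1, hz, h1]
  exact Prod.ext h1.symm h2

theorem card_sdiff_Ak (G : CGraph U E Λ) (Et : Finset E) (Y : Finset U) (k : ℕ) :
    (Dt G Et Y \ Ak G Et Y k).card ≤
      k * ((Dt G Et Y).filter fun d => nx G Et d ∉ Dt G Et Y).card := by
  induction k with
  | zero => simp [Ak]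
  | succ k ih =>
    have hsub : Dt G Et Y \ Ak G Et Y (k + 1) ⊆
        ((Dt G Et Y).filter fun d => nx G Et d ∉ Dt G Et Y) ∪
        ((Dt G Et Y).filter fun d => nx G Et d ∈ Dt G Et Y \ Ak G Et Y k) := by
      intro d hd
      simp only [Ak, mem_sdiff, mem_filter, not_and] at hd
      simp only [mem_union, mem_filter, mem_sdiff]
      by_cases h : nx G Et d ∈ Dt G Et Y
      · exact Or.inr ⟨hd.1, h, hd.2 hd.1⟩
      · exact Or.inl ⟨hd.1, h⟩
    have hinj : ((Dt G Et Y).filter fun d => nx G Et d ∈ Dt G Et Y \ Ak G Et Y k).card ≤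
        (Dt G Et Y \ Ak G Et Y k).card := by
      apply card_le_card_of_injOn (nx G Et)
      · intro d hd
        exact (mem_filter.1 hd).2
      · apply (nx_inj G Et Y).mono
        intro d hd
        simp only [coe_filter, Set.mem_ofPred_eq, mem_sdiff] at hd ⊢
        exact ⟨hd.1, hd.2.1⟩
    calc _ ≤ _ := card_le_card hsub
      _ ≤ _ := card_union_le _ _
      _ ≤ ((Dt G Et Y).filter fun d => nx G Et d ∉ Dt G Et Y).card +
          k * ((Dt G Et Y).filter fun d => nx G Et d ∉ Dt G Et Y).card := by omega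
      _ = _ := by ring

/-- pairs (edge, end) -/
theorem card_inc_pairs (G : CGraph U E Λ) (Et : Finset E) (Y : Finset U) :
    ((Et ×ˢ Y).filter fun d => G.Inc d.1 d.2).card = ∑ y ∈ Y, dg G Et y := by
  rw [card_filter, sum_product_right]
  apply sum_congr rfl
  intro y _
  rw [dg, card_filter]

theorem count (G : CGraph U E Λ) (h : ℕ) (X Y : Finset U) (hXY : Disjoint X Y)
    (hc : (G.ein (X ∪ Y)).card ≤ (G.ein X).card + (Y.card + Y.card / h))
    (hd : ∀ y ∈ Y, 2 ≤ dg G (G.ein (X ∪ Y)) y) :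
    2 * Y.card ≤ (Dt G (G.ein (X ∪ Y)) Y).card + 4 * (Y.card / h) ∧
    ((Dt G (G.ein (X ∪ Y)) Y).filter fun d =>
      nx G (G.ein (X ∪ Y)) d ∉ Dt G (G.ein (X ∪ Y)) Y).card ≤ 6 * (Y.card / h) := by
  obtain ⟨dl, hdl⟩ : ∃ dl, dl = Y.card / h := ⟨_, rfl⟩
  rw [← hdl] at hc ⊢
  clear hdl
  set T := X ∪ Y with hT
  set Et := G.ein T with hEt
  set N2 := Y.filter fun y => dg G Et y = 2 with hN2
  set N3 := Y.filter fun y => ¬ dg G Et y = 2 with hN3
  set P1 := (Et ×ˢ Y).filter fun d => G.Inc d.1 d.2 with hP1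
  set P2 := (Et ×ˢ X).filter fun d => G.Inc d.1 d.2 ∧ oth G d.1 d.2 ∈ Y with hP2
  have hXE : G.ein X ⊆ Et := by
    intro e he
    simp only [hEt, CGraph.ein, mem_filter, mem_univ, true_and, hT, mem_union] at he ⊢
    exact ⟨Or.inl he.1, Or.inl he.2⟩
  have hsd : (Et \ G.ein X).card ≤ Y.card + dl := by
    rw [card_sdiff_of_subset hXE]
    omega
  -- total number of pairs
  have hP : ((Et \ G.ein X) ×ˢ T).filter (fun d => G.Inc d.1 d.2) =
      (Et \ G.ein X).image (fun e => (e, G.src e)) ∪ (Et \ G.ein X).image fun e => (e, G.tgt e) := by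
    ext ⟨e, y⟩
    simp only [mem_filter, mem_product, mem_union, mem_image, Prod.mk.injEq]
    constructor
    · rintro ⟨⟨h1, h2⟩, h3 | h3⟩
      · exact Or.inl ⟨e, h1, rfl, h3⟩
      · exact Or.inr ⟨e, h1, rfl, h3⟩
    · rintro (⟨a, h1, rfl, rfl⟩ | ⟨a, h1, rfl, rfl⟩)
      · refine ⟨⟨h1, ?_⟩, Or.inl rfl⟩
        have := (mem_sdiff.1 h1).1
        simp only [hEt, CGraph.ein, mem_filter] at this
        exact this.2.1
      · refine ⟨⟨h1, ?_⟩, Or.inr rfl⟩
        have := (mem_sdiff.1 h1).1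
        simp only [hEt, CGraph.ein, mem_filter] at this
        exact this.2.2
  have hPc : (((Et \ G.ein X) ×ˢ T).filter (fun d => G.Inc d.1 d.2)).card ≤
      2 * (Et \ G.ein X).card := by
    rw [hP]
    refine (card_union_le _ _).trans ?_
    have h1 := card_image_le (s := Et \ G.ein X) (f := fun e => (e, G.src e))
    have h2 := card_image_le (s := Et \ G.ein X) (f := fun e => (e, G.tgt e))
    omega
  have hnX : ∀ e ∈ Et, ∀ y ∈ Y, G.Inc e y → e ∈ Et \ G.ein X := by
    intro e he y hy hi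
    rw [mem_sdiff]
    refine ⟨he, fun hx => ?_⟩
    simp only [CGraph.ein, mem_filter, mem_univ, true_and] at hx
    rcases hi with hi | hi
    · exact disjoint_left.1 hXY (hi ▸ hx.1) hy
    · exact disjoint_left.1 hXY (hi ▸ hx.2) hy
  have hsubP : P1 ∪ P2 ⊆ ((Et \ G.ein X) ×ˢ T).filter (fun d => G.Inc d.1 d.2) := by
    rintro ⟨e, y⟩ hh
    simp only [hP1, hP2, mem_union, mem_filter, mem_product] at hh
    simp only [mem_filter, mem_product]
    rcases hh with ⟨⟨h1, h2⟩, h3⟩ | ⟨⟨h1, h2⟩, h3, h4⟩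
    · exact ⟨⟨hnX e h1 y h2 h3, mem_union_right _ h2⟩, h3⟩
    · exact ⟨⟨hnX e h1 _ h4 (inc_oth G e y), mem_union_left _ h2⟩, h3⟩
  have hdisj : Disjoint P1 P2 := by
    rw [disjoint_left]
    rintro ⟨e, y⟩ h1 h2
    simp only [hP1, hP2, mem_filter, mem_product] at h1 h2
    exact disjoint_left.1 hXY h2.1.2 h1.1.2
  have hsum : P1.card + P2.card ≤ 2 * (Y.card + dl) := by
    rw [← card_union_of_disjoint hdisj]
    exact (card_le_card hsubP).trans (hPc.trans (by omega))
  have hP1c : P1.card = 2 * N2.card + ∑ y ∈ N3, dg G Et y := by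
    rw [hP1, card_inc_pairs, ← sum_filter_add_sum_filter_not Y (fun y => dg G Et y = 2)]
    congr 1
    rw [sum_congr rfl (g := fun _ => 2) (fun y hy => (mem_filter.1 hy).2), sum_const, smul_eq_mul,
      mul_comm]
  have hY : Y.card = N2.card + N3.card := by
    rw [hN2, hN3, card_filter_add_card_filter_not]
  have hs3 : 3 * N3.card ≤ ∑ y ∈ N3, dg G Et y := by
    rw [mul_comm, ← smul_eq_mul, ← sum_const]
    apply sum_le_sum
    intro y hy
    have h1 := (mem_filter.1 hy).2
    have h2 := hd y (mem_filter.1 hy).1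
    omega
  have hDc : (Dt G Et Y).card = 2 * N2.card := by
    have : Dt G Et Y = (Et ×ˢ N2).filter fun d => G.Inc d.1 d.2 := by
      ext ⟨e, y⟩
      simp only [Dt, hN2, mem_filter, mem_product]
      tauto
    rw [this, card_inc_pairs, sum_congr rfl (g := fun _ => 2) (fun y hy => (mem_filter.1 hy).2),
      sum_const, smul_eq_mul, mul_comm]
  -- undefined
  have hU : ((Dt G Et Y).filter fun d => nx G Et d ∉ Dt G Et Y).card ≤
      (∑ y ∈ N3, dg G Et y) + P2.card := by
    rw [← card_inc_pairs]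
    refine le_trans ?_ (card_union_le _ _)
    apply card_le_card_of_injOn (fun d => (d.1, oth G d.1 d.2))
    · rintro ⟨e, y⟩ hh
      simp only [coe_filter, Set.mem_ofPred_eq, mem_Dt] at hh
      obtain ⟨⟨⟨h1, h2⟩, h3, h4⟩, h5⟩ := hh
      have hz : oth G e y ∈ T := oth_mem G h1 y
      simp only [coe_union, Set.mem_union, coe_filter, Set.mem_ofPred_eq, mem_product, hP2, hN3,
        mem_filter]
      rw [hT, mem_union] at hz
      rcases hz with hz | hz
      · right
        refine ⟨⟨h1, hz⟩, inc_oth G e y, ?_⟩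
        rw [oth_oth G h3]
        exact h2
      · left
        refine ⟨⟨h1, hz, fun hdz => h5 ?_⟩, inc_oth G e y⟩
        have s1 := oe_spec G (e := e) hdz
        exact ⟨⟨s1.1, hz⟩, s1.2.1, hdz⟩
    · rintro ⟨e, y⟩ hh ⟨e', y'⟩ hh' heq
      simp only [coe_filter, Set.mem_ofPred_eq, mem_Dt] at hh hh'
      simp only [Prod.mk.injEq] at heq
      obtain ⟨rfl, hz⟩ := heq
      have : y = y' := by
        rw [← oth_oth G hh.1.2.1, ← oth_oth G hh'.1.2.1, hz]
      rw [this]
  constructor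
  · omega
  · omega

end WD

open WD in
theorem t_WD : S_WD := by
  intro U E Λ _ _ G r h X Y hr hrh hXY hY hc hd
  set Et := G.ein (X ∪ Y) with hEt
  obtain ⟨c1, c2⟩ := count G h X Y hXY hc hd
  rw [← hEt] at c1 c2
  have hYpos : 0 < Y.card := card_pos.2 hY
  have hdl : h * (Y.card / h) ≤ Y.card := Nat.mul_div_le _ _
  have hne : (Ak G Et Y (r - 1)).Nonempty := by
    rw [nonempty_iff_ne_empty]
    intro hemp
    have h1 := card_sdiff_Ak G Et Y (r - 1)
    rw [hemp, sdiff_empty] at h1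
    have h2 : (r - 1) * ((Dt G Et Y).filter fun d => nx G Et d ∉ Dt G Et Y).card ≤
        (r - 1) * (6 * (Y.card / h)) := Nat.mul_le_mul_left _ c2
    obtain ⟨s, rfl⟩ : ∃ s, r = s + 1 := ⟨r - 1, by omega⟩
    simp only [Nat.add_sub_cancel] at h1 h2
    have h3 : 3 * (s + 1) * (Y.card / h) ≤ Y.card :=
      (Nat.mul_le_mul_right _ hrh).trans hdl
    generalize Y.card / h = q at *
    rcases Nat.eq_zero_or_pos q with rfl | hq
    · rw [mul_zero, mul_zero] at h2
      omega
    · nlinarith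
  obtain ⟨d, hdA⟩ := hne
  have hit := Ak_iter G Et Y (r - 1) d hdA
  have hd0 : d ∈ Dt G Et Y := hit 0 (by omega)
  have hd0' := (mem_Dt G).1 hd0
  have s0 := oe_spec G (e := d.1) hd0'.2.2
  refine ⟨fun k => if k = 0 then oth G (oe G Et d.1 d.2) d.2 else ((nx G Et)^[k - 1] d).2,
    fun k => if k = 0 then oe G Et d.1 d.2 else ((nx G Et)^[k - 1] d).1, ?_, ?_, ?_⟩
  · intro k hk
    rcases Nat.eq_zero_or_pos k with rfl | hk0
    · refine ⟨s0.1, ?_⟩
      exact joins_symm G (joins_oth G s0.2.1)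
    · obtain ⟨j, rfl⟩ : ∃ j, k = j + 1 := ⟨k - 1, by omega⟩
      have hm := (mem_Dt G).1 (hit j (by omega))
      simp only [Nat.add_eq_zero_iff, one_ne_zero, and_false, if_false, Nat.add_sub_cancel]
      refine ⟨hm.1.1, ?_⟩
      rw [Function.iterate_succ_apply']
      exact joins_oth G hm.2.1
  · intro k hk
    rcases Nat.eq_zero_or_pos k with rfl | hk0
    · exact s0.2.2
    · obtain ⟨j, rfl⟩ : ∃ j, k = j + 1 := ⟨k - 1, by omega⟩
      have hm := (mem_Dt G).1 (hit (j + 1) (by omega))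
      simp only [Nat.add_eq_zero_iff, one_ne_zero, and_false, if_false, Nat.add_sub_cancel]
      rw [Function.iterate_succ_apply'] at hm ⊢
      exact (oe_spec G (e := ((nx G Et)^[j] d).1) hm.2.2).2.2.symm
  · intro k hk1 hkr
    obtain ⟨j, rfl⟩ : ∃ j, k = j + 1 := ⟨k - 1, by omega⟩
    have hm := (mem_Dt G).1 (hit j (by omega))
    simp only [Nat.add_eq_zero_iff, one_ne_zero, and_false, if_false, Nat.add_sub_cancel]
    refine ⟨hm.1.2, fun f hf hfi => ?_⟩
    rcases Nat.eq_zero_or_pos j with rfl | hj0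
    · simp only [if_true]
      exact two_edges G hd0'.2.2 s0.1 s0.2.1 hd0'.1.1 hd0'.2.1 s0.2.2 hf hfi
    · obtain ⟨i, rfl⟩ : ∃ i, j = i + 1 := ⟨j - 1, by omega⟩
      simp only [Nat.add_eq_zero_iff, one_ne_zero, and_false, if_false, Nat.add_sub_cancel]
      have hm' := (mem_Dt G).1 (hit i (by omega))
      rw [Function.iterate_succ_apply'] at hm hfi ⊢
      have s1 := oe_spec G (e := ((nx G Et)^[i] d).1) hm.2.2
      exact two_edges G hm.2.2 hm'.1.1 (inc_oth G _ _) s1.1 s1.2.1 s1.2.2.symm hf hfi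

end H589DT
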