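import Pool.Agent.H589R3.DT.Props

/-! # Task WI: nonbacktracking walks are injective below the girth (helper446) -/

open scoped Classical
open Finset

namespace H589DT

theorem WI_joins {U E Λ : Type} (G : CGraph U E Λ) {f : E} {x y z w : U} (h1 : G.Joins f x y)
    (h2 : G.Joins f z w) : (x = z ∧ y = w) ∨ (x = w ∧ y = z) := by
  rcases h1 with ⟨a, b⟩ | ⟨a, b⟩ <;> rcases h2 with ⟨c, d⟩ | ⟨c, d⟩
  · exact Or.inl ⟨a.symm.trans c, b.symm.trans d⟩
  · exact Or.inr ⟨a.symm.trans c, b.symm.trans d⟩
  · exact Or.inr ⟨b.symm.trans d, a.symm.trans c⟩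
  · exact Or.inl ⟨b.symm.trans d, a.symm.trans c⟩

theorem t_WI : S_WI := by
  intro U E Λ _ _ G r hg u e hJ hN
  have key : ∀ m k l, l = k + m → 1 ≤ m → l ≤ r + 1 → m ≤ r → u k ≠ u l := by
    intro m
    induction m using Nat.strong_induction_on with
    | _ m ih =>
    intro k l hl hm hlr hmr huv
    have inj : ∀ a b, k ≤ a → a < b → b < l → u a ≠ u b := by
      intro a b ha hab hb
      exact ih (b - a) (by omega) a b (by omega) (by omega) (by omega) (by omega)
    set S : Finset U := (Finset.Ico k l).image u with hS
    have hcS : S.card = m := by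
      rw [hS, card_image_of_injOn, Nat.card_Ico]
      · omega
      · intro a ha b hb hab
        simp only [coe_Ico, Set.mem_Ico] at ha hb
        by_contra hne
        rcases lt_or_gt_of_ne hne with h | h
        · exact inj a b ha.1 h hb.2 hab
        · exact inj b a hb.1 h ha.2 hab.symm
    have hmemS : ∀ a, k ≤ a → a ≤ l → u a ∈ S := by
      intro a ha hal
      rcases lt_or_eq_of_le hal with h | h
      · exact mem_image_of_mem _ (mem_Ico.2 ⟨ha, h⟩)
      · rw [h, ← huv]
        exact mem_image_of_mem _ (mem_Ico.2 ⟨le_refl _, by omega⟩)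
    have hlt := hg S (card_pos.1 (by omega)) (by omega)
    have hsub : (Finset.Ico k l).image e ⊆ G.ein S := by
      intro f hf
      obtain ⟨a, ha, rfl⟩ := mem_image.1 hf
      rw [mem_Ico] at ha
      have h1 := hmemS a ha.1 (by omega)
      have h2 := hmemS (a + 1) (by omega) (by omega)
      simp only [CGraph.ein, mem_filter, mem_univ, true_and]
      rcases hJ a (by omega) with ⟨c, d⟩ | ⟨c, d⟩
      · exact ⟨c ▸ h1, d ▸ h2⟩
      · exact ⟨c ▸ h2, d ▸ h1⟩
    have einj : ∀ a b, k ≤ a → a < b → b < l → e a ≠ e b := by
      intro a b ha hab hb hE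
      have j1 := hJ a (by omega)
      have j2 := hJ b (by omega)
      rw [← hE] at j2
      rcases WI_joins G j1 j2 with ⟨h, _⟩ | ⟨_, h⟩
      · exact inj a b ha hab hb h
      · rcases Nat.lt_or_ge (a + 1) b with h' | h'
        · exact inj (a + 1) b (by omega) h' hb h
        · have : b = a + 1 := by omega
          subst this
          exact hN a (by omega) hE
    have hce : ((Finset.Ico k l).image e).card = m := by
      rw [card_image_of_injOn, Nat.card_Ico]
      · omega
      · intro a ha b hb hab
        simp only [coe_Ico, Set.mem_Ico] at ha hb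
        by_contra hne
        rcases lt_or_gt_of_ne hne with h | h
        · exact einj a b ha.1 h hb.2 hab
        · exact einj b a hb.1 h ha.2 hab.symm
    have := card_le_card hsub
    omega
  intro k l hkl hlr hlk
  exact key (l - k) k l (by omega) (by omega) hlr (by omega)

end H589DT
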