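import Pool.Agent.H589R3.DT.Props

/-! # XT: the extension lemma -/

open scoped Classical
open Finset

namespace H589DT

theorem xt_mem_ein {U E Λ : Type} [Fintype U] [Fintype E] (G : CGraph U E Λ) (S : Finset U) (e : E) :
    e ∈ G.ein S ↔ G.src e ∈ S ∧ G.tgt e ∈ S := by
  unfold CGraph.ein
  simp

/-- case (a): a vertex with at most one edge -/
theorem xt_a {U E Λ : Type} [Fintype U] [Fintype E] (G : CGraph U E Λ) (hS : G.Surj)
    (X Y : Finset U) (hXY : Disjoint X Y) (y : U) (hy : y ∈ Y)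
    (h1 : ((G.ein (X ∪ Y)).filter fun e => G.Inc e y).card < 2) (τ τ' : U → Λ)
    (hτ : ∀ u ∈ X, τ' u = τ u) (hsat : G.SatOn (X ∪ Y.erase y) τ') :
    ∃ τ'' : U → Λ, (∀ u ∈ X, τ'' u = τ u) ∧ G.SatOn (X ∪ Y) τ'' := by
  have hyX : y ∉ X := fun h => Finset.disjoint_left.mp hXY h hy
  have hmem : ∀ v, v ∈ X ∪ Y → v ≠ y → v ∈ X ∪ Y.erase y := by
    intro v hv hvy
    rw [mem_union] at hv ⊢
    rcases hv with hv | hv
    · exact Or.inl hv
    · exact Or.inr (mem_erase.mpr ⟨hvy, hv⟩)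
  have hother : ∀ f ∈ G.ein (X ∪ Y), ¬ G.Inc f y → f ∈ G.ein (X ∪ Y.erase y) := by
    intro f hf hn
    rw [xt_mem_ein] at hf ⊢
    exact ⟨hmem _ hf.1 fun h => hn (Or.inl h), hmem _ hf.2 fun h => hn (Or.inr h)⟩
  have key : ∀ b : Λ, (∀ f ∈ G.ein (X ∪ Y), G.Inc f y →
      G.SatE (Function.update τ' y b) f) →
      ∃ τ'' : U → Λ, (∀ u ∈ X, τ'' u = τ u) ∧ G.SatOn (X ∪ Y) τ'' := by
    intro b hb
    refine ⟨Function.update τ' y b, ?_, ?_⟩
    · intro u hu
      have huy : u ≠ y := by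
        rintro rfl
        exact hyX hu
      rw [Function.update_of_ne huy]
      exact hτ u hu
    · intro f hf
      by_cases hi : G.Inc f y
      · exact hb f hf hi
      · have h2 := hsat f (hother f hf hi)
        unfold CGraph.SatE at h2 ⊢
        rw [Function.update_of_ne (fun h => hi (Or.inl h)),
          Function.update_of_ne (fun h => hi (Or.inr h))]
        exact h2
  by_cases hex : ∃ e0 ∈ G.ein (X ∪ Y), G.Inc e0 y
  · obtain ⟨e0, he0, hi0⟩ := hex
    have huniq : ∀ f ∈ G.ein (X ∪ Y), G.Inc f y → f = e0 := by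
      intro f hf hi
      have h2 : ((G.ein (X ∪ Y)).filter fun e => G.Inc e y).card ≤ 1 := by omega
      exact Finset.card_le_one.mp h2 f (mem_filter.mpr ⟨hf, hi⟩) e0 (mem_filter.mpr ⟨he0, hi0⟩)
    rcases hi0 with h0 | h0
    · obtain ⟨b, hb⟩ := hS.2 e0 (τ' (G.tgt e0))
      refine key b ?_
      intro f hf hi
      rw [huniq f hf hi]
      unfold CGraph.SatE
      have hne : G.tgt e0 ≠ y := fun h => G.ne e0 (h0.trans h.symm)
      rw [h0, Function.update_self, Function.update_of_ne hne]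
      exact hb
    · obtain ⟨b, hb⟩ := hS.1 e0 (τ' (G.src e0))
      refine key b ?_
      intro f hf hi
      rw [huniq f hf hi]
      unfold CGraph.SatE
      have hne : G.src e0 ≠ y := fun h => G.ne e0 (h.trans h0.symm)
      rw [h0, Function.update_self, Function.update_of_ne hne]
      exact hb
  · refine key (τ' y) ?_
    intro f hf hi
    exact absurd ⟨f, hf, hi⟩ hex

/-- case (b): a walk through vertices of degree two -/
theorem xt_b {U E Λ : Type} [Fintype U] [Fintype E] [Nonempty Λ] (G : CGraph U E Λ) (r : ℕ)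
    (hM : G.Mixing r)
    (X Y : Finset U) (hXY : Disjoint X Y) (u : ℕ → U) (e : ℕ → E)
    (h1 : ∀ k ≤ r, e k ∈ G.ein (X ∪ Y) ∧ G.Joins (e k) (u k) (u (k + 1)))
    (h2 : ∀ k < r, e k ≠ e (k + 1))
    (h3 : ∀ k, 1 ≤ k → k ≤ r → u k ∈ Y ∧
      ∀ f ∈ G.ein (X ∪ Y), G.Inc f (u k) → f = e (k - 1) ∨ f = e k)
    (h4 : ∀ k l, k < l → l ≤ r + 1 → l ≤ k + r → u k ≠ u l)
    (τ τ' : U → Λ) (hτ : ∀ v ∈ X, τ' v = τ v)
    (hsat : G.SatOn (X ∪ (Y \ (Finset.Icc 1 r).image u)) τ') :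
    ∃ τ'' : U → Λ, (∀ v ∈ X, τ'' v = τ v) ∧ G.SatOn (X ∪ Y) τ'' := by
  obtain ⟨c, hc0, hcr, hc⟩ := hM u e (fun k hk => (h1 k hk).2) h2 (τ' (u 0)) (τ' (u (r + 1)))
  have hdist : ∀ k l, 1 ≤ k → k ≤ r → l ≤ r + 1 → u k = u l → k = l := by
    intro k l hk1 hkr hl hkl
    rcases lt_trichotomy k l with h | h | h
    · exact absurd hkl (h4 k l h hl (by omega))
    · exact h
    · exact absurd hkl.symm (h4 l k h (by omega) (by omega))
  set τ'' : U → Λ := fun v =>
    if h : ∃ k, 1 ≤ k ∧ k ≤ r ∧ u k = v then c h.choose else τ' v with hτ''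
  have hno : ∀ v, (¬ ∃ k, 1 ≤ k ∧ k ≤ r ∧ u k = v) → τ'' v = τ' v := by
    intro v hv
    rw [hτ'']
    exact dif_neg hv
  have hval : ∀ j, j ≤ r + 1 → τ'' (u j) = c j := by
    intro j hj
    by_cases hex : ∃ k, 1 ≤ k ∧ k ≤ r ∧ u k = u j
    · have h5 : τ'' (u j) = c hex.choose := by
        rw [hτ'']
        exact dif_pos hex
      obtain ⟨h6, h7, h8⟩ := hex.choose_spec
      rw [h5, hdist _ j h6 h7 hj h8]
    · rw [hno _ hex]
      have hj' : j = 0 ∨ j = r + 1 := by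
        by_contra hc'
        push Not at hc'
        exact hex ⟨j, by omega, by omega, rfl⟩
      rcases hj' with rfl | rfl
      · exact hc0.symm
      · exact hcr.symm
  refine ⟨τ'', ?_, ?_⟩
  · intro v hv
    rw [hno v]
    · exact hτ v hv
    · rintro ⟨k, hk1, hk2, rfl⟩
      exact Finset.disjoint_left.mp hXY hv (h3 k hk1 hk2).1
  · intro f hf
    by_cases hex : ∃ k, 1 ≤ k ∧ k ≤ r ∧ G.Inc f (u k)
    · obtain ⟨k, hk1, hk2, hi⟩ := hex
      obtain ⟨m, hm, rfl⟩ : ∃ m ≤ r, f = e m := by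
        rcases (h3 k hk1 hk2).2 f hf hi with h | h
        · exact ⟨k - 1, by omega, h⟩
        · exact ⟨k, hk2, h⟩
      unfold CGraph.SatE
      rcases (h1 m hm).2 with ⟨hs, ht⟩ | ⟨hs, ht⟩
      · rw [hs, ht, hval m (by omega), hval (m + 1) (by omega)]
        exact (hc m hm).1 hs
      · rw [hs, ht, hval m (by omega), hval (m + 1) (by omega)]
        exact (hc m hm).2 hs
    · have hns : ¬ ∃ k, 1 ≤ k ∧ k ≤ r ∧ u k = G.src f := by
        rintro ⟨k, hk1, hk2, hk⟩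
        exact hex ⟨k, hk1, hk2, Or.inl hk.symm⟩
      have hnt : ¬ ∃ k, 1 ≤ k ∧ k ≤ r ∧ u k = G.tgt f := by
        rintro ⟨k, hk1, hk2, hk⟩
        exact hex ⟨k, hk1, hk2, Or.inr hk.symm⟩
      have hmem : ∀ v, v ∈ X ∪ Y → (¬ ∃ k, 1 ≤ k ∧ k ≤ r ∧ u k = v) →
          v ∈ X ∪ (Y \ (Finset.Icc 1 r).image u) := by
        intro v hv hn
        rw [mem_union] at hv ⊢
        rcases hv with hv | hv
        · exact Or.inl hv
        · refine Or.inr (mem_sdiff.mpr ⟨hv, ?_⟩)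
          intro hvi
          rw [mem_image] at hvi
          obtain ⟨k, hk, hkv⟩ := hvi
          rw [mem_Icc] at hk
          exact hn ⟨k, hk.1, hk.2, hkv⟩
      rw [xt_mem_ein] at hf
      have h5 := hsat f ((xt_mem_ein _ _ _).mpr ⟨hmem _ hf.1 hns, hmem _ hf.2 hnt⟩)
      unfold CGraph.SatE at h5 ⊢
      rw [hno _ hns, hno _ hnt]
      exact h5

theorem t_XT (hWD : S_WD) (hWI : S_WI) : S_XT := by
  intro U E Λ _ _ _ G r h hr hrh hS hM hG X
  have main : ∀ n : ℕ, ∀ Y : Finset U, Y.card = n → Disjoint X Y →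
      (∀ Z ⊆ Y, (G.ein (X ∪ Z)).card ≤ (G.ein X).card + (Z.card + Z.card / h)) →
      ∀ τ : U → Λ, G.SatOn X τ →
        ∃ τ' : U → Λ, (∀ u ∈ X, τ' u = τ u) ∧ G.SatOn (X ∪ Y) τ' := by
    intro n
    induction n using Nat.strong_induction_on with
    | _ n ih =>
    intro Y hYn hXY hZ τ hτ
    rcases Y.eq_empty_or_nonempty with hY | hY
    · refine ⟨τ, fun u _ => rfl, ?_⟩
      rw [hY, union_empty]
      exact hτ
    · by_cases hdeg : ∀ y ∈ Y, 2 ≤ ((G.ein (X ∪ Y)).filter fun e => G.Inc e y).card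
      · obtain ⟨u, e, h1, h2, h3⟩ := hWD U E Λ G r h X Y hr hrh hXY hY (hZ Y subset_rfl) hdeg
        have h4 := hWI U E Λ G r hG u e (fun k hk => (h1 k hk).2) h2
        set Z := (Finset.Icc 1 r).image u with hZdef
        have hZY : Z ⊆ Y := by
          intro v hv
          rw [hZdef, mem_image] at hv
          obtain ⟨k, hk, rfl⟩ := hv
          rw [mem_Icc] at hk
          exact (h3 k hk.1 hk.2).1
        have hZne : Z.Nonempty := ⟨u 1, mem_image_of_mem u (mem_Icc.mpr ⟨le_rfl, hr⟩)⟩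
        have hlt : (Y \ Z).card < n := by
          rw [← hYn]
          exact card_lt_card (sdiff_ssubset hZY hZne)
        obtain ⟨τ', hτ1, hτ2⟩ := ih _ hlt (Y \ Z) rfl (hXY.mono_right sdiff_subset)
          (fun Z' hZ' => hZ Z' (hZ'.trans sdiff_subset)) τ hτ
        exact xt_b G r hM X Y hXY u e h1 h2 h3 h4 τ τ' hτ1 hτ2
      · push Not at hdeg
        obtain ⟨y, hy, hy1⟩ := hdeg
        have hlt : (Y.erase y).card < n := by
          rw [← hYn]
          exact card_erase_lt_of_mem hy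
        obtain ⟨τ', hτ1, hτ2⟩ := ih _ hlt (Y.erase y) rfl (hXY.mono_right (erase_subset y Y))
          (fun Z' hZ' => hZ Z' (hZ'.trans (erase_subset y Y))) τ hτ
        exact xt_a G hS X Y hXY y hy hy1 τ τ' hτ1 hτ2
  intro Y hXY hZ τ hτ
  exact main Y.card Y rfl hXY hZ τ hτ

end H589DT
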