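import Pool.Agent.H589R3.DT.Asm
import Pool.Agent.H589R3.DT.EX
import Pool.Agent.H589R3.DT.SH
import Pool.Agent.H589R3.DT.MX
import Pool.Agent.H589R3.DT.WD
import Pool.Agent.H589R3.DT.WI
import Pool.Agent.H589R3.DT.XT
import Pool.Agent.H589R3.DT.CL
import Pool.Agent.H589R3.DT.LO
import Pool.Agent.H589R3.DT.CO
import Pool.Agent.H589R3.DT.CC
import Pool.Agent.H589R3.DT.ST
import Pool.Agent.H589R3.DT.PR
import Pool.Agent.H589R3.DT.FI
import Pool.Agent.H589R3.DT.NC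
import Pool.Agent.H589R3.DT.CT
import Pool.Agent.H589R3.DT.HO

/-! # d-to-1 games: the asymptotic form of the theorem (helper589) -/

open scoped Classical
open Finset

namespace H589DT

open H630VC (Prog)

theorem lo_all : S_LO := t_LO (t_XT t_WD t_WI) t_CL

theorem ho_all : S_HO := t_HO t_CO (t_PR (t_ST t_CC)) (t_FI t_CC) t_CT t_TR

/-- the choice of `L` -/
theorem choose_L (L1 : ℕ) : ∃ N0 : ℕ, ∀ N : ℕ, N0 ≤ N →
    ∃ L, L1 ≤ L ∧ 64 * L ^ 13 + 1 ≤ N ∧ (2 : ℝ) ^ ((N : ℝ) ^ (1 / 14 : ℝ)) ≤ 2 ^ L := by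
  set L' := max L1 (2 ^ 20) with hL'
  refine ⟨64 * L' ^ 13 + 1, fun N hN => ?_⟩
  have hL1 : 1 ≤ L' := le_trans (by norm_num) (le_max_right L1 (2 ^ 20))
  have hself : ∀ L : ℕ, L ≤ 64 * L ^ 13 + 1 := by
    intro L
    have : L ≤ L ^ 13 := Nat.le_self_pow (by norm_num) L
    omega
  set L := Nat.findGreatest (fun L => 64 * L ^ 13 + 1 ≤ N) N with hLdef
  have hle : L' ≤ L := Nat.le_findGreatest ((hself L').trans hN) hN
  have hPL : 64 * L ^ 13 + 1 ≤ N :=
    Nat.findGreatest_spec (P := fun L => 64 * L ^ 13 + 1 ≤ N) (m := L') ((hself L').trans hN) hN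
  have hnot : N < 64 * (L + 1) ^ 13 + 1 := by
    by_contra h
    have h1 : 64 * (L + 1) ^ 13 + 1 ≤ N := not_lt.1 h
    have h2 : L + 1 ≤ L := by
      rw [hLdef]
      exact Nat.le_findGreatest ((hself _).trans h1) h1
    omega
  have hL20 : 2 ^ 20 ≤ L := (le_max_right L1 (2 ^ 20)).trans hle
  refine ⟨L, (le_max_left _ _).trans hle, hPL, ?_⟩
  have hN14 : N ≤ L ^ 14 := by
    have h1 : (L + 1) ^ 13 ≤ (2 * L) ^ 13 := Nat.pow_le_pow_left (by omega) 13
    have h2 : (2 * L) ^ 13 = 8192 * L ^ 13 := by rw [mul_pow]; norm_num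
    have h3 : L ^ 14 = L * L ^ 13 := by ring
    have h4 : 2 ^ 20 * L ^ 13 ≤ L * L ^ 13 := Nat.mul_le_mul_right _ hL20
    omega
  have h14 : (N : ℝ) ^ (1 / 14 : ℝ) ≤ L := by
    have h1 : (N : ℝ) ≤ (L : ℝ) ^ 14 := by exact_mod_cast hN14
    have h2 : (N : ℝ) ^ (1 / 14 : ℝ) ≤ ((L : ℝ) ^ 14) ^ (1 / 14 : ℝ) :=
      Real.rpow_le_rpow (Nat.cast_nonneg _) h1 (by norm_num)
    have h3 : ((L : ℝ) ^ 14) ^ (1 / 14 : ℝ) = L := by
      rw [← Real.rpow_natCast, ← Real.rpow_mul (Nat.cast_nonneg _)]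
      norm_num
    exact h2.trans h3.le
  calc (2 : ℝ) ^ ((N : ℝ) ^ (1 / 14 : ℝ)) ≤ (2 : ℝ) ^ (L : ℝ) :=
        Real.rpow_le_rpow_of_exponent_le (by norm_num) h14
    _ = 2 ^ L := Real.rpow_natCast 2 L

/-- d-to-1 games with perfect completeness are hard for randomised circuits of monotone real
gates -/
theorem dto1 (d : ℕ) (hd : 2 ≤ d) (ε : ℝ) (hε : 0 < ε) :
    ∃ R : ℕ, 1 ≤ R ∧ ∃ N0 : ℕ, ∀ N : ℕ, N0 ≤ N →
      ∀ (Ω : Type) [Fintype Ω] [Nonempty Ω] (l : Ω → List (DGame (Fin N) (Fin N) d R → ℝ)),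
      (∀ ω, Prog (dInputs (Fin N) (Fin N) d R) (l ω)) → DDecides ε l →
      ∃ ω, (2 : ℝ) ^ ((N : ℝ) ^ (1 / 14 : ℝ)) ≤ (l ω).length := by
  obtain ⟨R, L1, hR, h⟩ := main_L t_EX t_SH t_MX lo_all ho_all t_NC d hd ε hε
  obtain ⟨N0, hN0⟩ := choose_L L1
  refine ⟨R, hR, N0, fun N hN Ω _ _ l hl hdec => ?_⟩
  obtain ⟨L, hL1, hLN, hL⟩ := hN0 N hN
  obtain ⟨ω, hω⟩ := h L hL1 N hLN Ω l hl hdec
  refine ⟨ω, hL.trans ?_⟩
  exact_mod_cast hω

/-- a monotone function decides the problem -/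
theorem dto1_monotone (ε : ℝ) (hε : ε ≤ 1) (V W : Type) [Fintype V] [Fintype W] (d R : ℕ) :
    ∃ f : DGame V W d R → ℝ, (∀ I J, (∀ g ∈ dInputs V W d R, g I ≤ g J) → f I ≤ f J) ∧
      ∀ I, (DNo ε I → f I = 1) ∧ (DYes I → f I = 0) := by
  refine ⟨fun I => if ∃ (A : V → Fin R) (B : W → Fin (d * R)),
      ∀ v w, I.adj v w → I.map v w (B w) = A v then 0 else 1, ?_, ?_⟩
  · intro I J h
    have hsub : ∀ v w, I.adj v w → J.adj v w ∧ J.map v w = I.map v w := by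
      intro v w hvw
      have h2 := h (fun K => if K.adj v w ∧ K.map v w = I.map v w then 1 else 0)
        (Or.inl ⟨v, w, I.map v w, rfl⟩)
      by_contra hcon
      simp only [hvw, and_self, if_true, hcon, if_false] at h2
      norm_num at h2
    by_cases hJ : ∃ (A : V → Fin R) (B : W → Fin (d * R)),
        ∀ v w, J.adj v w → J.map v w (B w) = A v
    · have hI : ∃ (A : V → Fin R) (B : W → Fin (d * R)),
          ∀ v w, I.adj v w → I.map v w (B w) = A v := by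
        obtain ⟨A, B, hAB⟩ := hJ
        refine ⟨A, B, fun v w hvw => ?_⟩
        obtain ⟨h1, h2⟩ := hsub v w hvw
        rw [← h2]
        exact hAB v w h1
      simp only [hJ, hI, if_true, le_refl]
    · simp only [hJ, if_false]
      split_ifs <;> norm_num
  · intro I
    constructor
    · intro hno
      have : ¬ ∃ (A : V → Fin R) (B : W → Fin (d * R)),
          ∀ v w, I.adj v w → I.map v w (B w) = A v := by
        rintro ⟨A, B, hAB⟩
        have h1 := hno A B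
        have h2 : (univ.filter fun e : V × W => I.adj e.1 e.2 ∧ I.map e.1 e.2 (B e.2) = A e.1)
            = (univ.filter fun e : V × W => I.adj e.1 e.2) := by
          apply Finset.filter_congr
          intro e _
          exact ⟨fun h => h.1, fun h => ⟨h, hAB _ _ h⟩⟩
        rw [h2] at h1
        have h3 : (0 : ℝ) ≤ ((univ.filter fun e : V × W => I.adj e.1 e.2).card : ℝ) :=
          Nat.cast_nonneg _
        nlinarith
      simp only [this, if_false]
    · rintro ⟨_, hAB⟩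
      simp only [hAB, if_true]

end H589DT
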