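import Pool.Agent.H589R3.DT.Props
import Pool.Agent.H630VC.Neg
import Pool.Agent.H589R3.DT.Sub

/-! # Task NC: conflicts are rare (helper446) -/

open scoped Classical
open Finset

namespace H589DT

open H630VC (marked)

theorem t_NC : S_NC := by
  intro P Λ _ _ M Q hQ
  let F : (P × Λ × Λ × Fin M × Fin M) → Finset (Smp P Λ M Q) := fun t =>
    if t.2.1 = t.2.2.1 then ∅ else
      univ.filter fun ω : Smp P Λ M Q => ∀ p ∈ ({(t.2.2.2.1, (t.1, t.2.1)),
        (t.2.2.2.2, (t.1, t.2.2.1))} : Finset (Fin M × (P × Λ))), (ω p.1 p.2 : ℕ) = 0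
  have hF : ∀ t, (F t).card * Q ^ 2 ≤ Fintype.card (Smp P Λ M Q) := by
    rintro ⟨p, σ, τ, i, j⟩
    simp only [F]
    split_ifs with h
    · simp
    · have hc : ({(i, (p, σ)), (j, (p, τ))} : Finset (Fin M × (P × Λ))).card = 2 := by
        rw [card_pair]
        intro hh
        exact h (congrArg (fun x => x.2.2) hh)
      have := H630VC.card_zeros (V := P × Λ) M Q hQ {(i, (p, σ)), (j, (p, τ))}
      rw [hc] at this
      exact le_of_eq ((congrArg (· * Q ^ 2) (cardFU _ _ _ _ _ _ fun _ => Iff.rfl)).trans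
        (this.trans (cardFt _ _)))
  have hsub : (univ.filter fun ω : Smp P Λ M Q => ¬ NoConflict (marked ω)) ⊆ univ.biUnion F := by
    intro ω hω
    replace hω := (mem_filter.1 hω).2
    unfold NoConflict at hω
    push Not at hω
    obtain ⟨p, σ, τ, h1, h2, h3⟩ := hω
    obtain ⟨i, hi⟩ := (mem_filter.1 h1).2
    obtain ⟨j, hj⟩ := (mem_filter.1 h2).2
    rw [mem_biUnion]
    refine ⟨(p, σ, τ, i, j), mem_univ _, ?_⟩
    simp only [F]
    rw [if_neg h3]
    refine mem_filter.2 ⟨mem_univ _, fun q hq => ?_⟩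
    rw [mem_insert, mem_singleton] at hq
    rcases hq with rfl | rfl
    · exact hi
    · exact hj
  calc (univ.filter fun ω : Smp P Λ M Q => ¬ NoConflict (marked ω)).card * Q ^ 2
      ≤ (∑ t, (F t).card) * Q ^ 2 :=
        Nat.mul_le_mul_right _ ((card_le_card hsub).trans card_biUnion_le)
    _ = ∑ t, (F t).card * Q ^ 2 := by rw [sum_mul]
    _ ≤ ∑ _t : P × Λ × Λ × Fin M × Fin M, Fintype.card (Smp P Λ M Q) := sum_le_sum fun t _ => hF t
    _ = Fintype.card P * Fintype.card Λ ^ 2 * M ^ 2 * Fintype.card (Smp P Λ M Q) := by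
        rw [sum_const, card_univ, smul_eq_mul]
        congr 1
        simp only [Fintype.card_prod, Fintype.card_fin]
        ring

end H589DT
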