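import Pool.Agent.H589R3.DT.Main

/-! # 2-to-1 games with one alphabet (helper589) -/

open scoped Classical
open Finset

namespace H589DT

open H630VC (Prog Mono2)

/-- a 2-to-1 game with alphabet `[q]` on both sides: a bipartite graph with vertex sets `U`, `V`
and for each pair a map of labels, which matters only if the pair is an edge; on edges no label has
more than two preimages -/
structure TGame (U V : Type) (q : ℕ) where
  /-- adjacency -/
  adj : U → V → Prop
  /-- the constraint on the edge: the image of the label of `u` is the label of `v` -/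
  map : U → V → Fin q → Fin q
  /-- 2-to-1 -/
  fib : ∀ u v, adj u v → ∀ b, (univ.filter fun a => map u v a = b).card ≤ 2

/-- the inputs of the circuits: for each `u`, `v` and map `π` the bit that tells that `u`, `v` are
adjacent with the constraint `π`, and real constants -/
def tInputs (U V : Type) (q : ℕ) : Set (TGame U V q → ℝ) :=
  {f | (∃ (u : U) (v : V) (π : Fin q → Fin q),
      f = fun I => if I.adj u v ∧ I.map u v = π then 1 else 0) ∨ ∃ c : ℝ, f = fun _ => c}

section

variable {U V : Type} [Fintype U] [Fintype V] {q : ℕ}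

/-- YES instances, value one: there is at least one edge, and some labelling satisfies all edges -/
def TYes (I : TGame U V q) : Prop :=
  (∃ u v, I.adj u v) ∧
    ∃ (A : U → Fin q) (B : V → Fin q), ∀ u v, I.adj u v → I.map u v (A u) = B v

/-- NO instances, value at most `δ`: there is at least one edge, and every labelling satisfies at
most a fraction `δ` of the edges -/
def TNo (δ : ℝ) (I : TGame U V q) : Prop :=
  (∃ u v, I.adj u v) ∧
    ∀ (A : U → Fin q) (B : V → Fin q),
      ((univ.filter fun e : U × V => I.adj e.1 e.2 ∧ I.map e.1 e.2 (A e.1) = B e.2).card : ℝ) ≤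
        δ * (univ.filter fun e : U × V => I.adj e.1 e.2).card

/-- a randomised circuit, that is a finite family `l` of circuits indexed by the random strings in
`Ω`, tells value one from value at most `δ`: its output is at least one on NO instances and less
than one on YES instances, in both cases for at least three quarters of the random strings -/
def TDecides {Ω : Type} [Fintype Ω] (δ : ℝ) (l : Ω → List (TGame U V q → ℝ)) : Prop :=
  ∃ f : Ω → TGame U V q → ℝ, (∀ r, f r ∈ l r) ∧ ∀ I : TGame U V q,
    (TNo δ I → 3 * Fintype.card Ω ≤ 4 * (univ.filter fun r => 1 ≤ f r I).card) ∧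
    (TYes I → 3 * Fintype.card Ω ≤ 4 * (univ.filter fun r => f r I < 1).card)

end

/-- circuits and maps of instances -/
theorem prog_comp {I J : Type} (F : J → I) (inp : Set (I → ℝ)) (inp' : Set (J → ℝ))
    (h : ∀ f ∈ inp, (fun x => f (F x)) ∈ inp') (l : List (I → ℝ)) (hl : Prog inp l) :
    Prog inp' (l.map fun f x => f (F x)) := by
  induction hl with
  | nil => exact Prog.nil
  | @input l f _ hf ih => exact Prog.input ih (h f hf)
  | @gate l φ f g _ hφ hf hg ih =>
    exact Prog.gate ih hφ (List.mem_map_of_mem hf) (List.mem_map_of_mem hg)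

/-- a d-to-1 game with `d = 2` as a game with one alphabet -/
def toT {V W : Type} {R : ℕ} (I : DGame V W 2 R) : TGame W V (2 * R) where
  adj w v := I.adj v w
  map w v a := Fin.castLE (by omega) (I.map v w a)
  fib w v h b := by
    by_cases hb : (b : ℕ) < R
    · refine le_trans (card_le_card ?_) (I.fib v w h ⟨b, hb⟩)
      intro a ha
      have h1 := (mem_filter.1 ha).2
      refine mem_filter.2 ⟨mem_univ _, ?_⟩
      apply Fin.ext
      have h2 := congrArg Fin.val h1
      simpa using h2
    · have : (univ.filter fun a => (Fin.castLE (by omega) (I.map v w a) : Fin (2 * R)) = b) = ∅ := by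
        apply filter_eq_empty_iff.2
        intro a _ ha
        have h2 := congrArg Fin.val ha
        simp only [Fin.val_castLE] at h2
        exact hb (h2 ▸ (I.map v w a).2)
      rw [this]
      simp

theorem toT_inp {V W : Type} {R : ℕ} (f : TGame W V (2 * R) → ℝ) (hf : f ∈ tInputs W V (2 * R)) :
    (fun I : DGame V W 2 R => f (toT I)) ∈ dInputs V W 2 R := by
  rcases hf with ⟨w, v, π, rfl⟩ | ⟨c, rfl⟩
  · by_cases h : ∃ q' : Fin (2 * R) → Fin R, π = fun a => Fin.castLE (by omega) (q' a)
    · obtain ⟨q', hq⟩ := h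
      left
      refine ⟨v, w, q', ?_⟩
      funext I
      have : ((toT I).adj w v ∧ (toT I).map w v = π) ↔ (I.adj v w ∧ I.map v w = q') := by
        refine and_congr Iff.rfl ?_
        constructor
        · intro h1
          rw [hq] at h1
          funext a
          have h2 := congrFun h1 a
          exact Fin.castLE_injective _ h2
        · intro h1
          rw [hq, ← h1]
          rfl
      simp only [this]
    · right
      refine ⟨0, ?_⟩
      funext I
      refine if_neg ?_
      rintro ⟨_, h2⟩
      exact h ⟨I.map v w, h2.symm⟩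
  · right
    exact ⟨c, rfl⟩

theorem toT_yes {V W : Type} [Fintype V] [Fintype W] {R : ℕ} (I : DGame V W 2 R) (h : DYes I) :
    TYes (toT I) := by
  obtain ⟨⟨v, w, hvw⟩, A, B, hAB⟩ := h
  refine ⟨⟨w, v, hvw⟩, B, fun v => Fin.castLE (by omega) (A v), fun w v hwv => ?_⟩
  exact congrArg (Fin.castLE (by omega)) (hAB v w hwv)

theorem toT_no {V W : Type} [Fintype V] [Fintype W] {R : ℕ} (hR : 1 ≤ R) (δ : ℝ)
    (I : DGame V W 2 R) (h : DNo δ I) : TNo δ (toT I) := by
  constructor
  · by_contra hcon
    have h0 : (univ.filter fun e : V × W => I.adj e.1 e.2) = ∅ := by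
      apply filter_eq_empty_iff.2
      intro e _ he
      exact hcon ⟨e.2, e.1, he⟩
    have h1 := h (fun _ => ⟨0, hR⟩) (fun _ => ⟨0, by omega⟩)
    rw [h0] at h1
    simp only [card_empty, Nat.cast_zero, mul_zero] at h1
    exact absurd h1 (not_lt.2 (Nat.cast_nonneg _))
  · intro A B
    have h1 := h (fun v => if hv : (B v : ℕ) < R then ⟨B v, hv⟩ else ⟨0, hR⟩) A
    have h2 : (univ.filter fun e : W × V => (toT I).adj e.1 e.2).card =
        (univ.filter fun e : V × W => I.adj e.1 e.2).card := by
      refine card_bij (fun e _ => (e.2, e.1)) ?_ ?_ ?_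
      · intro e he
        exact mem_filter.2 ⟨mem_univ _, (mem_filter.1 he).2⟩
      · rintro ⟨a, b⟩ _ ⟨c, d⟩ _ h
        simp only [Prod.mk.injEq] at h
        exact Prod.ext h.2 h.1
      · rintro ⟨a, b⟩ he
        exact ⟨(b, a), mem_filter.2 ⟨mem_univ _, (mem_filter.1 he).2⟩, rfl⟩
    have h3 : (univ.filter fun e : W × V => (toT I).adj e.1 e.2 ∧
          (toT I).map e.1 e.2 (A e.1) = B e.2).card ≤
        (univ.filter fun e : V × W => I.adj e.1 e.2 ∧ I.map e.1 e.2 (A e.2) =
          (fun v => if hv : (B v : ℕ) < R then (⟨B v, hv⟩ : Fin R) else ⟨0, hR⟩) e.1).card := by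
      refine card_le_card_of_injOn (fun e => (e.2, e.1)) ?_ ?_
      · intro e he
        obtain ⟨h4, h5⟩ := (mem_filter.1 (mem_coe.1 he)).2
        refine mem_coe.2 (mem_filter.2 ⟨mem_univ _, h4, ?_⟩)
        have h6 : ((I.map e.2 e.1 (A e.1) : Fin R) : ℕ) = (B e.2 : ℕ) := congrArg Fin.val h5
        have h7 : (B e.2 : ℕ) < R := h6 ▸ (I.map e.2 e.1 (A e.1)).2
        show I.map e.2 e.1 (A e.1) = if hv : (B e.2 : ℕ) < R then (⟨B e.2, hv⟩ : Fin R) else ⟨0, hR⟩
        rw [dif_pos h7]
        exact Fin.ext h6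
      · rintro ⟨a, b⟩ _ ⟨c, d⟩ _ h
        simp only [Prod.mk.injEq] at h
        exact Prod.ext h.2 h.1
    rw [h2]
    have h4 : ((univ.filter fun e : W × V => (toT I).adj e.1 e.2 ∧
          (toT I).map e.1 e.2 (A e.1) = B e.2).card : ℝ) ≤
        ((univ.filter fun e : V × W => I.adj e.1 e.2 ∧ I.map e.1 e.2 (A e.2) =
          (fun v => if hv : (B v : ℕ) < R then (⟨B v, hv⟩ : Fin R) else ⟨0, hR⟩) e.1).card : ℝ) := by
      exact_mod_cast h3
    exact h4.trans h1.le

/-- 2-to-1 games with perfect completeness are hard for randomised circuits of monotone real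
gates -/
theorem two2one (δ : ℝ) (hδ : 0 < δ) :
    ∃ q : ℕ, 1 ≤ q ∧ ∃ N0 : ℕ, ∀ N : ℕ, N0 ≤ N →
      ∀ (Ω : Type) [Fintype Ω] [Nonempty Ω] (l : Ω → List (TGame (Fin N) (Fin N) q → ℝ)),
      (∀ ω, Prog (tInputs (Fin N) (Fin N) q) (l ω)) → TDecides δ l →
      ∃ ω, (2 : ℝ) ^ ((N : ℝ) ^ (1 / 14 : ℝ)) ≤ (l ω).length := by
  obtain ⟨R, hR, N0, h⟩ := dto1 2 le_rfl δ hδ
  refine ⟨2 * R, by omega, N0, fun N hN Ω _ _ l hl hdec => ?_⟩
  obtain ⟨f, hf, hdec⟩ := hdec
  obtain ⟨ω, hω⟩ := h N hN Ω (fun ω => (l ω).map fun f x => f (toT x))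
    (fun ω => prog_comp toT _ _ (fun f hf => toT_inp f hf) _ (hl ω))
    ⟨fun ω x => f ω (toT x), fun ω => List.mem_map_of_mem (hf ω), fun I =>
      ⟨fun hno => (hdec (toT I)).1 (toT_no hR δ I hno),
        fun hyes => (hdec (toT I)).2 (toT_yes I hyes)⟩⟩
  refine ⟨ω, ?_⟩
  rw [List.length_map] at hω
  exact hω

/-- a monotone function decides the problem -/
theorem two2one_monotone (δ : ℝ) (hδ : δ < 1) (U V : Type) [Fintype U] [Fintype V] (q : ℕ) :
    ∃ f : TGame U V q → ℝ, (∀ I J, (∀ g ∈ tInputs U V q, g I ≤ g J) → f I ≤ f J) ∧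
      ∀ I, (TNo δ I → f I = 1) ∧ (TYes I → f I = 0) := by
  refine ⟨fun I => if ∃ (A : U → Fin q) (B : V → Fin q),
      ∀ u v, I.adj u v → I.map u v (A u) = B v then 0 else 1, ?_, ?_⟩
  · intro I J h
    have hsub : ∀ u v, I.adj u v → J.adj u v ∧ J.map u v = I.map u v := by
      intro u v huv
      have h2 := h (fun K => if K.adj u v ∧ K.map u v = I.map u v then 1 else 0)
        (Or.inl ⟨u, v, I.map u v, rfl⟩)
      by_contra hcon
      simp only [huv, and_self, if_true, hcon, if_false] at h2
      norm_num at h2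
    by_cases hJ : ∃ (A : U → Fin q) (B : V → Fin q), ∀ u v, J.adj u v → J.map u v (A u) = B v
    · have hI : ∃ (A : U → Fin q) (B : V → Fin q), ∀ u v, I.adj u v → I.map u v (A u) = B v := by
        obtain ⟨A, B, hAB⟩ := hJ
        refine ⟨A, B, fun u v huv => ?_⟩
        obtain ⟨h1, h2⟩ := hsub u v huv
        rw [← h2]
        exact hAB u v h1
      simp only [hJ, hI, if_true, le_refl]
    · simp only [hJ, if_false]
      split_ifs <;> norm_num
  · intro I
    constructor
    · rintro ⟨⟨u, v, huv⟩, hno⟩
      have : ¬ ∃ (A : U → Fin q) (B : V → Fin q), ∀ u v, I.adj u v → I.map u v (A u) = B v := by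
        rintro ⟨A, B, hAB⟩
        have h1 := hno A B
        have h2 : (univ.filter fun e : U × V => I.adj e.1 e.2 ∧ I.map e.1 e.2 (A e.1) = B e.2)
            = (univ.filter fun e : U × V => I.adj e.1 e.2) := by
          apply Finset.filter_congr
          intro e _
          exact ⟨fun h => h.1, fun h => ⟨h, hAB _ _ h⟩⟩
        rw [h2] at h1
        have h3 : (0 : ℝ) < ((univ.filter fun e : U × V => I.adj e.1 e.2).card : ℝ) := by
          have : 0 < (univ.filter fun e : U × V => I.adj e.1 e.2).card :=
            card_pos.2 ⟨(u, v), mem_filter.2 ⟨mem_univ _, huv⟩⟩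
          exact_mod_cast this
        nlinarith
      simp only [this, if_false]
    · rintro ⟨_, hAB⟩
      simp only [hAB, if_true]

end H589DT
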